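import Pool.Agent.N568.BK.Tri

/-!
# The number of the superincreasing words and the rank (helper568)
-/

set_option autoImplicit false

namespace Pool.Agent.N568.BK

open Finset

/-- the superincreasing lists of length `d + 1` and sum `n` with entries at least two -/
def S : ℕ → ℕ → Finset (List ℕ)
  | 0, n => if 2 ≤ n then {[n]} else ∅
  | d + 1, n => ((range n).filter fun m => 2 * m < n).biUnion fun m =>
      (S d m).image fun u => u ++ [n - m]

lemma SI_concat {u : List ℕ} {β : ℕ} (h : SI u) (hβ : u.sum < β) : SI (u ++ [β]) := by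
  intro u1 β1 v1 h1
  rcases List.eq_nil_or_concat v1 with h2 | ⟨v2, x, h2⟩
  · subst h2
    have h3 := List.append_inj_right' h1 rfl
    have h4 := List.append_inj_left' h1 rfl
    simp at h3
    rw [← h4, ← h3]
    exact hβ
  · have h2' : v1 = v2 ++ [x] := by simpa using h2
    subst h2'
    have h5 : u ++ [β] = (u1 ++ β1 :: v2) ++ [x] := by rw [h1]; simp
    have h4 := List.append_inj_left' h5 rfl
    exact h u1 β1 v2 h4

lemma mem_S : ∀ (d n : ℕ) (b : List ℕ), b ∈ S d n →
    b.length = d + 1 ∧ b.sum = n ∧ SI b ∧ ∀ x ∈ b, 2 ≤ x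
  | 0, n, b, hb => by
      unfold S at hb
      split_ifs at hb with h
      · rw [mem_singleton] at hb
        subst hb
        refine ⟨rfl, by simp, ?_, by simpa using h⟩
        have : SI ([] ++ [n]) := SI_concat (by
          intro u β v h
          simp at h) (by simp; omega)
        simpa using this
      · simp at hb
  | d + 1, n, b, hb => by
      unfold S at hb
      rw [mem_biUnion] at hb
      obtain ⟨m, hm, hb⟩ := hb
      rw [mem_filter] at hm
      rw [mem_image] at hb
      obtain ⟨u, hu, rfl⟩ := hb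
      obtain ⟨h1, h2, h3, h4⟩ := mem_S d m u hu
      refine ⟨by simp [h1], ?_, SI_concat h3 (by omega), ?_⟩
      · rw [List.sum_append, h2]
        simp
        omega
      · intro x hx
        rw [List.mem_append, List.mem_singleton] at hx
        rcases hx with hx | rfl
        · exact h4 x hx
        · have h5 : u ≠ [] := by
            rintro rfl
            simp at h1
          obtain ⟨y, hy⟩ := List.exists_mem_of_ne_nil u h5
          have h6 := h4 y hy
          have h7 : y ≤ u.sum := List.single_le_sum (fun _ _ => Nat.zero_le _) y hy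
          omega

lemma card_S (d n : ℕ) : (S (d + 1) n).card =
    ∑ m ∈ (range n).filter (fun m => 2 * m < n), (S d m).card := by
  conv_lhs => unfold S
  rw [card_biUnion]
  · refine sum_congr rfl fun m hm => ?_
    rw [card_image_of_injective]
    intro u u' h
    exact List.append_inj_left' h rfl
  · intro m hm m' hm' hne
    rw [Function.onFun, disjoint_left]
    intro b hb hb'
    rw [mem_image] at hb hb'
    obtain ⟨u, hu, rfl⟩ := hb
    obtain ⟨u', hu', h⟩ := hb'
    have h1 := List.append_inj_left' h rfl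
    apply hne
    rw [← (mem_S d m u hu).2.1, ← (mem_S d m' u' hu').2.1, h1]

lemma pow_step (N d : ℕ) : (N + 1) ^ (d + 1) ≤ N ^ (d + 1) + (d + 1) * (N + 1) ^ d := by
  induction d with
  | zero => simp
  | succ d ih =>
    have h1 : (N + 1) ^ (d + 2) = N * (N + 1) ^ (d + 1) + (N + 1) ^ (d + 1) := by ring
    have h2 : N * (N + 1) ^ (d + 1) ≤ N * (N ^ (d + 1) + (d + 1) * (N + 1) ^ d) :=
      Nat.mul_le_mul_left N ih
    have h3 : N * (N + 1) ^ d ≤ (N + 1) ^ (d + 1) := by
      rw [pow_succ, mul_comm]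
      exact Nat.mul_le_mul_left _ (by omega)
    calc (N + 1) ^ (d + 1 + 1) = N * (N + 1) ^ (d + 1) + (N + 1) ^ (d + 1) := h1
      _ ≤ N * (N ^ (d + 1) + (d + 1) * (N + 1) ^ d) + (N + 1) ^ (d + 1) := by omega
      _ = N ^ (d + 2) + (d + 1) * (N * (N + 1) ^ d) + (N + 1) ^ (d + 1) := by ring
      _ ≤ N ^ (d + 2) + (d + 1) * (N + 1) ^ (d + 1) + (N + 1) ^ (d + 1) := by
          have := Nat.mul_le_mul_left (d + 1) h3
          omega
      _ = N ^ (d + 1 + 1) + (d + 1 + 1) * (N + 1) ^ (d + 1) := by ring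

lemma pow_sum (d : ℕ) : ∀ K : ℕ, K ^ (d + 1) ≤ (d + 1) * ∑ t ∈ range (K + 1), t ^ d
  | 0 => by simp
  | K + 1 => by
      rw [sum_range_succ, mul_add]
      have := pow_sum d K
      have := pow_step K d
      omega

lemma tri_exp (d : ℕ) : (d + 1) * (d + 2) / 2 = d * (d + 1) / 2 + (d + 1) := by
  have h : (d + 1) * (d + 2) = d * (d + 1) + 2 * (d + 1) := by ring
  rw [h, Nat.add_mul_div_left _ _ (by norm_num)]

theorem count : ∀ d n : ℕ, 2 ^ (d + 2) ≤ n + 2 →
    (n + 2 - 2 ^ (d + 2)) ^ d ≤ 2 ^ (d * (d + 1) / 2) * d.factorial * (S d n).card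
  | 0, n, h => by
      unfold S
      rw [if_pos (by norm_num at h; omega)]
      simp
  | d + 1, n, h => by
      have hp : 2 ^ (d + 1 + 2) = 2 * 2 ^ (d + 2) := by ring
      have hp2 : 4 ≤ 2 ^ (d + 2) := by
        calc 4 = 2 ^ 2 := rfl
          _ ≤ 2 ^ (d + 2) := Nat.pow_le_pow_right (by norm_num) (by omega)
      rw [hp] at h ⊢
      set C := 2 ^ (d + 2) - 2 with hC
      set M := (n - 1) / 2 with hM
      set K := M - C with hK
      have hKM : C ≤ M := by omega
      have h2K : n + 2 - 2 * 2 ^ (d + 2) ≤ 2 * K := by omega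
      have hsum : ∑ t ∈ range (K + 1), (S d (C + t)).card ≤ (S (d + 1) n).card := by
        rw [card_S]
        have hinj : ∀ t ∈ range (K + 1), ∀ t' ∈ range (K + 1), C + t = C + t' → t = t' :=
          fun _ _ _ _ h => by omega
        rw [← sum_image (f := fun m => (S d m).card) hinj]
        apply sum_le_sum_of_subset
        intro m hm
        rw [mem_image] at hm
        obtain ⟨t, ht, rfl⟩ := hm
        rw [mem_range] at ht
        rw [mem_filter, mem_range]
        omega
      have hterm : ∀ t ∈ range (K + 1), t ^ d ≤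
          2 ^ (d * (d + 1) / 2) * d.factorial * (S d (C + t)).card := by
        intro t _
        have := count d (C + t) (by omega)
        have h1 : C + t + 2 - 2 ^ (d + 2) = t := by omega
        rw [h1] at this
        exact this
      have h1 : (n + 2 - 2 * 2 ^ (d + 2)) ^ (d + 1) ≤ 2 ^ (d + 1) * K ^ (d + 1) := by
        rw [← mul_pow]
        exact Nat.pow_le_pow_left h2K _
      have h2 := pow_sum d K
      have h3 : ∑ t ∈ range (K + 1), t ^ d ≤
          2 ^ (d * (d + 1) / 2) * d.factorial * (S (d + 1) n).card := by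
        refine (sum_le_sum hterm).trans ?_
        rw [← mul_sum]
        exact Nat.mul_le_mul_left _ hsum
      have h4 : (d + 1) * ∑ t ∈ range (K + 1), t ^ d ≤
          (d + 1) * (2 ^ (d * (d + 1) / 2) * d.factorial * (S (d + 1) n).card) :=
        Nat.mul_le_mul_left _ h3
      calc (n + 2 - 2 * 2 ^ (d + 2)) ^ (d + 1) ≤ 2 ^ (d + 1) * K ^ (d + 1) := h1
        _ ≤ 2 ^ (d + 1) * ((d + 1) *
            (2 ^ (d * (d + 1) / 2) * d.factorial * (S (d + 1) n).card)) :=
            Nat.mul_le_mul_left _ (h2.trans h4)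
        _ = 2 ^ ((d + 1) * (d + 1 + 1) / 2) * (d + 1).factorial * (S (d + 1) n).card := by
            rw [tri_exp, Nat.factorial_succ, pow_add]
            ring

/-- the row of the word `b` in the totally odd part of depth `r` -/
def row (r : ℕ) (b : List ℕ) : {e : List ℕ // e.length = r ∧ ∀ x ∈ e, Even x ∧ 2 ≤ x} → ℚ :=
  fun e => c b e.1

theorem indep (d n : ℕ) : LinearIndependent ℚ
    (fun b : {b : List ℕ // b.length = d + 1 ∧ b.sum = n ∧ SI b ∧ ∀ x ∈ b, 2 ≤ x} =>
      row (d + 1) b.1) := by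
  classical
  rw [linearIndependent_iff']
  intro s g hg i hi
  set lam : List ℕ → ℚ := fun b => if h : b.length = d + 1 ∧ b.sum = n ∧ SI b ∧ ∀ x ∈ b, 2 ≤ x
    then g ⟨b, h⟩ else 0 with hlam
  have h0 := indC d n (s.image Subtype.val) lam (by
    intro b hb
    rw [mem_image] at hb
    obtain ⟨b', -, rfl⟩ := hb
    exact b'.2) (by
    intro e he
    have h1 := congrFun hg ⟨e, he⟩
    rw [sum_image (fun x _ y _ h => Subtype.ext h)]
    rw [Finset.sum_apply] at h1
    simp only [Pi.smul_apply, smul_eq_mul, Pi.zero_apply] at h1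
    refine Eq.trans (sum_congr rfl fun b _ => ?_) h1
    simp only [hlam]
    rw [dif_pos b.2]
    rfl) i.1 (mem_image_of_mem _ hi)
  simp only [hlam] at h0
  rw [dif_pos i.2] at h0
  exact h0

theorem rank (d n : ℕ) (h : 2 ^ (d + 2) ≤ n + 2) :
    (n + 2 - 2 ^ (d + 2)) ^ d ≤ 2 ^ (d * (d + 1) / 2) * d.factorial *
      Module.finrank ℚ (Submodule.span ℚ {v | ∃ b : List ℕ, b.length = d + 1 ∧ b.sum = n ∧
        (∀ x ∈ b, 1 ≤ x) ∧ v = row (d + 1) b}) := by
  classical
  refine (count d n h).trans (Nat.mul_le_mul_left _ ?_)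
  set Z : Set ({e : List ℕ // e.length = d + 1 ∧ ∀ x ∈ e, Even x ∧ 2 ≤ x} → ℚ) :=
    {v | ∃ b : List ℕ, b.length = d + 1 ∧ b.sum = n ∧ (∀ x ∈ b, 1 ≤ x) ∧ v = row (d + 1) b} with hZ
  have hfin : Z.Finite := by
    have h1 : Z ⊆ Set.range (fun b : Composition n => row (d + 1) b.blocks) := by
      rintro v ⟨b, h1, h2, h3, rfl⟩
      exact ⟨⟨b, fun {i} hi => h3 i hi, h2⟩, rfl⟩
    exact (Set.finite_range _).subset h1
  have : FiniteDimensional ℚ (Submodule.span ℚ Z) := FiniteDimensional.span_of_finite ℚ hfin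
  set v : S d n → ({e : List ℕ // e.length = d + 1 ∧ ∀ x ∈ e, Even x ∧ 2 ≤ x} → ℚ) :=
    fun b => row (d + 1) b.1 with hv
  have hind : LinearIndependent ℚ v := by
    have h1 := (indep d n).comp (fun b : S d n => (⟨b.1, mem_S d n b.1 b.2⟩ :
      {b : List ℕ // b.length = d + 1 ∧ b.sum = n ∧ SI b ∧ ∀ x ∈ b, 2 ≤ x})) (by
        intro b b' hb
        simp only [Subtype.mk.injEq] at hb
        exact Subtype.ext hb)
    exact h1
  have h2 := finrank_span_eq_card hind
  have h3 : Submodule.span ℚ (Set.range v) ≤ Submodule.span ℚ Z := by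
    apply Submodule.span_mono
    rintro w ⟨b, rfl⟩
    obtain ⟨h1, h2, h3, h4⟩ := mem_S d n b.1 b.2
    exact ⟨b.1, h1, h2, fun x hx => le_trans (by norm_num) (h4 x hx), rfl⟩
  have h4 := Submodule.finrank_mono h3
  rw [h2, Fintype.card_coe] at h4
  exact h4

end Pool.Agent.N568.BK
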