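import Pool.Agent.N568.BK.Fun
import Pool.Agent.N568.BK.Count

/-!
# Independence of iterated brackets (helper568)
-/

set_option autoImplicit false

namespace Pool.Agent.N568.BK

open Finset

/-- the list of the first `s` variables -/
def tl : ℕ → (ℕ → ℚ) → List ℚ
  | 0, _ => []
  | s + 1, y => y 0 :: tl s (fun i => y (i + 1))

lemma om_zero (y : ℕ → ℚ) : om 0 y = fun i => y (i + 1) := by
  funext i
  unfold om
  rw [if_neg (by omega)]

lemma om_shift (j : ℕ) (y : ℕ → ℚ) :
    (fun i => om (j + 1) y (i + 1)) = om j fun i => y (i + 1) := by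
  funext i
  unfold om
  by_cases h : i < j
  · rw [if_pos h, if_pos (by omega)]
  · rw [if_neg h, if_neg (by omega)]

lemma act_tl (b : ℕ) : ∀ (s : ℕ) (G : List ℚ → ℚ) (y : ℕ → ℚ),
    act b G (tl (s + 1) y) = comp s b (fun y => G (tl s y)) y
  | 0, G, y => by
      simp [tl, act, comp]
  | s + 1, G, y => by
      have h1 : tl (s + 1 + 1) y = y 0 :: y 1 :: tl s (fun i => y (i + 1 + 1)) := rfl
      rw [h1]
      unfold act
      have h2 := act_tl b s (fun l => G (y 0 :: l)) (fun i => y (i + 1))
      have h3 : tl (s + 1) (fun i => y (i + 1)) = y 1 :: tl s (fun i => y (i + 1 + 1)) := rfl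
      rw [h3] at h2
      rw [h2]
      unfold comp
      rw [sum_range_succ']
      have e1 : ∀ k, tl (s + 1) (om (k + 1) y) = y 0 :: tl s (om k fun i => y (i + 1)) := by
        intro k
        have : (om (k + 1) y) 0 = y 0 := by
          unfold om
          rw [if_pos (by omega)]
        show (om (k + 1) y) 0 :: tl s (fun i => om (k + 1) y (i + 1)) = _
        rw [this, om_shift]
      have e2 : tl (s + 1) (om 0 y) = y 1 :: tl s (fun i => y (i + 1 + 1)) := by
        rw [om_zero, h3]
      have e3 : tl (s + 1) (om (0 + 1) y) = y 0 :: tl s (fun i => y (i + 1 + 1)) := by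
        rw [e1, om_zero]
      beta_reduce
      rw [e2, e3]
      have e4 : tl (s + 1) y = y 0 :: tl s fun i => y (i + 1) := rfl
      rw [e4]
      simp only [e1]
      ring

lemma Q_deg (b D : ℕ) (e : List ℕ) (g : List ℕ → ℚ) (hg : ∀ e', e'.sum ≠ D → g e' = 0)
    (he : e.sum ≠ D + 2 * b) : Q b g e = 0 := by
  rcases e with _ | ⟨k, _ | ⟨l, e⟩⟩
  · rfl
  · rfl
  · rw [List.sum_cons, List.sum_cons] at he
    have hQ : Q b g (k :: l :: e) = A b (fun e' => g (k :: e')) (l :: e) -
      (if 2 * b ≤ k + l then ((-1) ^ l * ((2 * b).choose l : ℚ)) *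
        g ((k + l - 2 * b) :: e) else 0) := rfl
    rw [hQ]
    have h2 : (if 2 * b ≤ k + l then ((-1) ^ l * ((2 * b).choose l : ℚ)) *
        g ((k + l - 2 * b) :: e) else 0) = 0 := by
      split_ifs with h
      · rw [hg _ (by rw [List.sum_cons]; omega), mul_zero]
      · rfl
    rw [h2, sub_zero]
    by_cases hk : k ≤ D
    · refine A_deg b (D - k) (l :: e) _ ?_ (by rw [List.sum_cons]; omega)
      intro e' he'
      exact hg _ (by rw [List.sum_cons]; omega)
    · have h3 : (fun e' => g (k :: e')) = fun _ => 0 := by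
        funext e'
        exact hg _ (by rw [List.sum_cons]; omega)
      rw [h3, A_zero]

theorem q_deg : ∀ (b e : List ℕ), e.sum ≠ 2 * b.sum → q b e = 0
  | [], e, h => by
      unfold q
      rw [if_neg]
      rintro rfl
      simp at h
  | b :: u, e, h => by
      unfold q
      refine Q_deg b (2 * u.sum) e _ (fun e' he' => q_deg u e' he') ?_
      rw [List.sum_cons] at h
      omega

/-- the coefficients of the functions `qf` -/
theorem qf_eq : ∀ (u : List ℕ) (K : ℕ) (y : ℕ → ℚ), 2 * u.sum < K →
    qf u y = P K (q u) (tl (u.length + 1) y)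
  | [], K, y, hK => by
      have hK' : 0 < K := by simpa using hK
      simp only [qf, tl, List.length_nil]
      unfold P
      unfold P
      rw [sum_eq_single 0]
      · simp [q]
      · intro k _ hk
        simp [q, hk]
      · intro h
        rw [mem_range] at h
        omega
  | b :: u, K, y, hK => by
      rw [List.sum_cons] at hK
      have hq : qf u = fun y => P K (q u) (tl (u.length + 1) y) := by
        funext y
        exact qf_eq u K y (by omega)
      have h1 : qf (b :: u) y = comp (u.length + 1) b (qf u) y -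
          (y 0 - y 1) ^ (2 * b) * qf u (om 0 y) := rfl
      rw [h1, hq]
      have h2 := act_tl b (u.length + 1) (P K (q u)) y
      rw [← h2]
      have hBD : BD (2 * u.sum) (q u) := fun e he => q_deg u e (by omega)
      rw [step b (2 * u.sum) K (by omega) _ (q u) hBD (by simp [tl])]
      have h3 : tl (u.length + 1 + 1) y = y 0 :: y 1 :: tl u.length (fun i => y (i + 1 + 1)) := rfl
      have h4 : tl (u.length + 1) (om 0 y) = y 1 :: tl u.length (fun i => y (i + 1 + 1)) := by
        rw [om_zero]
        rfl
      have h5 : (b :: u).length + 1 = u.length + 1 + 1 := by simp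
      rw [h5]
      beta_reduce
      rw [h4, h3]
      set ys := tl u.length (fun i => y (i + 1 + 1))
      set h : ℕ → ℚ := fun m => P K (fun e => q u (m :: e)) ys with hh
      have hh0 : ∀ m, 2 * u.sum < m → h m = 0 := by
        intro m hm
        have h6 : (fun e => q u (m :: e)) = fun _ => 0 := by
          funext e
          apply hBD
          rw [List.sum_cons]
          omega
        simp only [hh]
        rw [h6, P_zero]
      have e2 : P K (q u) (y 1 :: ys) = ∑ m ∈ range K, y 1 ^ m * h m := by
        conv_lhs => unfold P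
      have e5 := bin b (2 * u.sum) K (by omega) h hh0 (y 0) (y 1)
      rw [e2, ← e5]
      have e6 : P K (A b (q u)) (y 0 :: y 1 :: ys) = P K (q (b :: u)) (y 0 :: y 1 :: ys) +
          ∑ k ∈ range K, ∑ l ∈ range K, (if 2 * b ≤ k + l then
            ((-1) ^ k * ((2 * b).choose k : ℚ)) * h (k + l - 2 * b) else 0) *
              (y 0 ^ k * y 1 ^ l) := by
        conv_lhs => unfold P
        conv_rhs => lhs; unfold P
        rw [← sum_add_distrib]
        refine sum_congr rfl fun k _ => ?_
        conv_lhs => unfold P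
        conv_rhs => lhs; unfold P
        rw [mul_sum, mul_sum, ← sum_add_distrib]
        refine sum_congr rfl fun l _ => ?_
        have e7 : (fun e => A b (q u) (k :: l :: e)) = fun e => q (b :: u) (k :: l :: e) +
            (if 2 * b ≤ k + l then (-1) ^ k * ((2 * b).choose k : ℚ) else 0) *
              q u ((k + l - 2 * b) :: e) := by
          funext e
          have e8 : q (b :: u) (k :: l :: e) = A b (fun e' => q u (k :: e')) (l :: e) -
            if 2 * b ≤ k + l then ((-1) ^ l * ((2 * b).choose l : ℚ)) *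
              q u ((k + l - 2 * b) :: e) else 0 := by
            conv_lhs => unfold q
            rfl
          rw [e8]
          conv_lhs => unfold A
          split_ifs <;> ring
        rw [e7, P_add, P_smul]
        split_ifs <;> ring
      rw [e6]
      ring

/-- the coefficients are determined by the values at generic points -/
theorem uniq (K : ℕ) : ∀ (s : ℕ) (g : List ℕ → ℚ) (S : Finset ℚ),
    (∀ ys : List ℚ, ys.length = s → ys.Nodup → (∀ y ∈ ys, y ∉ S) → P K g ys = 0) →
    ∀ e : List ℕ, e.length = s → (∀ k ∈ e, k < K) → g e = 0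
  | 0, g, S, h, e, he, _ => by
      have : e = [] := by simpa using he
      subst this
      exact h [] rfl List.nodup_nil (by simp)
  | s + 1, g, S, h, e, he, hK => by
      classical
      rcases e with _ | ⟨k, e⟩
      · simp at he
      have he' : e.length = s := by simpa using he
      have h1 : ∀ y : ℚ, y ∉ S → ∑ m ∈ range K, y ^ m * g (m :: e) = 0 := by
        intro y hy
        refine uniq K s (fun e => ∑ m ∈ range K, y ^ m * g (m :: e)) (insert y S) ?_ e he'
          (fun x hx => hK x (List.mem_cons_of_mem _ hx))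
        intro ys hys hnd hS
        have h2 := h (y :: ys) (by simp [hys]) (by
          rw [List.nodup_cons]
          exact ⟨fun h3 => hS y h3 (mem_insert_self y S), hnd⟩) (by
          intro z hz
          rw [List.mem_cons] at hz
          rcases hz with rfl | hz
          · exact hy
          · exact fun h3 => hS z hz (mem_insert_of_mem h3))
        have h3 : ∀ m : ℕ, P K (fun e => ∑ i ∈ range m, y ^ i * g (i :: e)) ys =
            ∑ i ∈ range m, y ^ i * P K (fun e => g (i :: e)) ys := by
          intro m
          induction m with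
          | zero => simp [P_zero]
          | succ m ih =>
            have h4 : (fun e : List ℕ => ∑ i ∈ range (m + 1), y ^ i * g (i :: e)) =
                fun e => (fun e => ∑ i ∈ range m, y ^ i * g (i :: e)) e +
                  (fun e => y ^ m * g (m :: e)) e := by
              funext e
              rw [sum_range_succ]
            rw [h4, P_add, ih, P_smul, sum_range_succ]
        rw [h3]
        unfold P at h2
        exact h2
      set p : Polynomial ℚ := ∑ m ∈ range K, Polynomial.C (g (m :: e)) * Polynomial.X ^ m with hp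
      have h2 : p = 0 := by
        by_contra hne
        have h3 : ({y : ℚ | y ∉ S} : Set ℚ).Finite := by
          refine (p.roots.toFinset.finite_toSet).subset ?_
          intro y hy
          rw [mem_coe, Multiset.mem_toFinset, Polynomial.mem_roots hne]
          unfold Polynomial.IsRoot
          rw [hp, Polynomial.eval_finsetSum]
          refine Eq.trans (sum_congr rfl fun m _ => ?_) (h1 y hy)
          simp
          ring
        have h4 : ({y : ℚ | y ∉ S} : Set ℚ) ∪ (S : Set ℚ) = Set.univ := by
          ext y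
          simp only [Set.mem_union, Set.mem_ofPred_eq, mem_coe, Set.mem_univ, iff_true]
          tauto
        have h5 : (Set.univ : Set ℚ).Finite := by
          rw [← h4]
          exact h3.union S.finite_toSet
        exact Set.infinite_univ h5
      have h3 : p.coeff k = g (k :: e) := by
        rw [hp, Polynomial.finsetSum_coeff]
        rw [sum_eq_single k]
        · simp
        · intro m _ hm
          rw [Polynomial.coeff_C_mul, Polynomial.coeff_X_pow, if_neg (Ne.symm hm), mul_zero]
        · intro h4
          rw [mem_range] at h4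
          exact absurd (hK k (by simp)) h4
      rw [← h3, h2, Polynomial.coeff_zero]

/-- vectors from lists -/
def vec (l : List ℚ) : ℕ → ℚ := fun i => l.getD i 0

lemma tl_vec : ∀ (l : List ℚ), tl l.length (vec l) = l
  | [] => rfl
  | a :: l => by
      rw [List.length_cons]
      unfold tl
      have h1 : vec (a :: l) 0 = a := rfl
      have h2 : (fun i => vec (a :: l) (i + 1)) = vec l := by
        funext i
        rfl
      rw [h1, h2, tl_vec]

lemma vec_line (t : ℚ) (zs : List ℚ) :
    vec (t :: zs) = fun i => vec (0 :: zs) i + t * (if i = 0 then 1 else 0) := by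
  funext i
  rcases i with _ | i
  · simp [vec]
  · simp [vec]

lemma sum_ite (zs : List ℚ) (hnd : zs.Nodup) (z : ℚ) (hz : z ∈ zs) (F : Polynomial ℚ) :
    (zs.map fun ρ => if ρ = z then F else 0).sum = F := by
  induction zs with
  | nil => simp at hz
  | cons a l ih =>
    rw [List.nodup_cons] at hnd
    rw [List.map_cons, List.sum_cons]
    rw [List.mem_cons] at hz
    by_cases h : a = z
    · subst h
      rw [if_pos rfl]
      have : (l.map fun ρ => if ρ = a then F else 0).sum = 0 := by
        apply List.sum_eq_zero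
        intro x hx
        rw [List.mem_map] at hx
        obtain ⟨ρ, hρ, rfl⟩ := hx
        rw [if_neg]
        rintro rfl
        exact hnd.1 hρ
      rw [this, add_zero]
    · rw [if_neg h, zero_add]
      exact ih hnd.2 (hz.resolve_left (Ne.symm h))

lemma sum_map_add' (zs : List ℚ) (G G' : ℚ → Polynomial ℚ) :
    (zs.map fun ρ => G ρ + G' ρ).sum = (zs.map G).sum + (zs.map G').sum := by
  induction zs with
  | nil => simp
  | cons a l ih =>
    simp only [List.map_cons, List.sum_cons, ih]
    ring

lemma sum_map_mul' (zs : List ℚ) (c : Polynomial ℚ) (G : ℚ → Polynomial ℚ) :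
    (zs.map fun ρ => c * G ρ).sum = c * (zs.map G).sum := by
  induction zs with
  | nil => simp
  | cons a l ih =>
    simp only [List.map_cons, List.sum_cons, ih]
    ring

/-- the restriction of the other high powers to lines -/
theorem imp_line {N D : ℕ} (zs : List ℚ) (hnd : zs.Nodup) {h : (ℕ → ℚ) → ℚ}
    (H : Imp N D (zs.length + 1) h) :
    ∃ (H0 : Polynomial ℚ) (G : ℚ → Polynomial ℚ), H0.natDegree ≤ D ∧
      (∀ ρ ∈ zs, (Polynomial.X - Polynomial.C ρ) ^ N ∣ G ρ ∧ (G ρ).natDegree ≤ N + D) ∧
      ∀ t : ℚ, h (vec (t :: zs)) = (H0 + (zs.map G).sum).eval t := by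
  have hline : ∀ R : (ℕ → ℚ) → ℚ, LD D R → ∃ g : Polynomial ℚ, g.natDegree ≤ D ∧
      ∀ t, R (vec (t :: zs)) = g.eval t := by
    intro R hR
    obtain ⟨g, hg, h1⟩ := hR (vec (0 :: zs)) (fun i => if i = 0 then 1 else 0)
    refine ⟨g, hg, fun t => ?_⟩
    rw [← h1, vec_line]
  have hv : ∀ i, 1 ≤ i → i < zs.length + 1 → ∀ t, vec (t :: zs) i = zs.getD (i - 1) 0 ∧
      zs.getD (i - 1) 0 ∈ zs := by
    intro i hi hi' t
    obtain ⟨j, rfl⟩ : ∃ j, i = j + 1 := ⟨i - 1, by omega⟩
    refine ⟨rfl, ?_⟩
    rw [Nat.add_sub_cancel, List.getD_eq_getElem _ _ (by omega : j < zs.length)]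
    exact List.getElem_mem _
  have hconst : ∀ (w : ℚ) (R : (ℕ → ℚ) → ℚ), LD D R →
      ∃ (H0 : Polynomial ℚ) (G : ℚ → Polynomial ℚ), H0.natDegree ≤ D ∧
      (∀ ρ ∈ zs, (Polynomial.X - Polynomial.C ρ) ^ N ∣ G ρ ∧ (G ρ).natDegree ≤ N + D) ∧
      ∀ t : ℚ, w ^ N * R (vec (t :: zs)) = (H0 + (zs.map G).sum).eval t := by
    intro w R hR
    obtain ⟨g, hg, h1⟩ := hline R hR
    refine ⟨Polynomial.C (w ^ N) * g, fun _ => 0, ?_, fun ρ _ => ⟨dvd_zero _, by simp⟩, fun t => ?_⟩
    · refine Polynomial.natDegree_mul_le.trans ?_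
      rw [Polynomial.natDegree_C, zero_add]
      exact hg
    · rw [h1]
      simp
  have hroot : ∀ (z a : ℚ) (R : (ℕ → ℚ) → ℚ), z ∈ zs → LD D R →
      ∃ (H0 : Polynomial ℚ) (G : ℚ → Polynomial ℚ), H0.natDegree ≤ D ∧
      (∀ ρ ∈ zs, (Polynomial.X - Polynomial.C ρ) ^ N ∣ G ρ ∧ (G ρ).natDegree ≤ N + D) ∧
      ∀ t : ℚ, (a * (t - z)) ^ N * R (vec (t :: zs)) = (H0 + (zs.map G).sum).eval t := by
    intro z a R hz hR
    obtain ⟨g, hg, h1⟩ := hline R hR
    refine ⟨0, fun ρ => if ρ = z then Polynomial.C (a ^ N) * ((Polynomial.X - Polynomial.C z) ^ N * g)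
      else 0, by simp, ?_, fun t => ?_⟩
    · intro ρ _
      beta_reduce
      by_cases h2 : ρ = z
      · rw [if_pos h2, h2]
        refine ⟨Dvd.dvd.mul_left (dvd_mul_right _ _) _, ?_⟩
        refine Polynomial.natDegree_mul_le.trans ?_
        rw [Polynomial.natDegree_C, zero_add]
        refine Polynomial.natDegree_mul_le.trans ?_
        rw [Polynomial.natDegree_pow, Polynomial.natDegree_X_sub_C, mul_one]
        exact Nat.add_le_add_left hg N
      · rw [if_neg h2]
        exact ⟨dvd_zero _, by simp⟩
    · rw [sum_ite zs hnd z hz, h1, mul_pow]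
      simp
      ring
  induction H with
  | zero => exact ⟨0, fun _ => 0, by simp, fun ρ _ => ⟨dvd_zero _, by simp⟩, fun t => by simp⟩
  | add _ _ ih ih' =>
    obtain ⟨H0, G, h1, h2, h3⟩ := ih
    obtain ⟨H0', G', h1', h2', h3'⟩ := ih'
    refine ⟨H0 + H0', fun ρ => G ρ + G' ρ, (Polynomial.natDegree_add_le _ _).trans (max_le h1 h1'),
      fun ρ hρ => ⟨dvd_add (h2 ρ hρ).1 (h2' ρ hρ).1, (Polynomial.natDegree_add_le _ _).trans
        (max_le (h2 ρ hρ).2 (h2' ρ hρ).2)⟩, fun t => ?_⟩
    rw [sum_map_add']
    beta_reduce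
    rw [h3, h3']
    simp only [Polynomial.eval_add]
    ring
  | @pure i R h1 h2 hR =>
    obtain ⟨H0, G, g1, g2, g3⟩ := hconst (zs.getD (i - 1) 0) R hR
    refine ⟨H0, G, g1, g2, fun t => ?_⟩
    beta_reduce
    rw [(hv i h1 h2 t).1, g3]
  | @diff i j R h1 h2 h3 hR =>
    by_cases hi : i = 0
    · subst hi
      have hj : 1 ≤ j := by omega
      obtain ⟨H0, G, g1, g2, g3⟩ := hroot (zs.getD (j - 1) 0) 1 R (hv j hj h3 0).2 hR
      refine ⟨H0, G, g1, g2, fun t => ?_⟩
      beta_reduce
      rw [(hv j hj h3 t).1, ← g3]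
      have : vec (t :: zs) 0 = t := rfl
      rw [this, one_mul]
    · by_cases hj : j = 0
      · subst hj
        obtain ⟨H0, G, g1, g2, g3⟩ := hroot (zs.getD (i - 1) 0) (-1) R
          (hv i (by omega) h2 0).2 hR
        refine ⟨H0, G, g1, g2, fun t => ?_⟩
        beta_reduce
        rw [(hv i (by omega) h2 t).1, ← g3]
        have : vec (t :: zs) 0 = t := rfl
        rw [this]
        congr 2
        ring
      · obtain ⟨H0, G, g1, g2, g3⟩ := hconst (zs.getD (i - 1) 0 - zs.getD (j - 1) 0) R hR
        refine ⟨H0, G, g1, g2, fun t => ?_⟩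
        beta_reduce
        rw [(hv i (by omega) h2 t).1, (hv j (by omega) h3 t).1, g3]

end Pool.Agent.N568.BK
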