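import Pool.Agent.N568.BK.Free2
import Pool.Agent.H777R4.DM.LS1
import Pool.Agent.H777R4.DM.R0
import Pool.Agent.H358R3.DM.FinalN
import Pool.Agent.H861R3.DM.LeadN

/-!
# The Ihara action of `(ad x₀)^m x₁` on the lowest depth part (helper568)
-/

set_option autoImplicit false

namespace Pool.Agent.N568.DSF

open Finset Pool.Agent.H777R4.DM
open Pool.Agent.N568.BK (AR)

attribute [local instance 100] LieRing.ofAssociativeRing

/-! ### multiplication by words -/

lemma co_wd_mul (w : List (Fin 2)) (P : A) (u : List (Fin 2)) : co (wd w * P) (w ++ u) = co P u := by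
  induction P using al_induction with
  | h1 v =>
    rw [wd_mul, co_wd, co_wd]
    simp
  | h2 P Q hP hQ => rw [mul_add, co_add, co_add, hP, hQ]
  | h3 c P hP => rw [mul_smul_comm, co_smul, co_smul, hP]

lemma co_wd_mul_ne (w : List (Fin 2)) (P : A) (u : List (Fin 2)) (h : ¬ w <+: u) :
    co (wd w * P) u = 0 := by
  induction P using al_induction with
  | h1 v =>
    rw [wd_mul, co_wd, if_neg]
    intro h1
    exact h ⟨v, h1⟩
  | h2 P Q hP hQ => rw [mul_add, co_add, hP, hQ, add_zero]
  | h3 c P hP => rw [mul_smul_comm, co_smul, hP, mul_zero]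

lemma co_x_mul (i : Fin 2) (P : A) (u : List (Fin 2)) : co (x i * P) (i :: u) = co P u :=
  co_wd_mul [i] P u

lemma co_x_mul_ne (i j : Fin 2) (P : A) (u : List (Fin 2)) (h : i ≠ j) : co (x i * P) (j :: u) = 0 :=
  co_wd_mul_ne [i] P (j :: u) (by
    intro h1
    rw [List.cons_prefix_cons] at h1
    exact h h1.1)

lemma co_x_nil (i : Fin 2) (P : A) : co (x i * P) [] = 0 :=
  co_wd_mul_ne [i] P [] (by simp)

lemma wd_cons' (i : Fin 2) (v : List (Fin 2)) : (wd (i :: v) : A) = x i * wd v := by
  unfold x
  rw [wd_mul]
  rfl

lemma rep_eq : ∀ (a b : ℕ) (s t : List (Fin 2)),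
    List.replicate a (0 : Fin 2) ++ 1 :: s = List.replicate b 0 ++ 1 :: t → a = b ∧ s = t
  | 0, 0, s, t, h => by simpa using h
  | 0, b + 1, s, t, h => by simp [List.replicate_succ] at h
  | a + 1, 0, s, t, h => by simp [List.replicate_succ] at h
  | a + 1, b + 1, s, t, h => by
      rw [List.replicate_succ, List.replicate_succ, List.cons_append, List.cons_append,
        List.cons.injEq] at h
      obtain ⟨h1, h2⟩ := rep_eq a b s t h.2
      exact ⟨by omega, h2⟩

lemma rep_pre : ∀ (b l : ℕ) (s t : List (Fin 2)),
    List.replicate b (0 : Fin 2) ++ t = List.replicate l 0 ++ 1 :: s →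
    b ≤ l
  | 0, l, s, t, _ => by omega
  | b + 1, 0, s, t, h => by simp [List.replicate_succ] at h
  | b + 1, l + 1, s, t, h => by
      rw [List.replicate_succ, List.replicate_succ, List.cons_append, List.cons_append,
        List.cons.injEq] at h
      have := rep_pre b l s t h.2
      omega

/-- `(ad x₀)^m x₁` -/
noncomputable def Fm (m : ℕ) : A := ∑ b ∈ range (m + 1),
  ((-1) ^ b * (m.choose b : ℚ)) • wd (List.replicate (m - b) 0 ++ 1 :: List.replicate b 0)

lemma term_eq (m b : ℕ) (P : A) (k l : ℕ) (e : List ℕ) :
    co (wd (List.replicate (m - b) 0 ++ 1 :: List.replicate b 0) * P) (wordX (k :: l :: e)) =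
      if m - b = k ∧ b ≤ l then co P (wordX ((l - b) :: e)) else 0 := by
  split_ifs with h
  · obtain ⟨h1, h2⟩ := h
    have h3 : wordX (k :: l :: e) = (List.replicate (m - b) 0 ++ 1 :: List.replicate b 0) ++
        wordX ((l - b) :: e) := by
      rw [h1]
      unfold wordX
      rw [List.append_assoc, List.cons_append]
      congr 2
      conv_lhs => unfold wordX
      rw [← List.append_assoc, List.replicate_append_replicate]
      congr 2
      omega
    rw [h3, co_wd_mul]
  · apply co_wd_mul_ne
    rintro ⟨t, ht⟩
    apply h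
    rw [List.append_assoc, List.cons_append] at ht
    obtain ⟨h1, h2⟩ := rep_eq _ _ _ _ ht
    exact ⟨h1, rep_pre _ _ _ _ h2⟩

lemma term_base (m b : ℕ) (P : A) (k : ℕ) :
    co (wd (List.replicate (m - b) 0 ++ 1 :: List.replicate b 0) * P) (wordX [k]) =
      if m - b = k ∧ b = 0 then co P [] else 0 := by
  split_ifs with h
  · obtain ⟨h1, h2⟩ := h
    have h3 : wordX [k] = (List.replicate (m - b) 0 ++ 1 :: List.replicate b 0) ++ [] := by
      rw [h1, h2]
      simp [wordX]
    rw [h3, co_wd_mul]
  · apply co_wd_mul_ne
    rintro ⟨t, ht⟩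
    apply h
    rw [List.append_assoc, List.cons_append] at ht
    obtain ⟨h1, h2⟩ := rep_eq _ _ _ _ ht
    refine ⟨h1, ?_⟩
    have h4 : List.replicate b (0 : Fin 2) = [] := (List.append_eq_nil_iff.mp h2).1
    simpa using h4

lemma Fm_mul (b : ℕ) (P : A) (k l : ℕ) (e : List ℕ) :
    co (Fm (2 * b) * P) (wordX (k :: l :: e)) = if 2 * b ≤ k + l then
      ((-1) ^ k * ((2 * b).choose k : ℚ)) * co P (wordX ((k + l - 2 * b) :: e)) else 0 := by
  unfold Fm
  rw [Finset.sum_mul, co_sum]
  have h1 : ∀ j ∈ range (2 * b + 1), co ((((-1) ^ j * ((2 * b).choose j : ℚ)) •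
      wd (List.replicate (2 * b - j) 0 ++ 1 :: List.replicate j 0)) * P) (wordX (k :: l :: e)) =
      if j + k = 2 * b then (if 2 * b ≤ k + l then
      ((-1) ^ k * ((2 * b).choose k : ℚ)) * co P (wordX ((k + l - 2 * b) :: e)) else 0) else 0 := by
    intro j hj
    rw [mem_range] at hj
    rw [smul_mul_assoc, co_smul, term_eq]
    by_cases h2 : j + k = 2 * b
    · rw [if_pos h2]
      have h3 : (2 * b).choose j = (2 * b).choose k := by
        rw [← Nat.choose_symm (show k ≤ 2 * b by omega)]
        congr 1
        omega
      have h4 : ((-1 : ℚ)) ^ j = (-1) ^ k := by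
        rcases Nat.even_or_odd k with hk | hk
        · have : Even j := by
            rcases hk with ⟨r, hr⟩
            exact ⟨b - r, by omega⟩
          rw [hk.neg_one_pow, this.neg_one_pow]
        · have : Odd j := by
            rcases hk with ⟨r, hr⟩
            exact ⟨b - r - 1, by omega⟩
          rw [hk.neg_one_pow, this.neg_one_pow]
      by_cases h5 : 2 * b ≤ k + l
      · rw [if_pos ⟨by omega, by omega⟩, if_pos h5, h3, h4, show l - j = k + l - 2 * b by omega]
      · rw [if_neg (by omega), if_neg h5, mul_zero]
    · rw [if_neg (by omega), if_neg h2, mul_zero]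
  rw [sum_congr rfl h1]
  by_cases hk : k ≤ 2 * b
  · rw [sum_eq_single (2 * b - k)]
    · rw [if_pos (by omega)]
    · intro j _ hj
      rw [if_neg (by omega)]
    · intro h
      rw [mem_range] at h
      omega
  · rw [sum_eq_zero, Nat.choose_eq_zero_of_lt (by omega)]
    · simp
    · intro j _
      rw [if_neg (by omega)]

lemma Fm_mul_base (b : ℕ) (P : A) (k : ℕ) :
    co (Fm (2 * b) * P) (wordX [k]) = if k = 2 * b then co P [] else 0 := by
  unfold Fm
  rw [Finset.sum_mul, co_sum, sum_eq_single 0]
  · rw [smul_mul_assoc, co_smul, term_base]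
    simp only [Nat.sub_zero, pow_zero, Nat.choose_zero_right, Nat.cast_one, mul_one, one_mul, and_true]
    by_cases h : k = 2 * b
    · rw [if_pos h, if_pos h.symm]
    · rw [if_neg h, if_neg (Ne.symm h)]
  · intro j _ hj
    rw [smul_mul_assoc, co_smul, term_base, if_neg (by tauto), mul_zero]
  · intro h
    simp at h

lemma Fm_mul_nil (m : ℕ) (P : A) : co (Fm m * P) [] = 0 := by
  unfold Fm
  rw [Finset.sum_mul, co_sum]
  refine sum_eq_zero fun j _ => ?_
  rw [smul_mul_assoc, co_smul, co_wd_mul_ne, mul_zero]
  intro h
  have := List.prefix_nil.mp h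
  simp at this

/-! ### the derivation -/

lemma derW_zero (f : A) (v : List (Fin 2)) : derW f (0 :: v) = x 0 * derW f v := by
  show (if (0 : Fin 2) = 1 then x 1 * f - f * x 1 else 0) * wd v + x 0 * derW f v = _
  rw [if_neg (by decide), zero_mul, zero_add]

lemma derW_one (f : A) (v : List (Fin 2)) : derW f (1 :: v) =
    x 1 * (f * wd v + derW f v) - f * wd (1 :: v) := by
  show (if (1 : Fin 2) = 1 then x 1 * f - f * x 1 else 0) * wd v + x 1 * derW f v = _
  rw [if_pos rfl, wd_cons']
  noncomm_ring

lemma derW_nil' (m : ℕ) : ∀ v : List (Fin 2), co (derW (Fm m) v) [] = 0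
  | [] => co_zero _
  | i :: v => by
      fin_cases i
      · show co (derW (Fm m) (0 :: v)) [] = 0
        rw [derW_zero, co_x_nil]
      · show co (derW (Fm m) (1 :: v)) [] = 0
        rw [derW_one, co_sub, co_x_nil, Fm_mul_nil, sub_zero]

lemma wordX_zero (e : List ℕ) : wordX (0 :: e) = 1 :: wordX e := rfl

lemma wordX_succ (k : ℕ) (e : List ℕ) : wordX ((k + 1) :: e) = 0 :: wordX (k :: e) := rfl

lemma derW_base (b : ℕ) : ∀ (k : ℕ) (v : List (Fin 2)), co (derW (Fm (2 * b)) v) (wordX [k]) = 0
  | k, [] => co_zero _
  | 0, i :: v => by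
      fin_cases i
      · show co (derW (Fm (2 * b)) (0 :: v)) _ = 0
        rw [derW_zero, wordX_zero, co_x_mul_ne _ _ _ _ (by decide)]
      · show co (derW (Fm (2 * b)) (1 :: v)) _ = 0
        rw [derW_one, co_sub, Fm_mul_base, wd_cons', co_x_nil, wordX_zero, co_x_mul, co_add,
          show wordX [] = [] from rfl, Fm_mul_nil, derW_nil']
        simp
  | k + 1, i :: v => by
      fin_cases i
      · show co (derW (Fm (2 * b)) (0 :: v)) _ = 0
        rw [derW_zero, wordX_succ, co_x_mul]
        exact derW_base b k v
      · show co (derW (Fm (2 * b)) (1 :: v)) _ = 0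
        rw [derW_one, co_sub, Fm_mul_base, wd_cons', co_x_nil, wordX_succ,
          co_x_mul_ne _ _ _ _ (by decide)]
        simp

lemma cw_zero_one (v : List (Fin 2)) (e : List ℕ) : co (wd (1 :: v)) (wordX (0 :: e)) = co (wd v) (wordX e) := by
  rw [wd_cons', wordX_zero, co_x_mul]

lemma cw_zero_zero (v : List (Fin 2)) (e : List ℕ) : co (wd (0 :: v)) (wordX (0 :: e)) = 0 := by
  rw [wd_cons', wordX_zero, co_x_mul_ne _ _ _ _ (by decide)]

lemma cw_succ_one (v : List (Fin 2)) (k : ℕ) (e : List ℕ) : co (wd (1 :: v)) (wordX ((k + 1) :: e)) = 0 := by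
  rw [wd_cons', wordX_succ, co_x_mul_ne _ _ _ _ (by decide)]

lemma cw_succ_zero (v : List (Fin 2)) (k : ℕ) (e : List ℕ) :
    co (wd (0 :: v)) (wordX ((k + 1) :: e)) = co (wd v) (wordX (k :: e)) := by
  rw [wd_cons', wordX_succ, co_x_mul]

lemma cw_nil (k : ℕ) (e : List ℕ) : co (wd []) (wordX (k :: e)) = 0 := by
  rw [co_wd, if_neg]
  intro h
  have := congrArg List.length h
  rw [wordX_length] at this
  simp at this

lemma AR_zero (b : ℕ) : ∀ (e : List ℕ), AR b (fun _ => (0 : ℚ)) e = 0
  | [] => rfl
  | [k] => by
      unfold AR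
      simp
  | k :: l :: e => by
      unfold AR
      rw [AR_zero b (l :: e)]
      simp

/-- the formula for words -/
theorem step_wd (b : ℕ) : ∀ (e : List ℕ), e ≠ [] → ∀ v : List (Fin 2),
    co (Fm (2 * b) * wd v + derW (Fm (2 * b)) v) (wordX e) = AR b (fun e' => co (wd v) (wordX e')) e
  | [], h, _ => absurd rfl h
  | [k], _, v => by
      rw [co_add, Fm_mul_base, derW_base, add_zero]
      rfl
  | k :: l :: e, _, v => by
      have ih := step_wd b (l :: e) (by simp)
      have key : ∀ (k : ℕ) (v : List (Fin 2)), co (derW (Fm (2 * b)) v) (wordX (k :: l :: e)) =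
          AR b (fun e' => co (wd v) (wordX (k :: e'))) (l :: e) -
          if 2 * b ≤ k + l then ((-1) ^ l * ((2 * b).choose l : ℚ)) *
            co (wd v) (wordX ((k + l - 2 * b) :: e)) else 0 := by
        intro k
        induction k with
        | zero =>
          intro v
          rcases v with _ | ⟨i, v⟩
          · simp only [cw_nil, AR_zero]
            show co (0 : A) _ = _
            rw [co_zero]
            simp
          · fin_cases i
            · show co (derW (Fm (2 * b)) (0 :: v)) _ = AR b (fun e' => co (wd (0 :: v)) (wordX (0 :: e'))) (l :: e) -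
                if 2 * b ≤ 0 + l then ((-1) ^ l * ((2 * b).choose l : ℚ)) *
                co (wd (0 :: v)) (wordX ((0 + l - 2 * b) :: e)) else 0
              simp only [cw_zero_zero, AR_zero]
              rw [derW_zero, wordX_zero, co_x_mul_ne _ _ _ _ (by decide)]
              by_cases hl : 2 * b ≤ 0 + l
              · rw [if_pos hl]
                by_cases hl2 : l = 2 * b
                · rw [show 0 + l - 2 * b = 0 by omega, cw_zero_zero]
                  simp
                · rw [Nat.choose_eq_zero_of_lt (by omega)]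
                  simp
              · rw [if_neg hl, sub_zero]
            · show co (derW (Fm (2 * b)) (1 :: v)) _ = AR b (fun e' => co (wd (1 :: v)) (wordX (0 :: e'))) (l :: e) -
                if 2 * b ≤ 0 + l then ((-1) ^ l * ((2 * b).choose l : ℚ)) *
                co (wd (1 :: v)) (wordX ((0 + l - 2 * b) :: e)) else 0
              simp only [cw_zero_one]
              rw [derW_one, co_sub, Fm_mul, wordX_zero, co_x_mul, ih v]
              congr 1
              by_cases hl : 2 * b ≤ 0 + l
              · rw [if_pos hl, if_pos hl]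
                by_cases hl2 : l = 2 * b
                · rw [hl2]
                  simp
                · obtain ⟨j, hj⟩ : ∃ j, 0 + l - 2 * b = j + 1 := ⟨0 + l - 2 * b - 1, by omega⟩
                  rw [hj, cw_succ_one]
                  simp
              · rw [if_neg hl, if_neg hl]
        | succ k ihk =>
          intro v
          rcases v with _ | ⟨i, v⟩
          · simp only [cw_nil, AR_zero]
            show co (0 : A) _ = _
            rw [co_zero]
            simp
          · fin_cases i
            · show co (derW (Fm (2 * b)) (0 :: v)) _ =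
                AR b (fun e' => co (wd (0 :: v)) (wordX ((k + 1) :: e'))) (l :: e) -
                if 2 * b ≤ k + 1 + l then ((-1) ^ l * ((2 * b).choose l : ℚ)) *
                co (wd (0 :: v)) (wordX ((k + 1 + l - 2 * b) :: e)) else 0
              simp only [cw_succ_zero]
              rw [derW_zero, wordX_succ, co_x_mul, ihk v]
              congr 1
              by_cases hl : 2 * b ≤ k + l
              · rw [if_pos hl, if_pos (show 2 * b ≤ k + 1 + l by omega),
                  show k + 1 + l - 2 * b = (k + l - 2 * b) + 1 by omega, cw_succ_zero]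
              · rw [if_neg hl]
                by_cases hl2 : 2 * b ≤ k + 1 + l
                · rw [if_pos hl2, show k + 1 + l - 2 * b = 0 by omega, cw_zero_zero, mul_zero]
                · rw [if_neg hl2]
            · show co (derW (Fm (2 * b)) (1 :: v)) _ =
                AR b (fun e' => co (wd (1 :: v)) (wordX ((k + 1) :: e'))) (l :: e) -
                if 2 * b ≤ k + 1 + l then ((-1) ^ l * ((2 * b).choose l : ℚ)) *
                co (wd (1 :: v)) (wordX ((k + 1 + l - 2 * b) :: e)) else 0
              simp only [cw_succ_one, AR_zero]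
              rw [derW_one, co_sub, Fm_mul, wordX_succ, co_x_mul_ne _ _ _ _ (by decide)]
              congr 1
              by_cases hl : 2 * b ≤ k + 1 + l
              · rw [if_pos hl, if_pos hl]
                by_cases hl2 : k + 1 + l = 2 * b
                · have h3 : (2 * b).choose (k + 1) = (2 * b).choose l := by
                    rw [← Nat.choose_symm (show l ≤ 2 * b by omega)]
                    congr 1
                    omega
                  have h4 : ((-1 : ℚ)) ^ (k + 1) = (-1) ^ l := by
                    rcases Nat.even_or_odd l with hk | hk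
                    · have : Even (k + 1) := by
                        rcases hk with ⟨r, hr⟩
                        exact ⟨b - r, by omega⟩
                      rw [hk.neg_one_pow, this.neg_one_pow]
                    · have : Odd (k + 1) := by
                        rcases hk with ⟨r, hr⟩
                        exact ⟨b - r - 1, by omega⟩
                      rw [hk.neg_one_pow, this.neg_one_pow]
                  rw [h3, h4]
                · obtain ⟨j, hj⟩ : ∃ j, k + 1 + l - 2 * b = j + 1 := ⟨k + 1 + l - 2 * b - 1, by omega⟩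
                  rw [hj, cw_succ_one, mul_zero, mul_zero]
              · rw [if_neg hl, if_neg hl]
      have hA : AR b (fun e' => co (wd v) (wordX e')) (k :: l :: e) =
        AR b (fun e' => co (wd v) (wordX (k :: e'))) (l :: e) +
        if 2 * b ≤ k + l then
        ((-1) ^ k * ((2 * b).choose k : ℚ) - (-1) ^ l * ((2 * b).choose l : ℚ)) *
          co (wd v) (wordX ((k + l - 2 * b) :: e))
        else 0 := rfl
      rw [co_add, key k v, Fm_mul, hA]
      split_ifs <;> ring

end Pool.Agent.N568.DSF
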