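import Pool.Agent.N568.BK.DS1

/-!
# Elements of the free Lie algebra whose weights are `2 p^e + 1` (helper568)
-/

set_option autoImplicit false

namespace Pool.Agent.N568.DSF

open Finset Pool.Agent.H777R4.DM
open Pool.Agent.N568.BK (AR cR cR_rat)

attribute [local instance 100] LieRing.ofAssociativeRing

lemma AR_add (b : ℕ) : ∀ (e : List ℕ) (g g' : List ℕ → ℚ),
    AR b (fun e => g e + g' e) e = AR b g e + AR b g' e
  | [], _, _ => by
      unfold AR
      simp
  | [k], g, g' => by
      unfold AR
      split_ifs <;> simp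
  | k :: l :: e, g, g' => by
      unfold AR
      rw [AR_add b (l :: e)]
      split_ifs <;> ring

lemma AR_smul (b : ℕ) (t : ℚ) : ∀ (e : List ℕ) (g : List ℕ → ℚ),
    AR b (fun e => t * g e) e = t * AR b g e
  | [], _ => by
      unfold AR
      simp
  | [k], g => by
      unfold AR
      split_ifs <;> simp
  | k :: l :: e, g => by
      unfold AR
      rw [AR_smul b t (l :: e)]
      split_ifs <;> ring

lemma AR_congr (b : ℕ) : ∀ (e : List ℕ) (g g' : List ℕ → ℚ),
    (∀ e', e'.length + 1 = e.length → g e' = g' e') → AR b g e = AR b g' e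
  | [], _, _, _ => rfl
  | [k], g, g', h => by
      unfold AR
      rw [h [] rfl]
  | k :: l :: e, g, g', h => by
      unfold AR
      rw [AR_congr b (l :: e) (fun e' => g (k :: e')) (fun e' => g' (k :: e')) (fun e' he' => h _ (by
        simp only [List.length_cons] at he' ⊢
        omega)), h _ (by simp)]

lemma s_wd (f : A) (v : List (Fin 2)) : s f (wd v) = f * wd v + derW f v := by
  show f * wd v + der f (wd v) = _
  unfold der
  rw [lext_wd]

/-- the formula -/
theorem step_s (b : ℕ) (e : List ℕ) (he : e ≠ []) (g : A) :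
    co (s (Fm (2 * b)) g) (wordX e) = AR b (fun e' => co g (wordX e')) e := by
  induction g using al_induction with
  | h1 v => rw [s_wd, step_wd b e he v]
  | h2 P Q hP hQ =>
    rw [map_add, co_add, hP, hQ]
    simp only [co_add]
    rw [AR_add]
  | h3 c P hP =>
    rw [map_smul, co_smul, hP]
    simp only [co_smul]
    rw [AR_smul]

/-- all words of `P` contain at least `n` letters `x₁` -/
def Dp (n : ℕ) (P : A) : Prop := ∀ u, co P u ≠ 0 → n ≤ u.count 1

lemma Dp.mul {a b : ℕ} {P Q : A} (hP : Dp a P) (hQ : Dp b Q) : Dp (a + b) (P * Q) := by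
  intro u hu
  obtain ⟨v, w, rfl, h1, h2⟩ := Lead2.co_mul_ne hu
  rw [List.count_append]
  have := hP v h1
  have := hQ w h2
  omega

lemma Dp.add {a : ℕ} {P Q : A} (hP : Dp a P) (hQ : Dp a Q) : Dp a (P + Q) := by
  intro u hu
  rw [co_add] at hu
  by_cases h : co P u = 0
  · exact hQ u (by rw [h, zero_add] at hu; exact hu)
  · exact hP u h

lemma Dp.sub {a : ℕ} {P Q : A} (hP : Dp a P) (hQ : Dp a Q) : Dp a (P - Q) := by
  intro u hu
  rw [co_sub] at hu
  by_cases h : co P u = 0
  · exact hQ u (by rw [h, zero_sub] at hu; exact neg_ne_zero.mp hu)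
  · exact hP u h

lemma Dp.mono {a b : ℕ} {P : A} (hP : Dp a P) (h : b ≤ a) : Dp b P := fun u hu => h.trans (hP u hu)

lemma Dp.wd (v : List (Fin 2)) : Dp (v.count 1) (Pool.Agent.H777R4.DM.wd v) := by
  intro u hu
  rw [co_wd] at hu
  split_ifs at hu with h
  · rw [h]
  · exact absurd rfl hu

lemma Dp.zero (a : ℕ) : Dp a (0 : A) := fun u hu => absurd (co_zero u) hu

lemma derW_count {f : A} {c : ℕ} (hf : Dp c f) : ∀ v : List (Fin 2), Dp (v.count 1 + c) (derW f v)
  | [] => by
      show Dp _ (0 : A)
      exact Dp.zero _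
  | i :: v => by
      fin_cases i
      · show Dp (List.count 1 ((0 : Fin 2) :: v) + c) (derW f (0 :: v))
        rw [derW_zero, List.count_cons_of_ne (by decide)]
        exact ((Dp.wd [0]).mul (derW_count hf v)).mono (by simp)
      · show Dp (List.count 1 ((1 : Fin 2) :: v) + c) (derW f (1 :: v))
        rw [derW_one, List.count_cons_self]
        refine Dp.sub ?_ ?_
        · refine ((Dp.wd [1]).mul (((hf.mul (Dp.wd v)).mono (show v.count 1 + c ≤ c + v.count 1 by omega)).add
            (derW_count hf v))).mono ?_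
          have : ([1] : List (Fin 2)).count 1 = 1 := rfl
          omega
        · refine (hf.mul (Dp.wd (1 :: v))).mono ?_
          rw [List.count_cons_self]
          omega

lemma s_count {f g : A} {c d : ℕ} (hf : Dp c f) (hg : Dp d g) : Dp (d + c) (s f g) := by
  have h : s f g = ∑ m ∈ g.coeff.support, co g (FreeMonoid.toList m) • s f (wd (FreeMonoid.toList m)) := by
    conv_lhs => rw [Lead2.expand g]
    rw [map_sum]
    exact sum_congr rfl fun m _ => by rw [map_smul]
  intro u hu
  rw [h, Lead2.co_sum] at hu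
  obtain ⟨m, _, hm⟩ := exists_ne_zero_of_sum_ne_zero hu
  rw [co_smul] at hm
  have h1 := hg _ (left_ne_zero_of_mul hm)
  have h2 := right_ne_zero_of_mul hm
  rw [s_wd] at h2
  have h3 := (((hf.mul (Dp.wd (FreeMonoid.toList m))).mono
    (show (FreeMonoid.toList m).count 1 + c ≤ c + (FreeMonoid.toList m).count 1 by omega)).add
    (derW_count hf (FreeMonoid.toList m))) u h2
  omega

/-! ### the depth one part of Lie elements -/

lemma co_wdN_mul (k : ℕ) (P : AY) (l : List ℕ) (h : ∀ t, l ≠ k :: t) : co (wd [k] * P) l = 0 := by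
  induction P using al_induction with
  | h1 v =>
    rw [wd_mul, co_wd, if_neg]
    intro h1
    exact h v h1.symm
  | h2 P Q hP hQ => rw [mul_add, co_add, hP, hQ, add_zero]
  | h3 c P hP => rw [mul_smul_comm, co_smul, hP, mul_zero]

lemma co_wdN_mul' (k : ℕ) (P : AY) (l : List ℕ) : co (wd [k] * P) (k :: l) = co P l := by
  induction P using al_induction with
  | h1 v =>
    rw [wd_mul, co_wd, co_wd]
    simp
  | h2 P Q hP hQ => rw [mul_add, co_add, co_add, hP, hQ]
  | h3 c P hP => rw [mul_smul_comm, co_smul, co_smul, hP]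

lemma dlW_nil : ∀ v : List ℕ, co (dlW v) [] = 0
  | [] => co_zero _
  | k :: v => by
      unfold dlW
      rw [co_add, co_smul, co_wd, if_neg (by simp), co_wdN_mul _ _ _ (by simp)]
      simp

lemma dlW_one (a : ℕ) : ∀ v : List ℕ, co (dlW v) [a] = ((a : ℚ) + 1) * co (wd v) [a + 1]
  | [] => by
      rw [co_wd, if_neg (by simp), mul_zero]
      exact co_zero _
  | k :: v => by
      unfold dlW
      rw [co_add, co_smul, co_wd, co_wd]
      have h1 : co (wd [k] * dlW v) [a] = 0 := by
        by_cases h : k = a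
        · subst h
          rw [co_wdN_mul', dlW_nil]
        · refine co_wdN_mul _ _ _ ?_
          intro t ht
          rw [List.cons.injEq] at ht
          exact h ht.1.symm
      rw [h1, add_zero]
      by_cases h : k = a + 1 ∧ v = []
      · obtain ⟨rfl, rfl⟩ := h
        simp
      · rw [if_neg (show ¬ k :: v = [a + 1] by
          intro h2
          rw [List.cons.injEq] at h2
          exact h h2), mul_zero]
        by_cases h3 : k = 0
        · rw [h3]
          simp
        · rw [if_neg, mul_zero]
          intro h2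
          rw [List.cons.injEq] at h2
          exact h ⟨by omega, h2.2⟩

lemma co_dl_nil (Q : AY) : co (dl Q) [] = 0 := by
  induction Q using al_induction with
  | h1 v =>
    unfold dl
    rw [lext_wd, dlW_nil]
  | h2 P Q hP hQ => rw [map_add, co_add, hP, hQ, add_zero]
  | h3 c P hP => rw [map_smul, co_smul, hP, mul_zero]

lemma co_dl_one (a : ℕ) (Q : AY) : co (dl Q) [a] = ((a : ℚ) + 1) * co Q [a + 1] := by
  induction Q using al_induction with
  | h1 v =>
    unfold dl
    rw [lext_wd, dlW_one]
  | h2 P Q hP hQ => rw [map_add, co_add, hP, hQ, co_add]; ring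
  | h3 c P hP => rw [map_smul, co_smul, hP, co_smul]; ring

lemma lie_zero {ψ : A} (hψ : ψ ∈ LieX) (h0 : co ψ [0] = 0) (k : ℕ) :
    co ψ (List.replicate (k + 1) 0) = 0 := by
  have h := congrArg (fun Q => co Q []) (R0.taskR0 ψ hψ h0 k)
  rw [co_smul, co_neg, co_dl_nil, neg_zero, co_run] at h
  have h1 : ((k : ℚ) + 1) ≠ 0 := by positivity
  have h2 := (mul_eq_zero.mp h).resolve_left h1
  exact h2

lemma lie_one {ψ : A} (hψ : ψ ∈ LieX) (h0 : co ψ [0] = 0) : ∀ (k a : ℕ),
    co ψ (wordX [a] ++ List.replicate k 0) = (-1) ^ k * ((a + k).choose k : ℚ) * co ψ (wordX [a + k])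
  | 0, a => by simp
  | k + 1, a => by
      have h := congrArg (fun Q => co Q [a]) (R0.taskR0 ψ hψ h0 k)
      rw [co_smul, co_neg, co_dl_one, co_run, co_run, lie_one hψ h0 k (a + 1)] at h
      have h1 : ((k : ℚ) + 1) ≠ 0 := by positivity
      apply mul_left_cancel₀ h1
      rw [h, show a + 1 + k = a + (k + 1) by omega]
      have h2 : ((a + (k + 1)).choose k : ℚ) * ((a : ℚ) + 1) = ((a + (k + 1)).choose (k + 1) : ℚ) * ((k : ℚ) + 1) := by
        have h3 := Nat.choose_succ_right_eq (a + (k + 1)) k
        have h4 : a + (k + 1) - k = a + 1 := by omega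
        rw [h4] at h3
        exact_mod_cast h3.symm
      rw [pow_succ]
      linear_combination (-(-1 : ℚ) ^ k * co ψ (wordX [a + (k + 1)])) * h2

lemma co_Fm (m a k : ℕ) : co (Fm m) (wordX [a] ++ List.replicate k 0) =
    if a + k = m then (-1) ^ k * ((a + k).choose k : ℚ) else 0 := by
  unfold Fm
  rw [co_sum]
  have h1 : wordX [a] ++ List.replicate k 0 = List.replicate a (0 : Fin 2) ++ 1 :: List.replicate k 0 := by
    simp [wordX]
  rw [h1]
  split_ifs with h
  · rw [sum_eq_single k]
    · rw [co_smul, co_wd, if_pos (by rw [show m - k = a by omega]), mul_one, h]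
    · intro j hj hjk
      rw [co_smul, co_wd, if_neg, mul_zero]
      intro h2
      obtain ⟨_, h3⟩ := rep_eq _ _ _ _ h2
      have h4 := congrArg List.length h3
      simp at h4
      exact hjk h4
    · intro h2
      rw [mem_range] at h2
      omega
  · refine sum_eq_zero fun j hj => ?_
    rw [mem_range] at hj
    rw [co_smul, co_wd, if_neg, mul_zero]
    intro h2
    obtain ⟨h5, h3⟩ := rep_eq _ _ _ _ h2
    have h4 := congrArg List.length h3
    simp at h4
    omega

lemma Fm_count (m : ℕ) : Dp 1 (Fm m) := by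
  intro u hu
  unfold Fm at hu
  rw [co_sum] at hu
  obtain ⟨j, _, hj⟩ := exists_ne_zero_of_sum_ne_zero hu
  rw [co_smul] at hj
  have := Dp.wd _ _ (right_ne_zero_of_mul hj)
  rw [List.count_append, List.count_cons_self] at this
  omega

/-- an element of the free Lie algebra of weight `m + 1` is a multiple of `(ad x₀)^m x₁` modulo depth two -/
theorem lie_split {ψ : A} (hψ : ψ ∈ LieX) (m : ℕ) (hm : 1 ≤ m) (hhom : ∀ u, co ψ u ≠ 0 → u.length = m + 1) :
    Dp 2 (ψ - co ψ (wordX [m]) • Fm m) := by
  have h0 : co ψ [0] = 0 := by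
    by_contra h
    have := hhom _ h
    simp at this
    omega
  intro u hu
  by_contra hc
  apply hu
  have hu1 := wordX_strip u
  rw [← hu1, word_count] at hc
  rw [← hu1]
  generalize (strip u).1 = v at *
  generalize (strip u).2 = k at *
  rcases v with _ | ⟨a, v⟩
  · rw [co_sub, co_smul]
    have h1 : co ψ (wordX [] ++ List.replicate k 0) = 0 := by
      show co ψ (List.replicate k 0) = 0
      rcases k with _ | k
      · by_contra h
        have := hhom _ h
        simp at this
      · exact lie_zero hψ h0 k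
    have h2 : co (Fm m) (wordX [] ++ List.replicate k 0) = 0 := by
      by_contra h
      have := Fm_count m _ h
      rw [word_count] at this
      simp at this
    rw [h1, h2]
    simp
  · rcases v with _ | ⟨a', v⟩
    · rw [co_sub, co_smul, co_Fm, lie_one hψ h0]
      by_cases h : a + k = m
      · rw [if_pos h, h]
        ring
      · rw [if_neg h]
        have h1 : co ψ (wordX [a + k]) = 0 := by
          by_contra h2
          have := hhom _ h2
          rw [wordX_length] at this
          simp at this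
          omega
        rw [h1]
        simp
    · simp at hc

/-- the action on the lowest depth part -/
theorem step_psi {ψ : A} (b : ℕ) (hb : 1 ≤ b) (hψ : ψ ∈ LieX)
    (hhom : ∀ u, co ψ u ≠ 0 → u.length = 2 * b + 1) (g : A) (d : ℕ) (hg : Dp d g) (e : List ℕ)
    (he : e.length = d + 1) :
    co (s ψ g) (wordX e) = co ψ (wordX [2 * b]) * AR b (fun e' => co g (wordX e')) e := by
  have h1 := lie_split hψ (2 * b) (by omega) hhom
  set κ := co ψ (wordX [2 * b])
  have h2 : ψ = κ • Fm (2 * b) + (ψ - κ • Fm (2 * b)) := by abel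
  have h3 : s ψ g = κ • s (Fm (2 * b)) g + s (ψ - κ • Fm (2 * b)) g := by
    conv_lhs => rw [h2]
    rw [H851R3.DSH.s_add, H851R3.DSH.s_smul]
    rfl
  rw [h3, co_add, co_smul, step_s b e (by rintro rfl; simp at he) g]
  have h4 : co (s (ψ - κ • Fm (2 * b)) g) (wordX e) = 0 := by
    by_contra h
    have := s_count h1 hg _ h
    rw [wordX_count] at this
    omega
  rw [h4, add_zero]

lemma Dp_psi {ψ : A} (b : ℕ) (hb : 1 ≤ b) (hψ : ψ ∈ LieX)
    (hhom : ∀ u, co ψ u ≠ 0 → u.length = 2 * b + 1) : Dp 1 ψ := by
  have h1 := lie_split hψ (2 * b) (by omega) hhom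
  have h2 : ψ = co ψ (wordX [2 * b]) • Fm (2 * b) + (ψ - co ψ (wordX [2 * b]) • Fm (2 * b)) := by abel
  rw [h2]
  refine Dp.add ?_ (h1.mono (by omega))
  intro u hu
  rw [co_smul] at hu
  exact Fm_count _ u (right_ne_zero_of_mul hu)

end Pool.Agent.N568.DSF
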