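import Pool.Agent.N568.BK.DS2

/-!
# Freeness for weights `2 p^e + 1` (helper568)
-/

set_option autoImplicit false

namespace Pool.Agent.N568.DSF

open Finset Pool.Agent.H777R4.DM
open Pool.Agent.N568.BK (AR cR cR_rat)
open Pool.Agent.H861R3.DM.LeadN (evN PhiN_wd)

attribute [local instance 100] LieRing.ofAssociativeRing

section

variable {n : ℕ} (ψ : Fin n → A) (b : Fin n → ℕ) (hb : ∀ i, 1 ≤ b i) (hL : ∀ i, ψ i ∈ LieX)
  (hhom : ∀ i u, co (ψ i) u ≠ 0 → u.length = 2 * b i + 1)

include hb hL hhom

lemma evN_Dp : ∀ W : List (Fin n), Dp W.length (evN ψ W)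
  | [] => fun u _ => by simp
  | i :: W => by
      have := s_count (Dp_psi (b i) (hb i) (hL i) (hhom i)) (evN_Dp W)
      exact this

lemma evN_eq : ∀ (W : List (Fin n)) (e : List ℕ), e.length = W.length →
    co (evN ψ W) (wordX e) = (W.map fun i => co (ψ i) (wordX [2 * b i])).prod *
      cR ℚ (W.map b) e
  | [], e, he => by
      have : e = [] := by simpa using he
      subst this
      show co (1 : A) [] = _
      rw [← Lead2.wd_nil, co_wd]
      simp [cR]
  | i :: W, e, he => by
      have h1 : evN ψ (i :: W) = s (ψ i) (evN ψ W) := rfl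
      rw [h1, step_psi (b i) (hb i) (hL i) (hhom i) (evN ψ W) W.length
        (evN_Dp ψ b hb hL hhom W) e (by simpa using he)]
      rw [AR_congr (b i) e (fun e' => co (evN ψ W) (wordX e'))
        (fun e' => (W.map fun i => co (ψ i) (wordX [2 * b i])).prod * cR ℚ (W.map b) e') (fun e' he' => by
          exact evN_eq W e' (by rw [he] at he'; simpa using he')), AR_smul]
      rw [List.map_cons, List.prod_cons, List.map_cons]
      show _ = _ * AR (b i) (cR ℚ (W.map b)) e
      ring

end

/-- **Main theorem.** -/
theorem main (p : ℕ) (hpp : p.Prime) (hp : 5 ≤ p) (n : ℕ) (ex : Fin n → ℕ) (hex : Function.Injective ex)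
    (ψ : Fin n → A) (hL : ∀ i, ψ i ∈ LieX)
    (hhom : ∀ i u, co (ψ i) u ≠ 0 → u.length = 2 * p ^ ex i + 1)
    (hne : ∀ i, co (ψ i) (wordX [2 * p ^ ex i]) ≠ 0) : Function.Injective (PhiN ψ) := by
  classical
  have : Fact p.Prime := ⟨hpp⟩
  set b : Fin n → ℕ := fun i => p ^ ex i with hbdef
  have hb : ∀ i, 1 ≤ b i := fun i => Nat.one_le_pow _ _ hpp.pos
  have hbinj : Function.Injective b := fun i j h => hex (Nat.pow_right_injective hpp.two_le h)
  rw [← LinearMap.ker_eq_bot, LinearMap.ker_eq_bot']
  intro P hP
  -- all coefficients vanish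
  suffices h : ∀ r : ℕ, ∀ W : List (Fin n), W.length = r → co P W = 0 by
    exact al_ext fun W => by rw [h W.length W rfl, co_zero]
  intro r
  induction r using Nat.strong_induction_on with
  | _ r ih =>
  intro W0 hW0
  set κ : List (Fin n) → ℚ := fun W => (W.map fun i => co (ψ i) (wordX [2 * b i])).prod with hκ
  have hκ0 : ∀ W, κ W ≠ 0 := by
    intro W
    rw [hκ]
    simp only
    apply List.prod_ne_zero
    intro h
    rw [List.mem_map] at h
    obtain ⟨i, _, hi⟩ := h
    exact hne i hi
  set S : Finset (List (Fin n)) := (P.coeff.support.image FreeMonoid.toList).filter fun W => W.length = r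
    with hS
  -- the coefficients of `PhiN ψ P`
  have hsum : ∀ e : List ℕ, e.length = r → ∑ W ∈ S, co P W * κ W * cR ℚ (W.map b) e = 0 := by
    intro e he
    have h1 : co (PhiN ψ P) (wordX e) = 0 := by rw [hP, co_zero]
    rw [Lead2.expand P, map_sum, Lead2.co_sum] at h1
    rw [← h1, hS, sum_filter, sum_image (fun x _ y _ h => FreeMonoid.toList.injective h)]
    refine sum_congr rfl fun m hm => ?_
    rw [map_smul, co_smul, PhiN_wd]
    by_cases h2 : (FreeMonoid.toList m).length = r
    · rw [if_pos h2, evN_eq ψ b hb hL hhom (FreeMonoid.toList m) e (by rw [he, h2])]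
      ring
    · rw [if_neg h2]
      rcases Nat.lt_or_gt_of_ne h2 with h3 | h3
      · rw [ih _ h3 _ rfl, zero_mul]
      · have h4 : co (evN ψ (FreeMonoid.toList m)) (wordX e) = 0 := by
          by_contra h5
          have := evN_Dp ψ b hb hL hhom _ _ h5
          rw [wordX_count, he] at this
          omega
        rw [h4, mul_zero]
  by_cases hmem : W0 ∈ S
  · rcases r with _ | d
    · have h1 : W0 = [] := List.length_eq_zero_iff.mp hW0
      have h2 : ∀ W ∈ S, W = [] := by
        intro W hW
        rw [hS, mem_filter] at hW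
        exact List.length_eq_zero_iff.mp hW.2
      have h3 := hsum [] rfl
      have h4 : S = {[]} := by
        ext W
        rw [mem_singleton]
        exact ⟨h2 W, fun h => by rw [h, ← h1]; exact hmem⟩
      rw [h4, sum_singleton] at h3
      rw [h1]
      simpa [κ, cR] using h3
    · set lam : List ℕ → ℚ := fun w => ∑ W ∈ S, if W.map b = w then co P W * κ W else 0 with hlam
      have h1 := Pool.Agent.N568.BK.indep_c p hp d (S.image (List.map b)) (by
        intro w hw
        rw [mem_image] at hw
        obtain ⟨W, hW, rfl⟩ := hw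
        rw [hS, mem_filter] at hW
        refine ⟨by rw [List.length_map]; exact hW.2, ?_⟩
        intro x hx
        rw [List.mem_map] at hx
        obtain ⟨i, _, rfl⟩ := hx
        exact ⟨ex i, rfl⟩) lam (by
        intro w hw
        rw [mem_image] at hw
        obtain ⟨W1, hW1, rfl⟩ := hw
        rw [hS, mem_filter] at hW1
        have h2 := hsum (Pool.Agent.N568.BK.mon (W1.map b)) (by
          rw [Pool.Agent.N568.BK.mon_length, List.length_map]
          exact hW1.2)
        rw [← h2, sum_image (fun x _ y _ h => List.map_injective_iff.mpr hbinj h)]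
        refine sum_congr rfl fun W hW => ?_
        rw [← cR_rat]
        congr 1
        rw [hlam]
        simp only
        rw [sum_eq_single W]
        · rw [if_pos rfl]
        · intro W' _ hne'
          rw [if_neg]
          exact fun h => hne' (List.map_injective_iff.mpr hbinj h)
        · exact fun h => absurd hW h)
      have h2 := h1 (W0.map b) (mem_image_of_mem _ hmem)
      rw [hlam] at h2
      simp only at h2
      rw [sum_eq_single W0] at h2
      · rw [if_pos rfl] at h2
        exact (mul_eq_zero.mp h2).resolve_right (hκ0 W0)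
      · intro W' _ hne'
        rw [if_neg]
        exact fun h => hne' (List.map_injective_iff.mpr hbinj h)
      · exact fun h => absurd hmem h
  · by_contra h
    apply hmem
    rw [hS, mem_filter]
    refine ⟨?_, hW0⟩
    rw [mem_image]
    refine ⟨FreeMonoid.ofList W0, ?_, rfl⟩
    rw [Finsupp.mem_support_iff]
    exact h

end Pool.Agent.N568.DSF
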