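import Pool.Agent.N568.BK.Asm

/-!
# The dimension of the space of the iterated brackets (helper568)
-/

set_option autoImplicit false

namespace Pool.Agent.N568.BK

open Finset

/-- the row of the multiplier times the power of the innermost letter -/
def R0 (b : List ℕ) : List ℕ → ℚ
  | [] => 0
  | k :: e => if 2 * la b ≤ k then q b.dropLast ((k - 2 * la b) :: e) else 0

lemma P_R0 (K : ℕ) (b : List ℕ) (t : ℚ) (zs : List ℚ) (hlen : zs.length = b.dropLast.length)
    (hK : 2 * la b + 2 * b.dropLast.sum < K) :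
    P K (R0 b) (t :: zs) = t ^ (2 * la b) * qf b.dropLast (vec (t :: zs)) := by
  set u := b.dropLast with hu
  set β := la b with hβ
  rw [qf_eq u K _ (by omega)]
  have h1 : tl (u.length + 1) (vec (t :: zs)) = t :: zs := by
    rw [← hlen]
    exact tl_vec (t :: zs)
  rw [h1]
  set h : ℕ → ℚ := fun m => P K (fun e => q u (m :: e)) zs with hh
  have hh0 : ∀ m, K ≤ m + 2 * β → h m = 0 := by
    intro m hm
    have h6 : (fun e => q u (m :: e)) = fun _ => 0 := by
      funext e
      apply q_deg
      rw [List.sum_cons]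
      omega
    simp only [hh]
    rw [h6, P_zero]
  have e2 : P K (q u) (t :: zs) = ∑ m ∈ range K, t ^ m * h m := by
    conv_lhs => unfold P
  rw [e2, ← shift_sum (2 * β) K h hh0 t]
  conv_lhs => unfold P
  refine sum_congr rfl fun k _ => ?_
  by_cases hk : 2 * β ≤ k
  · rw [if_pos hk]
    have h2 : (fun e => R0 b (k :: e)) = fun e => q u ((k - 2 * β) :: e) := by
      funext e
      show (if 2 * la b ≤ k then q b.dropLast ((k - 2 * la b) :: e) else 0) = _
      rw [if_pos hk]
    rw [h2]
    ring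
  · rw [if_neg hk]
    have h2 : (fun e => R0 b (k :: e)) = fun e => 0 := by
      funext e
      show (if 2 * la b ≤ k then q b.dropLast ((k - 2 * la b) :: e) else 0) = _
      rw [if_neg hk]
    rw [h2, P_zero]
    ring

theorem indepZ (d n B : ℕ) (F : Finset (List ℕ)) (lam : List ℕ → ℚ) (hF : Fam (d + 2) n F)
    (hB : ∀ b ∈ F, B ≤ la b) (hBn : B ≤ n) (hcond : (d + 2) * (2 * (n - B) + 1) < 2 * B)
    (h : ∀ y, ∑ b ∈ F, lam b * Z (la b) b.dropLast y = 0) : ∀ b ∈ F, lam b = 0 := by
  classical
  have hform : ∀ b ∈ F, b.dropLast.length = d + 1 ∧ b.dropLast.sum + la b = n := by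
    intro b hb
    obtain ⟨h1, h2, -, -⟩ := hF b hb
    have hb1 : b ≠ [] := by
      rintro rfl
      simp at h1
    have h5 := split hb1
    refine ⟨?_, ?_⟩
    · rw [List.length_dropLast, h1]
      omega
    · rw [← h2]
      conv_rhs => rw [h5]
      rw [List.sum_append]
      simp
  refine tri d R0 0 (by omega) ⟨0, rfl⟩ (fun _ => 1) (fun _ _ => one_ne_zero) ?_ (indT d) n F lam hF ?_
  · intro β u e k _ _ _
    show (if 2 * la (u ++ [β]) ≤ k then q (u ++ [β]).dropLast ((k - 2 * la (u ++ [β])) :: e) else 0) = _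
    rw [la_concat, List.dropLast_concat, Nat.sub_zero, one_mul]
  -- the coefficients vanish
  choose imp himp hZ using Z_dec
  set K := 2 * n + 1 with hK
  have hgen : ∀ ys : List ℚ, ys.length = d + 2 → ys.Nodup → (∀ y ∈ ys, y ∉ ({0} : Finset ℚ)) →
      P K (fun e => ∑ b ∈ F, lam b * R0 b e) ys = 0 := by
    intro ys hys hnd hS
    rcases ys with _ | ⟨t0, zs⟩
    · simp at hys
    have hzs : zs.length = d + 1 := by simpa using hys
    rw [List.nodup_cons] at hnd
    have hz0 : (0 : ℚ) ∉ zs := by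
      intro h0
      exact hS 0 (List.mem_cons_of_mem _ h0) (by simp)
    -- sums of `P`
    have hPs : ∀ (F' : Finset (List ℕ)) (ys : List ℚ), P K (fun e => ∑ b ∈ F', lam b * R0 b e) ys =
        ∑ b ∈ F', lam b * P K (R0 b) ys := by
      intro F' ys
      induction F' using Finset.induction_on with
      | empty => simp [P_zero]
      | insert a s ha ih =>
        have h4 : (fun e : List ℕ => ∑ b ∈ insert a s, lam b * R0 b e) =
            fun e => (fun e => lam a * R0 a e) e + (fun e => ∑ b ∈ s, lam b * R0 b e) e := by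
          funext e
          rw [sum_insert ha]
        rw [h4, P_add, ih, P_smul, sum_insert ha]
    -- the polynomials
    have hline : ∀ b : List ℕ, ∃ g : Polynomial ℚ, g.natDegree ≤ 2 * b.dropLast.sum ∧
        ∀ t, qf b.dropLast (vec (t :: zs)) = g.eval t := by
      intro b
      obtain ⟨g, hg, h1⟩ := qf_LD b.dropLast (vec (0 :: zs)) (fun i => if i = 0 then 1 else 0)
      refine ⟨g, hg, fun t => ?_⟩
      rw [← h1, vec_line]
    choose g hg hg' using hline
    have hI : ∀ b : List ℕ, ∃ (H0 : Polynomial ℚ) (G : ℚ → Polynomial ℚ), b ∈ F →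
        H0.natDegree ≤ 2 * b.dropLast.sum ∧
        (∀ ρ ∈ zs, (Polynomial.X - Polynomial.C ρ) ^ (2 * la b) ∣ G ρ ∧
          (G ρ).natDegree ≤ 2 * la b + 2 * b.dropLast.sum) ∧
        ∀ t : ℚ, imp (la b) b.dropLast (vec (t :: zs)) = (H0 + (zs.map G).sum).eval t := by
      intro b
      by_cases hb : b ∈ F
      · have h1 := himp (la b) b.dropLast
        rw [(hform b hb).1, ← hzs] at h1
        obtain ⟨H0, G, h2, h3, h4⟩ := imp_line zs hnd.2 h1
        exact ⟨H0, G, fun _ => ⟨h2, h3, h4⟩⟩
      · exact ⟨0, fun _ => 0, fun h => absurd h hb⟩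
    choose H0 G hHG using hI
    set g0 : Polynomial ℚ := ∑ b ∈ F, Polynomial.C (lam b) * (Polynomial.X ^ (2 * la b) * g b) with hg0
    set H : Polynomial ℚ := ∑ b ∈ F, Polynomial.C (lam b) * H0 b with hH
    set GG : ℚ → Polynomial ℚ := fun ρ => ∑ b ∈ F, Polynomial.C (lam b) * G b ρ with hGG
    have hGs : ∀ F' : Finset (List ℕ), (zs.map fun ρ => ∑ b ∈ F', Polynomial.C (lam b) * G b ρ).sum =
        ∑ b ∈ F', Polynomial.C (lam b) * (zs.map (G b)).sum := by
      intro F'
      induction F' using Finset.induction_on with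
      | empty => simp
      | insert a s ha ih =>
        have h4 : (fun ρ : ℚ => ∑ b ∈ insert a s, Polynomial.C (lam b) * G b ρ) =
            fun ρ => (fun ρ => Polynomial.C (lam a) * G a ρ) ρ +
              (fun ρ => ∑ b ∈ s, Polynomial.C (lam b) * G b ρ) ρ := by
          funext ρ
          rw [sum_insert ha]
        rw [h4, sum_map_add', ih, sum_map_mul', sum_insert ha]
    have hzero : g0 + H + (zs.map GG).sum = 0 := by
      apply Polynomial.funext
      intro t
      rw [hGG, hGs F, hg0, hH, ← sum_add_distrib, ← sum_add_distrib, Polynomial.eval_finsetSum,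
        Polynomial.eval_zero, ← h (vec (t :: zs))]
      refine sum_congr rfl fun b hb => ?_
      rw [hZ (la b) b.dropLast, (hHG b hb).2.2 t, hg' b t]
      have : vec (t :: zs) 0 = t := rfl
      rw [this]
      simp only [Polynomial.eval_add, Polynomial.eval_mul, Polynomial.eval_C, Polynomial.eval_pow,
        Polynomial.eval_X]
      ring
    have hCd : ∀ (a : ℚ) (p : Polynomial ℚ) (m : ℕ), p.natDegree ≤ m →
        (Polynomial.C a * p).natDegree ≤ m := fun a p m hp => by
      refine Polynomial.natDegree_mul_le.trans ?_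
      rw [Polynomial.natDegree_C, zero_add]
      exact hp
    have h2n : 2 * B + (2 * (n - B)) = 2 * n := by omega
    have hg00 : g0 = 0 := by
      refine uni' (2 * (n - B)) zs (2 * B) g0 H GG hz0 hnd.2 ?_ ?_ ?_ ?_ hzero ?_
      · refine dvd_sum fun b hb => Dvd.dvd.mul_left (Dvd.dvd.mul_right ?_ _) _
        exact pow_dvd_pow _ (by have := hB b hb; omega)
      · rw [h2n]
        refine Polynomial.natDegree_sum_le_of_forall_le _ _ fun b hb => hCd _ _ _ ?_
        refine Polynomial.natDegree_mul_le.trans ?_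
        rw [Polynomial.natDegree_X_pow]
        have := hg b
        have := (hform b hb).2
        omega
      · refine Polynomial.natDegree_sum_le_of_forall_le _ _ fun b hb => hCd _ _ _ ?_
        have := (hHG b hb).1
        have := (hform b hb).2
        have := hB b hb
        omega
      · intro ρ hρ
        constructor
        · refine dvd_sum fun b hb => Dvd.dvd.mul_left ?_ _
          exact (pow_dvd_pow _ (by have := hB b hb; omega)).trans ((hHG b hb).2.1 ρ hρ).1
        · rw [h2n]
          refine Polynomial.natDegree_sum_le_of_forall_le _ _ fun b hb => hCd _ _ _ ?_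
          have := ((hHG b hb).2.1 ρ hρ).2
          have := (hform b hb).2
          omega
      · rw [hzs]
        exact hcond
    rw [hPs F]
    have h1 : ∀ b ∈ F, lam b * P K (R0 b) (t0 :: zs) =
        (Polynomial.C (lam b) * (Polynomial.X ^ (2 * la b) * g b)).eval t0 := by
      intro b hb
      have h2 := hform b hb
      rw [P_R0 K b t0 zs (by rw [hzs, h2.1]) (by omega), hg' b t0]
      simp
    rw [sum_congr rfl h1, ← Polynomial.eval_finsetSum, ← hg0, hg00, Polynomial.eval_zero]
  intro e he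
  by_cases hbig : ∀ k ∈ e, k < K
  · exact uniq K (d + 2) _ {0} hgen e he.1 hbig
  · push Not at hbig
    obtain ⟨k, hk, hkK⟩ := hbig
    refine sum_eq_zero fun b hb => ?_
    have h1 : R0 b e = 0 := by
      rcases e with _ | ⟨k0, e⟩
      · rfl
      · show (if 2 * la b ≤ k0 then q b.dropLast ((k0 - 2 * la b) :: e) else 0) = 0
        split_ifs with h2
        · apply q_deg
          have h3 : k ≤ (k0 :: e).sum := List.single_le_sum (fun _ _ => Nat.zero_le _) k hk
          rw [List.sum_cons] at h3 ⊢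
          have := (hform b hb).2
          omega
        · rfl
    rw [h1, mul_zero]

/-- the iterated bracket `{f_{b_1}, {f_{b_2}, ..., f_{b_r}}}` -/
def brk : List ℕ → (ℕ → ℚ) → ℚ
  | [], _ => 0
  | [b], y => y 0 ^ (2 * b)
  | b :: b' :: u, y => br (b' :: u).length b (brk (b' :: u)) y

lemma brk_eq (β : ℕ) : ∀ u : List ℕ, brk (u ++ [β]) = Z β u
  | [] => rfl
  | [b] => by
      funext y
      show br 1 b (brk ([] ++ [β])) y = br 1 b (Z β []) y
      rw [brk_eq β []]
  | b :: b' :: u => by
      funext y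
      show br ((b' :: u) ++ [β]).length b (brk ((b' :: u) ++ [β])) y = br ((b' :: u).length + 1) b (Z β (b' :: u)) y
      rw [brk_eq β (b' :: u), List.length_append]
      rfl

lemma card_bi (d n : ℕ) (T : Finset ℕ) :
    (T.biUnion fun m => (S d m).image fun u => u ++ [n - m]).card = ∑ m ∈ T, (S d m).card := by
  rw [card_biUnion]
  · refine sum_congr rfl fun m hm => ?_
    rw [card_image_of_injective]
    intro u u' h
    exact List.append_inj_left' h rfl
  · intro m hm m' hm' hne
    rw [Function.onFun, disjoint_left]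
    intro b hb hb'
    rw [mem_image] at hb hb'
    obtain ⟨u, hu, rfl⟩ := hb
    obtain ⟨u', hu', h⟩ := hb'
    have h1 := List.append_inj_left' h rfl
    apply hne
    rw [← (mem_S d m u hu).2.1, ← (mem_S d m' u' hu').2.1, h1]

/-- the space of the iterated brackets of depth `r` and weight `2 n + r` -/
def Sp (r n : ℕ) : Submodule ℚ ((ℕ → ℚ) → ℚ) :=
  Submodule.span ℚ {g | ∃ b : List ℕ, b.length = r ∧ b.sum = n ∧ (∀ x ∈ b, 1 ≤ x) ∧ g = brk b}

theorem dim (d n m0 : ℕ) (hm : m0 ≤ n) (hcond : (d + 2) * (2 * m0 + 1) < 2 * (n - m0)) :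
    (2 * m0 + 3 - 2 ^ (d + 3)) ^ (d + 1) ≤ 2 ^ ((d + 1) * (d + 2) / 2) * (d + 1).factorial *
      Module.finrank ℚ (Sp (d + 2) n) := by
  classical
  by_cases hbig : 2 ^ (d + 3) ≤ 2 * m0 + 3
  swap
  · have : 2 * m0 + 3 - 2 ^ (d + 3) = 0 := by omega
    rw [this, zero_pow (by omega)]
    exact Nat.zero_le _
  have h2m : 2 * m0 < n := by
    have := Nat.mul_le_mul_right (2 * m0 + 1) (show 2 ≤ d + 2 by omega)
    omega
  have hc := count (d + 1) (2 * m0 + 1) (by
    have e1 : 2 ^ (d + 1 + 2) = 2 ^ (d + 3) := rfl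
    rw [e1]
    omega)
  have e1 : 2 * m0 + 1 + 2 - 2 ^ (d + 1 + 2) = 2 * m0 + 3 - 2 ^ (d + 3) := rfl
  rw [e1] at hc
  refine hc.trans (Nat.mul_le_mul_left _ ?_)
  set T := (range (m0 + 1)).biUnion fun m => (S d m).image fun u => u ++ [n - m] with hT
  have hTc : (S (d + 1) (2 * m0 + 1)).card = T.card := by
    rw [card_S, hT, card_bi]
    congr 1
    ext m
    rw [mem_filter, mem_range, mem_range]
    omega
  have hTm : ∀ b ∈ T, b ∈ S (d + 1) n ∧ n - m0 ≤ la b := by
    intro b hb
    rw [hT, mem_biUnion] at hb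
    obtain ⟨m, hm, hb⟩ := hb
    rw [mem_range] at hm
    have hb' := hb
    rw [mem_image] at hb
    obtain ⟨u, hu, rfl⟩ := hb
    constructor
    · unfold S
      rw [mem_biUnion]
      exact ⟨m, by rw [mem_filter, mem_range]; omega, hb'⟩
    · rw [la_concat]
      omega
  have hfin : {g | ∃ b : List ℕ, b.length = d + 2 ∧ b.sum = n ∧ (∀ x ∈ b, 1 ≤ x) ∧ g = brk b}.Finite := by
    have h1 : {g | ∃ b : List ℕ, b.length = d + 2 ∧ b.sum = n ∧ (∀ x ∈ b, 1 ≤ x) ∧ g = brk b} ⊆
        Set.range (fun b : Composition n => brk b.blocks) := by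
      rintro v ⟨b, h1, h2, h3, rfl⟩
      exact ⟨⟨b, fun {i} hi => h3 i hi, h2⟩, rfl⟩
    exact (Set.finite_range _).subset h1
  have : FiniteDimensional ℚ (Sp (d + 2) n) := FiniteDimensional.span_of_finite ℚ hfin
  set v : T → ((ℕ → ℚ) → ℚ) := fun b => brk b.1 with hv
  have hind : LinearIndependent ℚ v := by
    rw [linearIndependent_iff']
    intro s g hg i hi
    set lam : List ℕ → ℚ := fun b => if h : b ∈ T then g ⟨b, h⟩ else 0 with hlam
    have hsT : ∀ b ∈ s.image Subtype.val, b ∈ T := by
      intro b hb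
      rw [mem_image] at hb
      obtain ⟨b', -, rfl⟩ := hb
      exact b'.2
    have h0 := indepZ d n (n - m0) (s.image Subtype.val) lam (fun b hb =>
      mem_S (d + 1) n b (hTm b (hsT b hb)).1) (fun b hb => (hTm b (hsT b hb)).2) (by omega) (by
        have e2 : n - (n - m0) = m0 := by omega
        rw [e2]
        exact hcond) (by
        intro y
        have h1 := congrFun hg y
        rw [sum_image (fun x _ y _ h => Subtype.ext h)]
        rw [Finset.sum_apply] at h1
        simp only [Pi.smul_apply, smul_eq_mul, Pi.zero_apply] at h1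
        refine Eq.trans (sum_congr rfl fun b _ => ?_) h1
        simp only [hlam]
        rw [dif_pos b.2]
        congr 1
        have hb := mem_S (d + 1) n b.1 (hTm b.1 b.2).1
        have hb1 : b.1 ≠ [] := by
          intro h
          rw [h] at hb
          simp at hb
        show Z (la b.1) b.1.dropLast y = brk b.1 y
        conv_rhs => rw [split hb1, brk_eq]) i.1 (mem_image_of_mem _ hi)
    simp only [hlam] at h0
    rw [dif_pos i.2] at h0
    exact h0
  have h2 := finrank_span_eq_card hind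
  have h3 : Submodule.span ℚ (Set.range v) ≤ Sp (d + 2) n := by
    apply Submodule.span_mono
    rintro w ⟨b, rfl⟩
    obtain ⟨h1, h2, h3, h4⟩ := mem_S (d + 1) n b.1 (hTm b.1 b.2).1
    exact ⟨b.1, h1, h2, fun x hx => le_trans (by norm_num) (h4 x hx), rfl⟩
  have h4 := Submodule.finrank_mono h3
  rw [h2, Fintype.card_coe] at h4
  rw [hTc]
  exact h4

theorem main (r n : ℕ) (hr : 2 ≤ r) :
    (2 * (n / (2 * (r + 1))) + 3 - 2 ^ (r + 1)) ^ (r - 1) ≤
      2 ^ (r * (r - 1) / 2) * (r - 1).factorial * Module.finrank ℚ (Sp r n) := by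
  obtain ⟨d, rfl⟩ : ∃ d, r = d + 2 := ⟨r - 2, by omega⟩
  have e1 : d + 2 + 1 = d + 3 := rfl
  have e2 : d + 2 - 1 = d + 1 := rfl
  have e3 : (d + 2) * (d + 1) / 2 = (d + 1) * (d + 2) / 2 := by rw [mul_comm]
  rw [e1, e2, e3]
  set m0 := n / (2 * (d + 3)) with hm0
  by_cases hbig : 2 ^ (d + 3) ≤ 2 * m0 + 3
  swap
  · have : 2 * m0 + 3 - 2 ^ (d + 3) = 0 := by omega
    rw [this, zero_pow (by omega)]
    exact Nat.zero_le _
  have h8 : 8 ≤ 2 ^ (d + 3) := by
    calc 8 = 2 ^ 3 := rfl
      _ ≤ 2 ^ (d + 3) := Nat.pow_le_pow_right (by norm_num) (by omega)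
  have h1 : m0 * (2 * (d + 3)) ≤ n := Nat.div_mul_le_self n _
  have h2 : 1 ≤ m0 := by omega
  apply dim
  · nlinarith
  · have h3 : (d + 2) * (2 * m0 + 1) + 2 * m0 = m0 * (2 * (d + 3)) + (d + 2) := by ring
    have h4 : d + 2 < m0 * (2 * (d + 3)) := by nlinarith
    have h5 : m0 ≤ n := by nlinarith
    omega

end Pool.Agent.N568.BK
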