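import Pool.Agent.N568.BK.Asm

/-!
# Words in letters which are powers of a prime (helper568)
-/

set_option autoImplicit false

namespace Pool.Agent.N568.BK

open Finset

/-- one step, over a commutative ring -/
def AR {R : Type} [CommRing R] (b : ℕ) : (List ℕ → R) → List ℕ → R
  | _, [] => 0
  | g, [k] => if k = 2 * b then g [] else 0
  | g, k :: l :: e => AR b (fun e' => g (k :: e')) (l :: e) +
      if 2 * b ≤ k + l then
        ((-1) ^ k * ((2 * b).choose k : R) - (-1) ^ l * ((2 * b).choose l : R)) *
          g ((k + l - 2 * b) :: e)
      else 0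

/-- the coefficients of the words, over a commutative ring -/
def cR (R : Type) [CommRing R] : List ℕ → List ℕ → R
  | [], e => if e = [] then 1 else 0
  | b :: u, e => AR b (cR R u) e

lemma AR_map {R S : Type} [CommRing R] [CommRing S] (φ : R →+* S) (b : ℕ) :
    ∀ (e : List ℕ) (g : List ℕ → R), φ (AR b g e) = AR b (fun e' => φ (g e')) e
  | [], _ => by simp [AR]
  | [k], g => by
      unfold AR
      split_ifs <;> simp
  | k :: l :: e, g => by
      unfold AR
      rw [map_add, AR_map φ b (l :: e) (fun e' => g (k :: e'))]
      congr 1
      split_ifs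
      · rw [map_mul, map_sub, map_mul, map_mul, map_pow, map_pow, map_neg, map_one, map_natCast,
          map_natCast]
      · simp

lemma cR_map {R S : Type} [CommRing R] [CommRing S] (φ : R →+* S) :
    ∀ (w e : List ℕ), φ (cR R w e) = cR S w e
  | [], e => by
      unfold cR
      split_ifs <;> simp
  | b :: u, e => by
      unfold cR
      rw [AR_map]
      congr 1
      funext e'
      exact cR_map φ u e'

lemma AR_rat (b : ℕ) : ∀ (e : List ℕ) (g : List ℕ → ℚ), AR b g e = A b g e
  | [], _ => rfl
  | [k], g => rfl
  | k :: l :: e, g => by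
      unfold AR A
      rw [AR_rat b (l :: e)]

lemma cR_rat : ∀ (w e : List ℕ), cR ℚ w e = c w e
  | [], e => rfl
  | b :: u, e => by
      unfold cR c
      rw [AR_rat]
      congr 1
      funext e'
      exact cR_rat u e'

/-- the last entry of `[…, k, l]` is dropped and `b` is subtracted from the entry before -/
def red (b : ℕ) : List ℕ → List ℕ
  | [] => []
  | [_] => []
  | [k, _] => [k - b]
  | k :: l :: m :: e => k :: red b (l :: m :: e)

/-- the last entry is `b` and the entry before is at least `b` -/
def cond (b : ℕ) : List ℕ → Prop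
  | [] => False
  | [_] => False
  | [k, l] => l = b ∧ b ≤ k
  | _ :: l :: m :: e => cond b (l :: m :: e)

noncomputable instance (b : ℕ) (e : List ℕ) : Decidable (cond b e) := Classical.propDecidable _

section

variable {R : Type} [CommRing R] (p : ℕ) [Fact p.Prime] [CharP R p]

lemma choose_char (e k : ℕ) : ((2 * p ^ e).choose k : R) =
    if k = 0 ∨ k = 2 * p ^ e then 1 else if k = p ^ e then 2 else 0 := by
  have hp : 0 < p ^ e := pow_pos (Fact.out : p.Prime).pos e
  have h1 : ((Polynomial.X + 1 : Polynomial R) ^ (2 * p ^ e)) =
      Polynomial.X ^ (2 * p ^ e) + Polynomial.C 2 * Polynomial.X ^ (p ^ e) + 1 := by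
    rw [mul_comm 2, pow_mul, add_pow_char_pow, one_pow]
    have : (Polynomial.C 2 : Polynomial R) = 2 := map_ofNat Polynomial.C 2
    rw [this, pow_mul]
    ring
  have h2 := Polynomial.coeff_X_add_one_pow R (2 * p ^ e) k
  rw [← h2, h1, Polynomial.coeff_add, Polynomial.coeff_add, Polynomial.coeff_X_pow,
    Polynomial.coeff_C_mul, Polynomial.coeff_X_pow, Polynomial.coeff_one]
  by_cases hk0 : k = 0
  · subst hk0
    rw [if_neg (by omega), if_neg (by omega)]
    simp
  · by_cases hk1 : k = 2 * p ^ e
    · rw [if_pos hk1, if_neg (by omega), if_neg hk0, if_pos (Or.inr hk1)]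
      simp
    · by_cases hk2 : k = p ^ e
      · rw [if_neg hk1, if_pos hk2, if_neg hk0, if_neg (by tauto), if_pos hk2]
        simp
      · rw [if_neg hk1, if_neg hk2, if_neg hk0, if_neg (by tauto), if_neg hk2]
        simp

/-- the formula modulo `p` -/
theorem AR_char (hp2 : p ≠ 2) (ex b : ℕ) (hb : b = p ^ ex) : ∀ (e : List ℕ) (g : List ℕ → R),
    e ≠ [] → (∀ x ∈ e, x ≠ 0) → (∀ x ∈ e.dropLast, x ≠ b) →
    AR b g e = (if e.headD 0 = 2 * b then g e.tail else 0) +
      (if cond b e then 2 * g (red b e) else 0)
  | [], _, h, _, _ => absurd rfl h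
  | [k], g, _, _, _ => by
      have : ¬ cond b [k] := fun h => h
      rw [if_neg this, add_zero]
      rfl
  | k :: l :: e, g, _, h0, h1 => by
      have hbpos : 0 < b := by rw [hb]; exact pow_pos (Fact.out : p.Prime).pos ex
      have hodd : Odd b := by
        rw [hb]
        exact ((Fact.out : p.Prime).odd_of_ne_two hp2).pow
      have hch : ∀ k : ℕ, ((2 * b).choose k : R) =
          if k = 0 ∨ k = 2 * b then 1 else if k = b then 2 else 0 := by
        intro k
        rw [hb]
        exact choose_char p ex k
      have hk0 : k ≠ 0 := h0 k (by simp)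
      have hl0 : l ≠ 0 := h0 l (by simp)
      have hkb : k ≠ b := h1 k (by simp)
      have ih := AR_char hp2 ex b hb (l :: e) (fun e' => g (k :: e')) (by simp)
        (fun x hx => h0 x (List.mem_cons_of_mem _ hx)) (fun x hx => h1 x (by
          rw [List.dropLast_cons_cons]
          exact List.mem_cons_of_mem _ hx))
      have hA : AR b g (k :: l :: e) = AR b (fun e' => g (k :: e')) (l :: e) +
        if 2 * b ≤ k + l then
        ((-1) ^ k * ((2 * b).choose k : R) - (-1) ^ l * ((2 * b).choose l : R)) *
          g ((k + l - 2 * b) :: e)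
        else 0 := rfl
      rw [hA, ih]
      -- the term of `k`
      have hkt : (if 2 * b ≤ k + l then ((-1) ^ k * ((2 * b).choose k : R)) *
          g ((k + l - 2 * b) :: e) else 0) = if (k :: l :: e).headD 0 = 2 * b then g (l :: e) else 0 := by
        have hhd : (k :: l :: e).headD 0 = k := rfl
        rw [hhd, hch k]
        by_cases hk2 : k = 2 * b
        · have h3 : k + l - 2 * b = l := by omega
          have h4 : Even k := ⟨b, by omega⟩
          rw [if_pos (show 2 * b ≤ k + l by omega), if_pos (Or.inr hk2), if_pos hk2, h3,
            h4.neg_one_pow]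
          ring
        · rw [if_neg (show ¬ (k = 0 ∨ k = 2 * b) by omega), if_neg hkb, if_neg hk2]
          simp
      -- the term of `l`
      have hlt : ((if (l :: e).headD 0 = 2 * b then g (k :: (l :: e).tail) else 0) +
          (if cond b (l :: e) then 2 * g (k :: red b (l :: e)) else 0)) -
          (if 2 * b ≤ k + l then ((-1) ^ l * ((2 * b).choose l : R)) *
          g ((k + l - 2 * b) :: e) else 0) =
          if cond b (k :: l :: e) then 2 * g (red b (k :: l :: e)) else 0 := by
        have hhd : (l :: e).headD 0 = l := rfl
        have htl : (l :: e).tail = e := rfl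
        rw [hhd, htl, hch l]
        rcases e with _ | ⟨m, e⟩
        · have hc1 : ¬ cond b [l] := fun h => h
          have hc2 : cond b [k, l] ↔ (l = b ∧ b ≤ k) := Iff.rfl
          have hr : red b [k, l] = [k - b] := rfl
          rw [if_neg hc1, add_zero, hr]
          by_cases hl2 : l = 2 * b
          · have h3 : k + l - 2 * b = k := by omega
            have h4 : Even l := ⟨b, by omega⟩
            rw [if_pos hl2, if_pos (show 2 * b ≤ k + l by omega), if_pos (Or.inr hl2), h3,
              h4.neg_one_pow, if_neg (show ¬ cond b [k, l] by rw [hc2]; omega)]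
            ring
          · rw [if_neg hl2]
            by_cases hl1 : l = b
            · have h4 : Odd l := by rw [hl1]; exact hodd
              by_cases hk1 : b ≤ k
              · have h3 : k + l - 2 * b = k - b := by omega
                rw [if_pos (show 2 * b ≤ k + l by omega), if_neg (show ¬ (l = 0 ∨ l = 2 * b) by omega),
                  if_pos hl1, h3, h4.neg_one_pow,
                  if_pos (show cond b [k, l] by rw [hc2]; exact ⟨hl1, hk1⟩)]
                ring
              · rw [if_neg (show ¬ 2 * b ≤ k + l by omega),
                  if_neg (show ¬ cond b [k, l] by rw [hc2]; omega)]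
                ring
            · rw [if_neg (show ¬ (l = 0 ∨ l = 2 * b) by omega), if_neg hl1,
                if_neg (show ¬ cond b [k, l] by rw [hc2]; omega)]
              simp
        · have hlb : l ≠ b := h1 l (by simp)
          have hc2 : cond b (k :: l :: m :: e) ↔ cond b (l :: m :: e) := Iff.rfl
          have hr : red b (k :: l :: m :: e) = k :: red b (l :: m :: e) := rfl
          rw [hr]
          simp only [hc2]
          by_cases hl2 : l = 2 * b
          · have h3 : k + l - 2 * b = k := by omega
            have h4 : Even l := ⟨b, by omega⟩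
            rw [if_pos hl2, if_pos (show 2 * b ≤ k + l by omega), if_pos (Or.inr hl2), h3,
              h4.neg_one_pow]
            ring
          · rw [if_neg hl2, if_neg (by omega : ¬ (l = 0 ∨ l = 2 * b)), if_neg hlb]
            simp
      have htail : (k :: l :: e).tail = l :: e := rfl
      rw [htail, ← hkt, ← hlt]
      split_ifs <;> ring

end

/-- add `a` to the last entry and append `a` -/
def bump (a : ℕ) : List ℕ → List ℕ
  | [] => [a]
  | [k] => [k + a, a]
  | k :: l :: e => k :: bump a (l :: e)

/-- the monomial of a word -/
def mon : List ℕ → List ℕ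
  | [] => []
  | [a] => [2 * a]
  | a :: b :: u => bump a (mon (b :: u))

lemma bump_length (a : ℕ) : ∀ e : List ℕ, (bump a e).length = e.length + 1
  | [] => rfl
  | [k] => rfl
  | k :: l :: e => by
      have := bump_length a (l :: e)
      unfold bump
      rw [List.length_cons, this]
      rfl

lemma mon_length : ∀ w : List ℕ, (mon w).length = w.length
  | [] => rfl
  | [a] => rfl
  | a :: b :: u => by
      unfold mon
      rw [bump_length, mon_length (b :: u)]
      rfl

lemma bump_ne (a : ℕ) : ∀ e : List ℕ, bump a e ≠ []
  | [] => by simp [bump]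
  | [k] => by simp [bump]
  | k :: l :: e => by simp [bump]

lemma mem_bump (a : ℕ) (P : ℕ → Prop) : ∀ e : List ℕ, (∀ x ∈ e, P x) → (∀ x, P x → P (x + a)) →
    P a → ∀ x ∈ bump a e, P x
  | [], _, _, ha, x, hx => by
      unfold bump at hx
      rw [List.mem_singleton] at hx
      rw [hx]
      exact ha
  | [k], h, h', ha, x, hx => by
      unfold bump at hx
      simp only [List.mem_cons, List.not_mem_nil, or_false] at hx
      rcases hx with rfl | rfl
      · exact h' k (h k (by simp))
      · exact ha
  | k :: l :: e, h, h', ha, x, hx => by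
      unfold bump at hx
      rw [List.mem_cons] at hx
      rcases hx with rfl | hx
      · exact h x (by simp)
      · exact mem_bump a P (l :: e) (fun y hy => h y (List.mem_cons_of_mem _ hy)) h' ha x hx

lemma mon_pos : ∀ w : List ℕ, (∀ x ∈ w, 1 ≤ x) → ∀ x ∈ mon w, 1 ≤ x
  | [], _, x, hx => by simp [mon] at hx
  | [a], h, x, hx => by
      unfold mon at hx
      rw [List.mem_singleton] at hx
      have := h a (by simp)
      omega
  | a :: b :: u, h, x, hx => by
      unfold mon at hx
      exact mem_bump a (fun x => 1 ≤ x) _ (mon_pos (b :: u) (fun y hy => h y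
        (List.mem_cons_of_mem _ hy))) (fun y hy => by omega) (h a (by simp)) x hx

/-- after bumping: the reduced list -/
lemma red_bump (a : ℕ) : ∀ e : List ℕ, e ≠ [] → red a (bump a e) = e
  | [], h => absurd rfl h
  | [k], _ => by
      unfold bump red
      simp
  | [k, l], _ => by
      simp [bump, red]
  | k :: l :: m :: e, _ => by
      have ih := red_bump a (l :: m :: e) (by simp)
      have h1 : bump a (k :: l :: m :: e) = k :: l :: bump a (m :: e) := rfl
      have h2 : bump a (l :: m :: e) = l :: bump a (m :: e) := rfl
      rw [h2] at ih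
      obtain ⟨x, xs, hx⟩ := List.exists_cons_of_ne_nil (bump_ne a (m :: e))
      rw [h1, hx]
      rw [hx] at ih
      have h3 : red a (k :: l :: x :: xs) = k :: red a (l :: x :: xs) := rfl
      rw [h3, ih]

lemma cond_bump (a b : ℕ) : ∀ e : List ℕ, e ≠ [] → (cond b (bump a e) ↔ a = b)
  | [], h => absurd rfl h
  | [k], _ => by
      show (a = b ∧ b ≤ k + a) ↔ a = b
      constructor
      · exact fun h => h.1
      · intro h
        exact ⟨h, by omega⟩
  | [k, l], _ => by
      show (a = b ∧ b ≤ l + a) ↔ a = b
      constructor
      · exact fun h => h.1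
      · intro h
        exact ⟨h, by omega⟩
  | k :: l :: m :: e, _ => by
      have ih := cond_bump a b (l :: m :: e) (by simp)
      have h1 : bump a (k :: l :: m :: e) = k :: l :: bump a (m :: e) := rfl
      have h2 : bump a (l :: m :: e) = l :: bump a (m :: e) := rfl
      rw [h2] at ih
      obtain ⟨x, xs, hx⟩ := List.exists_cons_of_ne_nil (bump_ne a (m :: e))
      rw [h1, hx]
      rw [hx] at ih
      exact ih

/-- the head is odd, the entries between the head and the last entry are even -/
def Shape (T : ℕ → Prop) : List ℕ → Prop
  | [] => False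
  | h :: e => T h ∧ ∀ x ∈ e.dropLast, Even x

end Pool.Agent.N568.BK
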