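import Pool.Agent.N568.BK.Free

/-!
# Words in letters which are powers of a prime, the determinant (helper568)
-/

set_option autoImplicit false

namespace Pool.Agent.N568.BK

open Finset

section

variable (p : ℕ) [hpf : Fact p.Prime]

lemma pp_odd (hp : 5 ≤ p) (i : ℕ) : Odd (p ^ i) :=
  (hpf.out.odd_of_ne_two (by omega)).pow

lemma pp_ne (hp : 5 ≤ p) (i j k : ℕ) : 2 * p ^ i + p ^ j ≠ p ^ k := by
  intro h
  have h1 : ∀ m : ℕ, 1 ≤ p ^ m := fun m => Nat.one_le_pow _ _ hpf.out.pos
  have hji : j < k := by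
    by_contra hh
    have := Nat.pow_le_pow_right hpf.out.pos (Nat.le_of_not_lt hh)
    have := h1 i
    omega
  have hik : i < k := by
    by_contra hh
    have := Nat.pow_le_pow_right hpf.out.pos (Nat.le_of_not_lt hh)
    have := h1 i
    have := h1 j
    omega
  rcases lt_trichotomy i j with hij | hij | hij
  · obtain ⟨m, rfl⟩ := Nat.exists_eq_add_of_lt hij
    obtain ⟨n, rfl⟩ := Nat.exists_eq_add_of_lt hik
    have h2 : p ^ i * (2 + p ^ (m + 1)) = p ^ i * p ^ (n + 1) := by
      rw [← pow_add, mul_add, ← pow_add]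
      rw [show i + (m + 1) = i + m + 1 by omega, show i + (n + 1) = i + n + 1 by omega]
      rw [← h]
      ring
    have h3 := Nat.eq_of_mul_eq_mul_left (by have := h1 i; omega) h2
    have h4 : p ∣ 2 := by
      have h5 : p ∣ 2 + p ^ (m + 1) := by
        rw [h3]
        exact dvd_pow_self p (by omega)
      exact (Nat.dvd_add_left (dvd_pow_self p (by omega : m + 1 ≠ 0))).mp h5
    have := Nat.le_of_dvd (by norm_num) h4
    omega
  · subst hij
    obtain ⟨n, rfl⟩ := Nat.exists_eq_add_of_lt hik
    have h2 : p ^ i * 3 = p ^ i * p ^ (n + 1) := by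
      rw [← pow_add]
      rw [show i + (n + 1) = i + n + 1 by omega]
      rw [← h]
      ring
    have h3 := Nat.eq_of_mul_eq_mul_left (by have := h1 i; omega) h2
    have h4 : p ∣ 3 := by
      rw [h3]
      exact dvd_pow_self p (by omega)
    have := Nat.le_of_dvd (by norm_num) h4
    omega
  · obtain ⟨m, rfl⟩ := Nat.exists_eq_add_of_lt hij
    obtain ⟨n, rfl⟩ := Nat.exists_eq_add_of_lt hji
    have h2 : p ^ j * (2 * p ^ (m + 1) + 1) = p ^ j * p ^ (n + 1) := by
      rw [← pow_add, show j + (n + 1) = j + n + 1 by omega, ← h]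
      ring
    have h3 := Nat.eq_of_mul_eq_mul_left (by have := h1 j; omega) h2
    have h4 : p ∣ 1 := by
      have h5 : p ∣ 2 * p ^ (m + 1) + 1 := by
        rw [h3]
        exact dvd_pow_self p (by omega)
      exact (Nat.dvd_add_right (Dvd.dvd.mul_left (dvd_pow_self p (by omega : m + 1 ≠ 0)) 2)).mp h5
    have := Nat.le_of_dvd (by norm_num) h4
    omega

/-- letters which are powers of `p` -/
def Lt (w : List ℕ) : Prop := ∀ x ∈ w, ∃ e, x = p ^ e

/-- the entries except the last one are different from the powers of `p`, the last is a power of `p`, the head is odd -/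
def Good (e : List ℕ) : Prop :=
  (∀ x ∈ e.dropLast, (∃ i j, x = 2 * p ^ i + p ^ j) ∨ (∃ i j, x = p ^ i + p ^ j)) ∧
    Odd (e.headD 0) ∧ ∃ (e' : List ℕ) (i : ℕ), e = e' ++ [p ^ i]

lemma bump_concat (a : ℕ) : ∀ (e : List ℕ) (k : ℕ), bump a (e ++ [k]) = e ++ [k + a, a]
  | [], k => rfl
  | [x], k => rfl
  | x :: y :: e, k => by
      have h1 : bump a (x :: y :: e ++ [k]) = x :: bump a (y :: e ++ [k]) := rfl
      rw [h1, bump_concat a (y :: e) k]
      rfl

lemma good_mon (hp : 5 ≤ p) : ∀ (a b : ℕ) (u : List ℕ), Lt p (a :: b :: u) → Good p (mon (a :: b :: u))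
  | a, b, [], h => by
      obtain ⟨i, rfl⟩ := h a (by simp)
      obtain ⟨j, rfl⟩ := h b (by simp)
      have h1 : mon [p ^ i, p ^ j] = [2 * p ^ j + p ^ i, p ^ i] := rfl
      rw [h1]
      refine ⟨?_, ?_, [2 * p ^ j + p ^ i], i, rfl⟩
      · intro x hx
        have h2 : ([2 * p ^ j + p ^ i, p ^ i] : List ℕ).dropLast = [2 * p ^ j + p ^ i] := rfl
        rw [h2, List.mem_singleton] at hx
        exact Or.inl ⟨j, i, hx⟩
      · show Odd (2 * p ^ j + p ^ i)
        exact (even_two_mul _).add_odd (pp_odd p hp i)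
  | a, b, b' :: u, h => by
      obtain ⟨i, rfl⟩ := h a (by simp)
      obtain ⟨h1, h2, e', j, h3⟩ := good_mon hp b b' u (fun x hx => h x (List.mem_cons_of_mem _ hx))
      have h4 : mon (p ^ i :: b :: b' :: u) = bump (p ^ i) (mon (b :: b' :: u)) := rfl
      rw [h4, h3, bump_concat]
      have h5 : e' ≠ [] := by
        rintro rfl
        have h6 := mon_length (b :: b' :: u)
        rw [h3] at h6
        simp at h6
      have h6 : e'.headD 0 = (mon (b :: b' :: u)).headD 0 := by
        rw [h3]
        rcases e' with _ | ⟨x, e'⟩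
        · exact absurd rfl h5
        · rfl
      have h7 : e' ++ [p ^ j + p ^ i, p ^ i] = (e' ++ [p ^ j + p ^ i]) ++ [p ^ i] := by simp
      refine ⟨?_, ?_, e' ++ [p ^ j + p ^ i], i, h7⟩
      · intro x hx
        rw [h7, List.dropLast_concat, List.mem_append, List.mem_singleton] at hx
        rcases hx with hx | hx
        · refine h1 x ?_
          rw [h3, List.dropLast_concat]
          exact hx
        · exact Or.inr ⟨j, i, hx⟩
      · rw [h3] at h2
        rcases e' with _ | ⟨x, e'⟩
        · exact absurd rfl h5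
        · exact h2

/-- one letter, modulo `p` -/
theorem AR_mon {R : Type} [CommRing R] [CharP R p] (hp : 5 ≤ p) (a b a' : ℕ) (u : List ℕ)
    (hw : Lt p (a :: a' :: u)) (hb : ∃ e, b = p ^ e) (g : List ℕ → R) :
    AR b g (mon (a :: a' :: u)) = if a = b then 2 * g (mon (a' :: u)) else 0 := by
  obtain ⟨ex, hex⟩ := hb
  obtain ⟨h1, h2, e', i, h3⟩ := good_mon p hp a a' u hw
  have hne : mon (a' :: u) ≠ [] := by
    intro h
    have := mon_length (a' :: u)
    rw [h] at this
    simp at this
  have hpos : ∀ x ∈ a :: a' :: u, 1 ≤ x := by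
    intro x hx
    obtain ⟨e, rfl⟩ := hw x hx
    exact Nat.one_le_pow _ _ hpf.out.pos
  rw [AR_char p (by omega) ex b hex (mon (a :: a' :: u)) g (by
    rw [h3]
    simp) (fun x hx => by
      have := mon_pos _ hpos x hx
      omega) (fun x hx => by
      rw [hex]
      rcases h1 x hx with ⟨i, j, rfl⟩ | ⟨i, j, rfl⟩
      · exact pp_ne p hp i j ex
      · intro h
        have h4 : Even (p ^ i + p ^ j) := (pp_odd p hp i).add_odd (pp_odd p hp j)
        rw [h] at h4
        exact (Nat.not_even_iff_odd.mpr (pp_odd p hp ex)) h4)]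
  rw [if_neg (by
    intro h
    rw [h] at h2
    exact (Nat.not_odd_iff_even.mpr (even_two_mul b)) h2), zero_add]
  have h4 : mon (a :: a' :: u) = bump a (mon (a' :: u)) := rfl
  by_cases hab : a = b
  · subst hab
    rw [if_pos ((by rw [h4]; exact (cond_bump a a _ hne).mpr rfl)), if_pos rfl, h4, red_bump a _ hne]
  · rw [if_neg (by rw [h4]; exact fun h => hab ((cond_bump a b _ hne).mp h)), if_neg hab]

/-- the matrix modulo `p` -/
theorem cR_mon {R : Type} [CommRing R] [CharP R p] (hp : 5 ≤ p) : ∀ (d : ℕ) (w' w : List ℕ),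
    w'.length = d + 1 → w.length = d + 1 → Lt p w' → Lt p w →
    cR R w' (mon w) = if w' = w then 2 ^ d else 0
  | 0, w', w, hw', hw, _, _ => by
      obtain ⟨b, rfl⟩ := List.length_eq_one_iff.mp hw'
      obtain ⟨a, rfl⟩ := List.length_eq_one_iff.mp hw
      have h1 : cR R [b] (mon [a]) = if 2 * a = 2 * b then cR R [] [] else 0 := rfl
      have h2 : cR R [] [] = 1 := by
        unfold cR
        rw [if_pos rfl]
      rw [h1, h2]
      by_cases hab : a = b
      · subst hab
        simp
      · rw [if_neg (by omega), if_neg]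
        intro h
        exact hab (by simpa using h.symm)
  | d + 1, w', w, hw', hw, hl', hl => by
      rcases w' with _ | ⟨b, w'⟩
      · simp at hw'
      rcases w with _ | ⟨a, w⟩
      · simp at hw
      rcases w with _ | ⟨a', u⟩
      · simp at hw
      have h1 : cR R (b :: w') (mon (a :: a' :: u)) = AR b (cR R w') (mon (a :: a' :: u)) := rfl
      rw [h1, AR_mon p hp a b a' u hl (hl' b (by simp)),
        cR_mon hp d w' (a' :: u) (by simpa using hw') (by simpa using hw)
          (fun x hx => hl' x (List.mem_cons_of_mem _ hx)) (fun x hx => hl x (List.mem_cons_of_mem _ hx))]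
      by_cases hab : a = b
      · subst hab
        rw [if_pos rfl]
        by_cases hww : w' = a' :: u
        · rw [if_pos hww, if_pos (by rw [hww]), pow_succ]
          ring
        · rw [if_neg hww, if_neg (by simpa using hww), mul_zero]
      · rw [if_neg hab, if_neg]
        intro h
        rw [List.cons.injEq] at h
        exact hab h.1.symm

/-- the coefficient vectors are independent -/
theorem indep_c (hp : 5 ≤ p) (d : ℕ) (F : Finset (List ℕ)) (hF : ∀ w ∈ F, w.length = d + 1 ∧ Lt p w)
    (lam : List ℕ → ℚ) (h : ∀ w ∈ F, ∑ w' ∈ F, lam w' * c w' (mon w) = 0) : ∀ w ∈ F, lam w = 0 := by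
  classical
  set M : Matrix F F ℤ := fun w' w => cR ℤ w'.1 (mon w.1) with hM
  have hdet : M.det ≠ 0 := by
    intro h0
    have h1 : (Int.castRingHom (ZMod p)) M.det = 0 := by rw [h0, map_zero]
    rw [RingHom.map_det] at h1
    have h2 : (Int.castRingHom (ZMod p)).mapMatrix M = (2 ^ d : ZMod p) • (1 : Matrix F F (ZMod p)) := by
      ext w' w
      rw [RingHom.mapMatrix_apply, Matrix.map_apply, hM]
      rw [cR_map (Int.castRingHom (ZMod p)), cR_mon p hp d w'.1 w.1 (hF _ w'.2).1 (hF _ w.2).1
        (hF _ w'.2).2 (hF _ w.2).2, Matrix.smul_apply, Matrix.one_apply]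
      by_cases hww : w' = w
      · rw [if_pos (by rw [hww]), if_pos hww, smul_eq_mul, mul_one]
      · rw [if_neg (fun h => hww (Subtype.ext h)), if_neg hww, smul_zero]
    rw [h2, Matrix.det_smul, Matrix.det_one, mul_one] at h1
    have h3 : (2 : ZMod p) = 0 := by
      by_contra hne
      exact (pow_ne_zero _ (pow_ne_zero _ hne)) h1
    have h4 : ((2 : ℕ) : ZMod p) = 0 := by exact_mod_cast h3
    rw [ZMod.natCast_eq_zero_iff] at h4
    have := Nat.le_of_dvd (by norm_num) h4
    omega
  have hdet' : ((Int.castRingHom ℚ).mapMatrix M).det ≠ 0 := by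
    rw [← RingHom.map_det]
    simpa using hdet
  have h3 := Matrix.eq_zero_of_vecMul_eq_zero hdet' (v := fun w => lam w.1) (by
    funext w
    have h4 := h w.1 w.2
    rw [← Finset.sum_attach] at h4
    rw [Matrix.vecMul, Pi.zero_apply]
    refine Eq.trans ?_ h4
    unfold dotProduct
    rw [← Finset.attach_eq_univ]
    refine Finset.sum_congr rfl fun w' _ => ?_
    congr 1
    show (Int.castRingHom ℚ) (cR ℤ w'.1 (mon w.1)) = _
    rw [cR_map (Int.castRingHom ℚ), cR_rat])
  intro w hw
  exact congrFun h3 ⟨w, hw⟩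

/-- the words are independent -/
theorem indep_word (hp : 5 ≤ p) (d : ℕ) (F : Finset (List ℕ)) (hF : ∀ w ∈ F, w.length = d + 1 ∧ Lt p w)
    (lam : List ℕ → ℚ) (h : ∀ ys : List ℚ, ys.length = d + 1 → ∑ w ∈ F, lam w * word w ys = 0) :
    ∀ w ∈ F, lam w = 0 := by
  classical
  refine indep_c p hp d F hF lam ?_
  intro w hw
  set K := (2 * ∑ w ∈ F, w.sum) + (mon w).sum + 1 with hK
  have hle : ∀ w ∈ F, 2 * w.sum < K := by
    intro w hw
    have := Finset.single_le_sum (f := fun w : List ℕ => w.sum) (fun _ _ => Nat.zero_le _) hw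
    omega
  have hPs : ∀ (F' : Finset (List ℕ)) (ys : List ℚ), P K (fun e => ∑ b ∈ F', lam b * c b e) ys =
      ∑ b ∈ F', lam b * P K (c b) ys := by
    intro F' ys
    induction F' using Finset.induction_on with
    | empty => simp [P_zero]
    | insert a s ha ih =>
      have h4 : (fun e : List ℕ => ∑ b ∈ insert a s, lam b * c b e) =
          fun e => (fun e => lam a * c a e) e + (fun e => ∑ b ∈ s, lam b * c b e) e := by
        funext e
        rw [sum_insert ha]
      rw [h4, P_add, ih, P_smul, sum_insert ha]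
  refine uniq K (d + 1) (fun e => ∑ w' ∈ F, lam w' * c w' e) ∅ ?_ (mon w) ?_ ?_
  · intro ys hys _ _
    rw [hPs, ← h ys hys]
    refine Finset.sum_congr rfl fun w' hw' => ?_
    rw [word_eq w' ys K (by rw [hys, (hF w' hw').1]) (hle w' hw')]
  · rw [mon_length, (hF w hw).1]
  · intro k hk
    have := List.single_le_sum (l := mon w) (fun _ _ => Nat.zero_le _) k hk
    omega

end

/-- the words as functions of the variables `y_0, y_1, …` -/
def wd : List ℕ → (ℕ → ℚ) → ℚ
  | [], _ => 1
  | b :: u, y => comp u.length b (wd u) y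

lemma wd_eq : ∀ (w : List ℕ) (y : ℕ → ℚ), wd w y = word w (tl w.length y)
  | [], y => rfl
  | b :: u, y => by
      have h1 : word (b :: u) (tl (b :: u).length y) = act b (word u) (tl (u.length + 1) y) := rfl
      rw [h1, act_tl]
      unfold wd
      congr 1
      funext y
      exact wd_eq u y

theorem indep_wd (p : ℕ) (hpp : p.Prime) (hp : 5 ≤ p) (d : ℕ) (F : Finset (List ℕ))
    (hF : ∀ w ∈ F, w.length = d + 1 ∧ ∀ x ∈ w, ∃ e, x = p ^ e)
    (lam : List ℕ → ℚ) (h : ∀ y : ℕ → ℚ, ∑ w ∈ F, lam w * wd w y = 0) :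
    ∀ w ∈ F, lam w = 0 := by
  have : Fact p.Prime := ⟨hpp⟩
  refine indep_word p hp d F hF lam ?_
  intro ys hys
  rw [← h (vec ys)]
  refine Finset.sum_congr rfl fun w hw => ?_
  rw [wd_eq, (hF w hw).1, ← hys, tl_vec]

end Pool.Agent.N568.BK
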