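import Mathlib

/-!
# High powers of linear polynomials with coefficients of small degree (helper568)
-/

set_option autoImplicit false

namespace Pool.Agent.N568.BK

open Polynomial

/-- the derivative of a binary form of degree `E` which kills the powers of `X - ρ` -/
noncomputable def th (ρ : ℚ) (E : ℕ) (g : ℚ[X]) : ℚ[X] := C (E : ℚ) * g - (X - C ρ) * derivative g

/-- iteration -/
noncomputable def thi (ρ : ℚ) : ℕ → ℕ → ℚ[X] → ℚ[X]
  | 0, _, g => g
  | j + 1, E, g => thi ρ j (E - 1) (th ρ E g)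

lemma th_add (ρ : ℚ) (E : ℕ) (g h : ℚ[X]) : th ρ E (g + h) = th ρ E g + th ρ E h := by
  unfold th
  rw [derivative_add]
  ring

lemma thi_add (ρ : ℚ) : ∀ (j E : ℕ) (g h : ℚ[X]), thi ρ j E (g + h) = thi ρ j E g + thi ρ j E h
  | 0, _, _, _ => rfl
  | j + 1, E, g, h => by
      unfold thi
      rw [th_add, thi_add]

lemma thi_zero (ρ : ℚ) : ∀ (j E : ℕ), thi ρ j E 0 = 0
  | 0, _ => rfl
  | j + 1, E => by
      unfold thi
      have : th ρ E 0 = 0 := by simp [th]
      rw [this, thi_zero]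

lemma thi_sum (ρ : ℚ) (j E : ℕ) (l : List ℚ) (G : ℚ → ℚ[X]) :
    thi ρ j E (l.map G).sum = (l.map fun x => thi ρ j E (G x)).sum := by
  induction l with
  | nil => simp [thi_zero]
  | cons a l ih =>
    rw [List.map_cons, List.sum_cons, thi_add, ih, List.map_cons, List.sum_cons]

lemma th_deg (ρ : ℚ) (E : ℕ) (g : ℚ[X]) (hE : 1 ≤ E) (h : g.natDegree ≤ E) :
    (th ρ E g).natDegree ≤ E - 1 := by
  rw [natDegree_le_iff_coeff_eq_zero]
  intro N hN
  have h1 : ∀ m, E < m → g.coeff m = 0 := natDegree_le_iff_coeff_eq_zero.1 h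
  have h2 : th ρ E g = C (E : ℚ) * g - X * derivative g + C ρ * derivative g := by
    unfold th
    ring
  obtain ⟨M, rfl⟩ : ∃ M, N = M + 1 := ⟨N - 1, by omega⟩
  rw [h2, coeff_add, coeff_sub, coeff_C_mul, coeff_X_mul, coeff_C_mul, coeff_derivative,
    coeff_derivative, h1 (M + 1 + 1) (by omega)]
  by_cases h3 : M + 1 = E
  · rw [← h3]
    push_cast
    ring
  · rw [h1 (M + 1) (by omega)]
    ring

lemma thi_deg (ρ : ℚ) : ∀ (j E : ℕ) (g : ℚ[X]), j ≤ E → g.natDegree ≤ E →
    (thi ρ j E g).natDegree ≤ E - j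
  | 0, _, _, _, h => h
  | j + 1, E, g, hj, h => by
      unfold thi
      have := thi_deg ρ j (E - 1) (th ρ E g) (by omega) (th_deg ρ E g (by omega) h)
      omega

lemma th_dvd_self (ρ : ℚ) (E N : ℕ) (g : ℚ[X]) (h : (X - C ρ) ^ N ∣ g) :
    (X - C ρ) ^ N ∣ th ρ E g := by
  unfold th
  apply dvd_sub
  · exact Dvd.dvd.mul_left h _
  · rcases N with _ | N
    · simp
    · have h1 := pow_sub_one_dvd_derivative_of_pow_dvd h
      rw [Nat.add_sub_cancel] at h1
      rw [pow_succ, mul_comm]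
      exact mul_dvd_mul_left _ h1

lemma thi_dvd_self (ρ : ℚ) (N : ℕ) : ∀ (j E : ℕ) (g : ℚ[X]), (X - C ρ) ^ N ∣ g →
    (X - C ρ) ^ N ∣ thi ρ j E g
  | 0, _, _, h => h
  | j + 1, E, g, h => by
      unfold thi
      exact thi_dvd_self ρ N j (E - 1) _ (th_dvd_self ρ E N g h)

lemma th_dvd (ρ σ : ℚ) (E N : ℕ) (g : ℚ[X]) (h : (X - C σ) ^ N ∣ g) :
    (X - C σ) ^ (N - 1) ∣ th ρ E g := by
  unfold th
  apply dvd_sub
  · exact Dvd.dvd.mul_left ((pow_dvd_pow _ (by omega)).trans h) _
  · exact Dvd.dvd.mul_left (pow_sub_one_dvd_derivative_of_pow_dvd h) _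

lemma thi_dvd (ρ σ : ℚ) : ∀ (j E N : ℕ) (g : ℚ[X]), (X - C σ) ^ N ∣ g →
    (X - C σ) ^ (N - j) ∣ thi ρ j E g
  | 0, _, _, _, h => h
  | j + 1, E, N, g, h => by
      unfold thi
      have := thi_dvd ρ σ j (E - 1) (N - 1) _ (th_dvd ρ σ E N g h)
      have h1 : N - 1 - j = N - (j + 1) := by omega
      rw [h1] at this
      exact this

lemma th_inj (ρ σ : ℚ) (hρσ : σ ≠ ρ) (E : ℕ) (g : ℚ[X]) (h : X - C σ ∣ g) (h0 : th ρ E g = 0) :
    g = 0 := by
  by_contra hg
  have hr : g.IsRoot σ := dvd_iff_isRoot.1 h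
  have h1 : derivative g ≠ 0 := by
    intro hd
    have h2 : g.natDegree = 0 := derivative_eq_zero.1 hd
    rw [eq_C_of_natDegree_eq_zero h2] at hr hg
    rw [IsRoot, eval_C] at hr
    rw [hr] at hg
    simp at hg
  have h2 : (derivative g).rootMultiplicity σ = g.rootMultiplicity σ - 1 :=
    derivative_rootMultiplicity_of_root hr
  have h3 : 0 < g.rootMultiplicity σ := (rootMultiplicity_pos hg).2 hr
  have h4 : (X - C ρ) * derivative g = C (E : ℚ) * g := by
    unfold th at h0
    exact (sub_eq_zero.1 h0).symm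
  have h5 : (X - C σ) ^ g.rootMultiplicity σ ∣ (X - C ρ) * derivative g := by
    rw [h4]
    exact Dvd.dvd.mul_left (pow_rootMultiplicity_dvd g σ) _
  have h6 : IsCoprime ((X - C σ) ^ g.rootMultiplicity σ) (X - C ρ) :=
    (isCoprime_X_sub_C_of_isUnit_sub (sub_ne_zero.2 hρσ).isUnit).pow_left
  have h7 : (X - C σ) ^ g.rootMultiplicity σ ∣ derivative g := h6.dvd_of_dvd_mul_left h5
  have h8 := (le_rootMultiplicity_iff h1).2 h7
  omega

lemma thi_inj (ρ σ : ℚ) (hρσ : σ ≠ ρ) : ∀ (j E N : ℕ) (g : ℚ[X]), j ≤ N → (X - C σ) ^ N ∣ g →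
    thi ρ j E g = 0 → g = 0
  | 0, _, _, _, _, _, h => h
  | j + 1, E, N, g, hj, hd, h => by
      unfold thi at h
      have h1 := thi_inj ρ σ hρσ j (E - 1) (N - 1) _ (by omega) (th_dvd ρ σ E N g hd) h
      refine th_inj ρ σ hρσ E g ?_ h1
      exact (dvd_pow_self (X - C σ) (by omega : N ≠ 0)).trans hd

/-- no relations between high powers with coefficients of small degree -/
theorem uni (D : ℕ) : ∀ (ρs : List ℚ) (N : ℕ) (g : ℚ[X]) (G : ℚ → ℚ[X]), (0 : ℚ) ∉ ρs → ρs.Nodup →
    X ^ N ∣ g → g.natDegree ≤ N + D →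
    (∀ ρ ∈ ρs, (X - C ρ) ^ N ∣ G ρ ∧ (G ρ).natDegree ≤ N + D) →
    g + (ρs.map G).sum = 0 → ρs.length * (D + 1) < N → g = 0
  | [], N, g, G, _, _, _, _, _, h, _ => by simpa using h
  | ρ :: ρs, N, g, G, h0, hnd, hg, hgd, hG, h, hN => by
      have e0 : (0 : ℚ) ≠ ρ := fun h1 => h0 (by rw [h1]; simp)
      rw [List.length_cons, Nat.succ_mul] at hN
      have hN' : D + 1 ≤ N := by omega
      have hX : (X : ℚ[X]) ^ N = (X - C 0) ^ N := by simp
      have hself : thi ρ (D + 1) (N + D) (G ρ) = 0 := by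
        obtain ⟨h1, h2⟩ := hG ρ (by simp)
        have h3 := thi_dvd_self ρ N (D + 1) (N + D) (G ρ) h1
        have h4 := thi_deg ρ (D + 1) (N + D) (G ρ) (by omega) h2
        apply eq_zero_of_dvd_of_natDegree_lt h3
        rw [natDegree_pow, natDegree_X_sub_C]
        omega
      have hT : thi ρ (D + 1) (N + D) g +
          (ρs.map fun x => thi ρ (D + 1) (N + D) (G x)).sum = 0 := by
        have h1 := congrArg (thi ρ (D + 1) (N + D)) h
        rw [List.map_cons, List.sum_cons, thi_add, thi_add, hself, zero_add, thi_sum,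
          thi_zero] at h1
        exact h1
      rw [List.nodup_cons] at hnd
      have hN2 : N - (D + 1) + D = N + D - (D + 1) := by omega
      have key := uni D ρs (N - (D + 1)) _ (fun x => thi ρ (D + 1) (N + D) (G x))
        (fun h1 => h0 (List.mem_cons_of_mem _ h1)) hnd.2 (by
          rw [hX] at hg
          have := thi_dvd ρ 0 (D + 1) (N + D) N g hg
          simpa using this) (by
          rw [hN2]
          exact thi_deg ρ (D + 1) (N + D) g (by omega) hgd) (by
          intro x hx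
          obtain ⟨h1, h2⟩ := hG x (List.mem_cons_of_mem _ hx)
          refine ⟨thi_dvd ρ x (D + 1) (N + D) N _ h1, ?_⟩
          rw [hN2]
          exact thi_deg ρ (D + 1) (N + D) _ (by omega) h2) hT (by omega)
      rw [hX] at hg
      exact thi_inj ρ 0 e0 (D + 1) (N + D) N g hN' hg key

/-- the same with a polynomial of small degree -/
theorem uni' (D : ℕ) (ρs : List ℚ) (N : ℕ) (g H : ℚ[X]) (G : ℚ → ℚ[X]) (h0 : (0 : ℚ) ∉ ρs)
    (hnd : ρs.Nodup) (hg : X ^ N ∣ g) (hgd : g.natDegree ≤ N + D) (hH : H.natDegree ≤ D)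
    (hG : ∀ ρ ∈ ρs, (X - C ρ) ^ N ∣ G ρ ∧ (G ρ).natDegree ≤ N + D)
    (h : g + H + (ρs.map G).sum = 0) (hN : (ρs.length + 1) * (D + 1) < N) : g = 0 := by
  have hN1 : (ρs.length + 1) * (D + 1) = ρs.length * (D + 1) + (D + 1) := by ring
  rw [hN1] at hN
  have hlen : ∀ l : List ℚ, derivative^[D + 1] (l.map G).sum =
      (l.map fun x => derivative^[D + 1] (G x)).sum := by
    intro l
    induction l with
    | nil => simp
    | cons a l ih =>
      rw [List.map_cons, List.sum_cons, iterate_map_add derivative (D + 1), ih, List.map_cons, List.sum_cons]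
  have hT : derivative^[D + 1] g + (ρs.map fun x => derivative^[D + 1] (G x)).sum = 0 := by
    have h1 := congrArg (fun p => derivative^[D + 1] p) h
    rw [iterate_map_add derivative (D + 1), iterate_map_add derivative (D + 1), hlen,
      iterate_derivative_eq_zero (lt_of_le_of_lt hH (Nat.lt_succ_self D)), add_zero] at h1
    rw [h1]
    simp
  have hN2 : N - (D + 1) + D = N + D - (D + 1) := by omega
  have key := uni D ρs (N - (D + 1)) _ (fun x => derivative^[D + 1] (G x)) h0 hnd (by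
      have hX : (X : ℚ[X]) ^ N = (X - C 0) ^ N := by simp
      rw [hX] at hg
      have := pow_sub_dvd_iterate_derivative_of_pow_dvd (n := N) (D + 1) hg
      simpa using this) (by
      rw [hN2]
      refine (natDegree_iterate_derivative g (D + 1)).trans ?_
      omega) (by
      intro x hx
      obtain ⟨h1, h2⟩ := hG x hx
      refine ⟨pow_sub_dvd_iterate_derivative_of_pow_dvd (D + 1) h1, ?_⟩
      rw [hN2]
      refine (natDegree_iterate_derivative _ (D + 1)).trans ?_
      omega) hT (by omega)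
  by_contra hne
  have h1 : g.natDegree < D + 1 := by
    by_contra h2
    push Not at h2
    have h3 := coeff_iterate_derivative (k := D + 1) g (g.natDegree - (D + 1))
    rw [key, coeff_zero, Nat.sub_add_cancel h2] at h3
    have h4 : (g.natDegree).descFactorial (D + 1) ≠ 0 := by
      rw [Ne, Nat.descFactorial_eq_zero_iff_lt]
      omega
    have h5 : g.coeff g.natDegree ≠ 0 := by
      rw [coeff_natDegree]
      exact leadingCoeff_ne_zero.2 hne
    rw [nsmul_eq_mul] at h3
    have h6 : ((g.natDegree.descFactorial (D + 1) : ℕ) : ℚ) ≠ 0 := by exact_mod_cast h4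
    exact (mul_ne_zero h6 h5) h3.symm
  exact hne (eq_zero_of_dvd_of_natDegree_lt hg (by rw [natDegree_X_pow]; omega))

end Pool.Agent.N568.BK
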