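import Pool.Agent.N568.BK.Link
import Pool.Agent.N568.BK.Uni

/-!
# Brackets with a large innermost letter (helper568)
-/

set_option autoImplicit false

namespace Pool.Agent.N568.BK

open Finset

/-- drop the variable `j` -/
def om (j : ℕ) (y : ℕ → ℚ) : ℕ → ℚ := fun i => if i < j then y i else y (i + 1)

/-- differences with the variable `s` -/
def dl (s : ℕ) (y : ℕ → ℚ) : ℕ → ℚ := fun i => y i - y s

/-- differences with the variable `0`, reversed -/
def dr (s : ℕ) (y : ℕ → ℚ) : ℕ → ℚ := fun i => y (s - i) - y 0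

/-- `f ∘ g`, `f = x ^ (2 b)` of depth one, `g` of depth `s`, variables numbered from the right -/
def comp (s b : ℕ) (g : (ℕ → ℚ) → ℚ) (y : ℕ → ℚ) : ℚ :=
  y s ^ (2 * b) * g y + ∑ j ∈ range s, (y j - y (j + 1)) ^ (2 * b) * (g (om j y) - g (om (j + 1) y))

/-- the bracket `f ∘ g - g ∘ f` -/
def br (s b : ℕ) (g : (ℕ → ℚ) → ℚ) (y : ℕ → ℚ) : ℚ :=
  comp s b g y - (y 0 ^ (2 * b) * g (om 0 y) + y s ^ (2 * b) * g (dl s y) +
    (-1) ^ s * y 0 ^ (2 * b) * g (dr s y))

/-- the iterated brackets `{f_{b_1}, {f_{b_2}, ... {f_{b_s}, f_β}}}` -/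
def Z (β : ℕ) : List ℕ → (ℕ → ℚ) → ℚ
  | [], y => y 0 ^ (2 * β)
  | b :: u, y => br (u.length + 1) b (Z β u) y

/-- the multiplier of the innermost letter at the variable `0` -/
def qf : List ℕ → (ℕ → ℚ) → ℚ
  | [], _ => 1
  | b :: u, y => comp (u.length + 1) b (qf u) y - (y 0 - y 1) ^ (2 * b) * qf u (om 0 y)

/-! ### Degrees along lines -/

/-- degree at most `D` on all lines -/
def LD (D : ℕ) (R : (ℕ → ℚ) → ℚ) : Prop :=
  ∀ p v : ℕ → ℚ, ∃ g : Polynomial ℚ, g.natDegree ≤ D ∧ ∀ t : ℚ, R (fun i => p i + t * v i) = g.eval t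

lemma LD.mono {D D' : ℕ} {R : (ℕ → ℚ) → ℚ} (h : LD D R) (hD : D ≤ D') : LD D' R := by
  intro p v
  obtain ⟨g, hg, h1⟩ := h p v
  exact ⟨g, hg.trans hD, h1⟩

lemma LD.add {D : ℕ} {R R' : (ℕ → ℚ) → ℚ} (h : LD D R) (h' : LD D R') : LD D fun y => R y + R' y := by
  intro p v
  obtain ⟨g, hg, h1⟩ := h p v
  obtain ⟨g', hg', h1'⟩ := h' p v
  exact ⟨g + g', (Polynomial.natDegree_add_le _ _).trans (max_le hg hg'), fun t => by
    beta_reduce
    rw [h1, h1', Polynomial.eval_add]⟩

lemma LD.mul {D D' : ℕ} {R R' : (ℕ → ℚ) → ℚ} (h : LD D R) (h' : LD D' R') :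
    LD (D + D') fun y => R y * R' y := by
  intro p v
  obtain ⟨g, hg, h1⟩ := h p v
  obtain ⟨g', hg', h1'⟩ := h' p v
  exact ⟨g * g', Polynomial.natDegree_mul_le.trans (add_le_add hg hg'), fun t => by
    beta_reduce
    rw [h1, h1', Polynomial.eval_mul]⟩

lemma LD.const (a : ℚ) : LD 0 fun _ => a := fun _ _ =>
  ⟨Polynomial.C a, by simp, fun t => by simp⟩

lemma LD.pow {D : ℕ} {R : (ℕ → ℚ) → ℚ} (h : LD D R) (m : ℕ) : LD (m * D) fun y => R y ^ m := by
  intro p v
  obtain ⟨g, hg, h1⟩ := h p v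
  exact ⟨g ^ m, Polynomial.natDegree_pow_le.trans (Nat.mul_le_mul_left m hg), fun t => by
    beta_reduce
    rw [h1, Polynomial.eval_pow]⟩

lemma LD.var (i : ℕ) : LD 1 fun y => y i := by
  intro p v
  refine ⟨Polynomial.C (v i) * Polynomial.X + Polynomial.C (p i), ?_, fun t => ?_⟩
  · exact Polynomial.natDegree_linear_le
  · simp
    ring

lemma LD.varPow (i b : ℕ) : LD (2 * b) fun y => y i ^ (2 * b) := by
  have := (LD.var i).pow (2 * b)
  rwa [mul_one] at this

lemma LD.neg {D : ℕ} {R : (ℕ → ℚ) → ℚ} (h : LD D R) : LD D fun y => -R y := by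
  have := (LD.const (-1)).mul h
  rw [zero_add] at this
  simpa using this

lemma LD.diff (i j : ℕ) : LD 1 fun y => y i - y j := by
  have := (LD.var i).add (LD.var j).neg
  simpa [sub_eq_add_neg] using this

lemma LD.diffPow (i j b : ℕ) : LD (2 * b) fun y => (y i - y j) ^ (2 * b) := by
  have := (LD.diff i j).pow (2 * b)
  rwa [mul_one] at this

lemma LD.comp_om {D : ℕ} {R : (ℕ → ℚ) → ℚ} (h : LD D R) (j : ℕ) : LD D fun y => R (om j y) := by
  intro p v
  obtain ⟨g, hg, h1⟩ := h (om j p) (om j v)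
  refine ⟨g, hg, fun t => ?_⟩
  rw [← h1]
  beta_reduce
  congr 1
  funext i
  unfold om
  split_ifs <;> rfl

lemma LD.comp_dl {D : ℕ} {R : (ℕ → ℚ) → ℚ} (h : LD D R) (s : ℕ) : LD D fun y => R (dl s y) := by
  intro p v
  obtain ⟨g, hg, h1⟩ := h (dl s p) (dl s v)
  refine ⟨g, hg, fun t => ?_⟩
  rw [← h1]
  beta_reduce
  congr 1
  funext i
  unfold dl
  ring

lemma LD.comp_dr {D : ℕ} {R : (ℕ → ℚ) → ℚ} (h : LD D R) (s : ℕ) : LD D fun y => R (dr s y) := by
  intro p v
  obtain ⟨g, hg, h1⟩ := h (dr s p) (dr s v)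
  refine ⟨g, hg, fun t => ?_⟩
  rw [← h1]
  beta_reduce
  congr 1
  funext i
  unfold dr
  ring

/-! ### Sums of high powers of linear forms other than `y 0` -/

/-- sums of `ℓ ^ N * R` with linear forms `ℓ = y i`, `1 ≤ i < s`, and `ℓ = y i - y j`, `i ≠ j`, `i, j < s`, and `R` of
degree at most `D` -/
inductive Imp (N D : ℕ) : ℕ → ((ℕ → ℚ) → ℚ) → Prop
  | zero (s : ℕ) : Imp N D s fun _ => 0
  | add {s : ℕ} {h h' : (ℕ → ℚ) → ℚ} : Imp N D s h → Imp N D s h' → Imp N D s fun y => h y + h' y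
  | pure {s : ℕ} (i : ℕ) {R : (ℕ → ℚ) → ℚ} : 1 ≤ i → i < s → LD D R →
      Imp N D s fun y => y i ^ N * R y
  | diff {s : ℕ} (i j : ℕ) {R : (ℕ → ℚ) → ℚ} : i ≠ j → i < s → j < s → LD D R →
      Imp N D s fun y => (y i - y j) ^ N * R y

lemma Imp.congr {N D s : ℕ} {h h' : (ℕ → ℚ) → ℚ} (H : Imp N D s h) (e : ∀ y, h y = h' y) :
    Imp N D s h' := by
  have : h = h' := funext e
  rwa [← this]

lemma Imp.mul {N D D' s : ℕ} {h R' : (ℕ → ℚ) → ℚ} (H : Imp N D s h) (hR : LD D' R') :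
    Imp N (D' + D) s fun y => R' y * h y := by
  induction H with
  | zero => exact (Imp.zero _).congr fun y => by simp
  | add _ _ ih ih' => exact (Imp.add ih ih').congr fun y => by ring
  | pure i h1 h2 hR2 => exact (Imp.pure i h1 h2 (hR.mul hR2)).congr fun y => by ring
  | diff i j h1 h2 h3 hR2 => exact (Imp.diff i j h1 h2 h3 (hR.mul hR2)).congr fun y => by ring

lemma Imp.mono {N D D' s : ℕ} {h : (ℕ → ℚ) → ℚ} (H : Imp N D s h) (hD : D ≤ D') :
    Imp N D' s h := by
  induction H with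
  | zero => exact Imp.zero _
  | add _ _ ih ih' => exact Imp.add ih ih'
  | pure i h1 h2 hR2 => exact Imp.pure i h1 h2 (hR2.mono hD)
  | diff i j h1 h2 h3 hR2 => exact Imp.diff i j h1 h2 h3 (hR2.mono hD)

lemma Imp.neg {N D s : ℕ} {h : (ℕ → ℚ) → ℚ} (H : Imp N D s h) : Imp N D s fun y => -h y := by
  have := H.mul (LD.const (-1))
  rw [zero_add] at this
  exact this.congr fun y => by ring

lemma Imp.more {N D s : ℕ} {h : (ℕ → ℚ) → ℚ} (H : Imp N D s h) : Imp N D (s + 1) h := by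
  induction H with
  | zero => exact Imp.zero _
  | add _ _ ih ih' => exact Imp.add ih ih'
  | pure i h1 h2 hR2 => exact Imp.pure i h1 (by omega) hR2
  | diff i j h1 h2 h3 hR2 => exact Imp.diff i j h1 (by omega) (by omega) hR2

lemma om_at (k i : ℕ) (y : ℕ → ℚ) : BK.om k y i = y (if i < k then i else i + 1) := by
  unfold BK.om
  split_ifs <;> rfl

lemma Imp.om {N D s : ℕ} {h : (ℕ → ℚ) → ℚ} (H : Imp N D s h) (k : ℕ) :
    Imp N D (s + 1) fun y => h (BK.om k y) := by
  induction H with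
  | zero => exact Imp.zero _
  | add _ _ ih ih' => exact Imp.add ih ih'
  | pure i h1 h2 hR2 =>
    refine (Imp.pure (if i < k then i else i + 1) (by split_ifs <;> omega)
      (by split_ifs <;> omega) (hR2.comp_om k)).congr fun y => ?_
    beta_reduce
    rw [om_at k i y]
  | diff i j h1 h2 h3 hR2 =>
    refine (Imp.diff (if i < k then i else i + 1) (if j < k then j else j + 1)
      (by split_ifs <;> omega) (by split_ifs <;> omega) (by split_ifs <;> omega)
      (hR2.comp_om k)).congr fun y => ?_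
    beta_reduce
    rw [om_at k i y, om_at k j y]

lemma Imp.dl {N D s : ℕ} {h : (ℕ → ℚ) → ℚ} (H : Imp N D s h) :
    Imp N D (s + 1) fun y => h (BK.dl s y) := by
  induction H with
  | zero => exact Imp.zero _
  | add _ _ ih ih' => exact Imp.add ih ih'
  | pure i h1 h2 hR2 =>
    exact (Imp.diff i _ (by omega) (by omega) (Nat.lt_succ_self _) (hR2.comp_dl s)).congr fun y => rfl
  | diff i j h1 h2 h3 hR2 =>
    refine (Imp.diff i j h1 (by omega) (by omega) (hR2.comp_dl s)).congr fun y => ?_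
    unfold BK.dl
    ring

lemma Imp.dr {N D s : ℕ} {h : (ℕ → ℚ) → ℚ} (H : Imp N D s h) :
    Imp N D (s + 1) fun y => h (BK.dr s y) := by
  induction H with
  | zero => exact Imp.zero _
  | add _ _ ih ih' => exact Imp.add ih ih'
  | pure i h1 h2 hR2 =>
    exact (Imp.diff (s - i) 0 (by omega) (by omega) (by omega) (hR2.comp_dr s)).congr fun y => rfl
  | diff i j h1 h2 h3 hR2 =>
    refine (Imp.diff (s - i) (s - j) (by omega) (by omega) (by omega) (hR2.comp_dr s)).congr
      fun y => ?_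
    unfold BK.dr
    ring

lemma Imp.sum {N D s : ℕ} {h : ℕ → (ℕ → ℚ) → ℚ} (m : ℕ) (H : ∀ j, j < m → Imp N D s (h j)) :
    Imp N D s fun y => ∑ j ∈ range m, h j y := by
  induction m with
  | zero => exact (Imp.zero s).congr fun y => by simp
  | succ m ih =>
    exact (Imp.add (ih fun j hj => H j (by omega)) (H m (Nat.lt_succ_self m))).congr fun y => by
      rw [sum_range_succ]

/-! ### The decomposition -/

lemma LD.comp {D s b : ℕ} {g : (ℕ → ℚ) → ℚ} (h : LD D g) : LD (2 * b + D) (BK.comp s b g) := by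
  have h1 : LD (2 * b + D) fun y => y s ^ (2 * b) * g y := (LD.varPow s b).mul h
  have h2 : ∀ m, LD (2 * b + D) fun y => ∑ j ∈ range m,
      (y j - y (j + 1)) ^ (2 * b) * (g (om j y) - g (om (j + 1) y)) := by
    intro m
    induction m with
    | zero =>
      have := (LD.const 0).mono (Nat.zero_le (2 * b + D))
      simpa using this
    | succ m ih =>
      have h3 := (LD.diffPow m (m + 1) b).mul ((h.comp_om m).add (h.comp_om (m + 1)).neg)
      have h4 := ih.add h3
      have h5 : (fun y : ℕ → ℚ => ∑ j ∈ range (m + 1),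
          (y j - y (j + 1)) ^ (2 * b) * (g (om j y) - g (om (j + 1) y))) = fun y =>
          ∑ j ∈ range m, (y j - y (j + 1)) ^ (2 * b) * (g (om j y) - g (om (j + 1) y)) +
          (y m - y (m + 1)) ^ (2 * b) * (g (om m y) + -g (om (m + 1) y)) := by
        funext y
        rw [sum_range_succ]
        ring
      rw [h5]
      exact h4
  exact h1.add (h2 s)

lemma qf_LD : ∀ u : List ℕ, LD (2 * u.sum) (qf u)
  | [] => by
      have := LD.const 1
      exact this
  | b :: u => by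
      have h := qf_LD u
      have h1 := (LD.comp (s := u.length + 1) (b := b) h).add
        ((LD.diffPow 0 1 b).mul (h.comp_om 0)).neg
      have h2 : 2 * (b :: u).sum = 2 * b + 2 * u.sum := by
        rw [List.sum_cons]
        ring
      rw [h2]
      have h3 : qf (b :: u) = fun y => BK.comp (u.length + 1) b (qf u) y +
          -((y 0 - y 1) ^ (2 * b) * qf u (om 0 y)) := by
        funext y
        conv_lhs => unfold qf
        ring
      rw [h3]
      exact h1

/-- the action on `y 0 ^ N * q + (sum of other high powers)` -/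
lemma comp_dec {N D s b : ℕ} (hs : 1 ≤ s) {q h g : (ℕ → ℚ) → ℚ} (hq : LD D q) (H : Imp N D s h)
    (hg : ∀ y, g y = y 0 ^ N * q y + h y) :
    ∃ h' : (ℕ → ℚ) → ℚ, Imp N (2 * b + D) (s + 1) h' ∧ ∀ y, BK.comp s b g y =
      y 0 ^ N * (BK.comp s b q y - (y 0 - y 1) ^ (2 * b) * q (om 0 y)) + h' y := by
  refine ⟨fun y => (y 0 - y 1) ^ (2 * b) * (y 1 ^ N * q (om 0 y)) + (y s ^ (2 * b) * h y +
    ∑ j ∈ range s, (y j - y (j + 1)) ^ (2 * b) * (h (om j y) + -h (om (j + 1) y))), ?_, ?_⟩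
  · refine Imp.add ?_ (Imp.add (H.more.mul (LD.varPow s b)) (Imp.sum s fun j hj => ?_))
    · exact (Imp.pure 1 le_rfl (by omega) (hq.comp_om 0)).mul (LD.diffPow 0 1 b)
    · exact (Imp.add (H.om j) (H.om (j + 1)).neg).mul (LD.diffPow j (j + 1) b)
  · intro y
    obtain ⟨s, rfl⟩ : ∃ s', s = s' + 1 := ⟨s - 1, by omega⟩
    unfold BK.comp
    simp only [hg]
    rw [sum_range_succ', sum_range_succ', sum_range_succ']
    have e1 : ∀ k, (om (k + 1) y) 0 = y 0 := fun k => by
      unfold om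
      rw [if_pos (by omega)]
    have e2 : (om 0 y) 0 = y 1 := by
      unfold om
      rw [if_neg (by omega)]
    have e3 : ∑ k ∈ range s, (y (k + 1) - y (k + 1 + 1)) ^ (2 * b) *
        (((om (k + 1) y) 0) ^ N * q (om (k + 1) y) + h (om (k + 1) y) -
          (((om (k + 1 + 1) y) 0) ^ N * q (om (k + 1 + 1) y) + h (om (k + 1 + 1) y))) =
        y 0 ^ N * ∑ k ∈ range s, (y (k + 1) - y (k + 1 + 1)) ^ (2 * b) *
          (q (om (k + 1) y) - q (om (k + 1 + 1) y)) +
        ∑ k ∈ range s, (y (k + 1) - y (k + 1 + 1)) ^ (2 * b) *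
          (h (om (k + 1) y) + -h (om (k + 1 + 1) y)) := by
      rw [mul_sum, ← sum_add_distrib]
      refine sum_congr rfl fun k _ => ?_
      rw [e1, e1]
      ring
    rw [e3, e2, e1]
    ring

/-- the decomposition of the iterated brackets -/
theorem Z_dec (β : ℕ) : ∀ u : List ℕ, ∃ h : (ℕ → ℚ) → ℚ, Imp (2 * β) (2 * u.sum) (u.length + 1) h ∧
    ∀ y, Z β u y = y 0 ^ (2 * β) * qf u y + h y
  | [] => ⟨fun _ => 0, Imp.zero _, fun y => by simp [Z, qf]⟩
  | b :: u => by
      obtain ⟨h, hI, hZ⟩ := Z_dec β u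
      have hq := qf_LD u
      obtain ⟨h', hI', hc⟩ := comp_dec (b := b) (by omega : 1 ≤ u.length + 1) hq hI hZ
      set s := u.length + 1 with hs
      have e2 : 2 * (b :: u).sum = 2 * b + 2 * u.sum := by
        rw [List.sum_cons]
        ring
      rw [e2]
      refine ⟨fun y => h' y + (-(y 0 ^ (2 * b) * (y 1 ^ (2 * β) * qf u (om 0 y) + h (om 0 y))) +
        (-(y s ^ (2 * b) * ((y 0 - y s) ^ (2 * β) * qf u (dl s y) + h (dl s y))) +
        -(((-1) ^ s * y 0 ^ (2 * b)) * ((y s - y 0) ^ (2 * β) * qf u (dr s y) + h (dr s y))))),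
        ?_, ?_⟩
      · refine Imp.add hI' (Imp.add (Imp.neg ?_) (Imp.add (Imp.neg ?_) (Imp.neg ?_)))
        · exact (Imp.add (Imp.pure 1 le_rfl (by omega) (hq.comp_om 0)) (hI.om 0)).mul
            (LD.varPow 0 b)
        · exact (Imp.add (Imp.diff 0 s (by omega) (by omega) (by omega) (hq.comp_dl s))
            hI.dl).mul (LD.varPow s b)
        · have hL : LD (2 * b) fun y : ℕ → ℚ => (-1) ^ s * y 0 ^ (2 * b) := by
            have := (LD.const ((-1) ^ s)).mul (LD.varPow 0 b)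
            rwa [zero_add] at this
          exact (Imp.add (Imp.diff s 0 (by omega) (by omega) (by omega) (hq.comp_dr s))
            hI.dr).mul hL
      · intro y
        have e3 : Z β (b :: u) y = br s b (Z β u) y := rfl
        have e4 : qf (b :: u) y = BK.comp s b (qf u) y - (y 0 - y 1) ^ (2 * b) * qf u (om 0 y) := rfl
        rw [e3, e4]
        unfold br
        rw [hc, hZ, hZ, hZ]
        have e5 : (om 0 y) 0 = y 1 := by
          unfold om
          rw [if_neg (by omega)]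
        have e6 : (dl s y) 0 = y 0 - y s := rfl
        have e7 : (dr s y) 0 = y s - y 0 := by
          unfold dr
          rw [Nat.sub_zero]
        rw [e5, e6, e7]
        ring

end Pool.Agent.N568.BK
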