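import Pool.Agent.N568.BK.Main

/-!
# The polynomials (helper568)

The words as polynomial functions, and their coefficients.
-/

set_option autoImplicit false

namespace Pool.Agent.N568.BK

open Finset

/-- The linearized Ihara action `g ↦ f ∘ g` of `f = x ^ (2 b)`, variables numbered from the right. -/
def act (b : ℕ) : (List ℚ → ℚ) → List ℚ → ℚ
  | _, [] => 0
  | g, [y] => y ^ (2 * b) * g []
  | g, y :: z :: ys => act b (fun l => g (y :: l)) (z :: ys) +
      (y - z) ^ (2 * b) * (g (z :: ys) - g (y :: ys))

/-- the words -/
def word : List ℕ → List ℚ → ℚ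
  | [], _ => 1
  | b :: u, ys => act b (word u) ys

/-- the polynomial function with the coefficients `g`, exponents smaller than `K` -/
def P (K : ℕ) : (List ℕ → ℚ) → List ℚ → ℚ
  | g, [] => g []
  | g, y :: ys => ∑ k ∈ range K, y ^ k * P K (fun e => g (k :: e)) ys

lemma P_smul (K : ℕ) (s : ℚ) : ∀ (ys : List ℚ) (g : List ℕ → ℚ),
    P K (fun e => s * g e) ys = s * P K g ys
  | [], _ => rfl
  | y :: ys, g => by
      unfold P
      rw [mul_sum]
      refine sum_congr rfl fun k _ => ?_
      rw [P_smul K s ys (fun e => g (k :: e))]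
      ring

lemma P_add (K : ℕ) : ∀ (ys : List ℚ) (g g' : List ℕ → ℚ),
    P K (fun e => g e + g' e) ys = P K g ys + P K g' ys
  | [], _, _ => rfl
  | y :: ys, g, g' => by
      unfold P
      rw [← sum_add_distrib]
      refine sum_congr rfl fun k _ => ?_
      rw [P_add K ys (fun e => g (k :: e)) (fun e => g' (k :: e))]
      ring

lemma P_zero (K : ℕ) (ys : List ℚ) : P K (fun _ => 0) ys = 0 := by
  have := P_smul K 0 ys (fun _ => 0)
  simpa using this

lemma act_lin (b : ℕ) {ι : Type} (s : Finset ι) (a : ι → ℚ) : ∀ (ys : List ℚ) (G : ι → List ℚ → ℚ),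
    act b (fun l => ∑ i ∈ s, a i * G i l) ys = ∑ i ∈ s, a i * act b (G i) ys
  | [], _ => by simp [act]
  | [y], G => by
      unfold act
      rw [mul_sum]
      exact sum_congr rfl fun i _ => by ring
  | y :: z :: ys, G => by
      unfold act
      rw [act_lin b s a (z :: ys) (fun i l => G i (y :: l)), ← sum_sub_distrib, mul_sum,
        ← sum_add_distrib]
      exact sum_congr rfl fun i _ => by ring

lemma act_congr (b : ℕ) : ∀ (ys : List ℚ) (G G' : List ℚ → ℚ),
    (∀ l : List ℚ, l.length + 1 = ys.length → G l = G' l) → act b G ys = act b G' ys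
  | [], _, _, _ => rfl
  | [y], G, G', h => by
      unfold act
      rw [h [] rfl]
  | y :: z :: ys, G, G', h => by
      unfold act
      rw [act_congr b (z :: ys) (fun l => G (y :: l)) (fun l => G' (y :: l)) (fun l hl =>
        h (y :: l) (by simpa using hl)), h (z :: ys) (by simp), h (y :: ys) (by simp)]

lemma shift_sum (t K : ℕ) (h : ℕ → ℚ) (hh : ∀ m, K ≤ m + t → h m = 0) (y : ℚ) :
    ∑ l ∈ range K, (if t ≤ l then h (l - t) else 0) * y ^ l = y ^ t * ∑ m ∈ range K, y ^ m * h m := by
  have h1 : ∑ l ∈ range K, (if t ≤ l then h (l - t) else 0) * y ^ l =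
      ∑ l ∈ Ico t K, h (l - t) * y ^ l := by
    have : Ico t K = (range K).filter (fun l => t ≤ l) := by
      ext l
      simp only [mem_Ico, mem_filter, mem_range]
      tauto
    rw [this, sum_filter]
    refine sum_congr rfl fun l _ => ?_
    split_ifs <;> simp
  rw [h1, sum_Ico_eq_sum_range, mul_sum]
  have h2 : ∑ m ∈ range K, y ^ t * (y ^ m * h m) = ∑ m ∈ range (K - t), y ^ t * (y ^ m * h m) := by
    symm
    apply sum_subset
    · intro m hm
      rw [mem_range] at hm ⊢
      omega
    · intro m hm hm'
      rw [mem_range] at hm hm'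
      rw [hh m (by omega)]
      ring
  rw [h2]
  refine sum_congr rfl fun m _ => ?_
  rw [Nat.add_sub_cancel_left, pow_add]
  ring

lemma bin (b D K : ℕ) (hK : D + 2 * b < K) (h : ℕ → ℚ) (hh : ∀ m, D < m → h m = 0) (x y : ℚ) :
    ∑ k ∈ range K, ∑ l ∈ range K, (if 2 * b ≤ k + l then
      ((-1) ^ k * ((2 * b).choose k : ℚ)) * h (k + l - 2 * b) else 0) * (x ^ k * y ^ l) =
      (x - y) ^ (2 * b) * ∑ m ∈ range K, y ^ m * h m := by
  rw [sub_eq_add_neg, add_pow, sum_mul]
  have h1 : ∀ k ∈ range K, ∑ l ∈ range K, (if 2 * b ≤ k + l then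
      ((-1) ^ k * ((2 * b).choose k : ℚ)) * h (k + l - 2 * b) else 0) * (x ^ k * y ^ l) =
      if k < 2 * b + 1 then x ^ k * (-y) ^ (2 * b - k) * ((2 * b).choose k : ℚ) *
        ∑ m ∈ range K, y ^ m * h m else 0 := by
    intro k _
    by_cases hk : k < 2 * b + 1
    · rw [if_pos hk]
      have h2 := shift_sum (2 * b - k) K h (fun m hm => hh m (by omega)) y
      have h3 : (-1 : ℚ) ^ k * y ^ (2 * b - k) = (-y) ^ (2 * b - k) := by
        rw [neg_pow y]
        congr 1
        have h4 : (-1 : ℚ) ^ k * (-1) ^ k = 1 := by
          rw [← mul_pow]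
          norm_num
        have h5 : (-1 : ℚ) ^ (2 * b - k) * (-1) ^ k = 1 := by
          rw [← pow_add, Nat.sub_add_cancel (by omega), pow_mul]
          norm_num
        have h6 : (-1 : ℚ) ^ k ≠ 0 := by
          intro h7
          rw [h7] at h4
          norm_num at h4
        exact mul_right_cancel₀ h6 (h4.trans h5.symm)
      calc ∑ l ∈ range K, (if 2 * b ≤ k + l then
            ((-1) ^ k * ((2 * b).choose k : ℚ)) * h (k + l - 2 * b) else 0) * (x ^ k * y ^ l)
          = ∑ l ∈ range K, x ^ k * ((-1) ^ k * ((2 * b).choose k : ℚ)) *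
            ((if 2 * b - k ≤ l then h (l - (2 * b - k)) else 0) * y ^ l) := by
            refine sum_congr rfl fun l _ => ?_
            by_cases hl : 2 * b ≤ k + l
            · rw [if_pos hl, if_pos (by omega)]
              have h7 : l - (2 * b - k) = k + l - 2 * b := by omega
              rw [h7]
              ring
            · rw [if_neg hl, if_neg (by omega)]
              ring
        _ = x ^ k * ((-1) ^ k * ((2 * b).choose k : ℚ)) *
            (y ^ (2 * b - k) * ∑ m ∈ range K, y ^ m * h m) := by
            rw [← mul_sum, h2]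
        _ = x ^ k * ((-1) ^ k * y ^ (2 * b - k)) * ((2 * b).choose k : ℚ) *
            ∑ m ∈ range K, y ^ m * h m := by ring
        _ = _ := by rw [h3]
    · rw [if_neg hk]
      refine sum_eq_zero fun l _ => ?_
      rw [Nat.choose_eq_zero_of_lt (by omega : 2 * b < k)]
      simp
  rw [sum_congr rfl h1, ← sum_filter]
  refine sum_congr ?_ fun k _ => rfl
  ext k
  simp only [mem_filter, mem_range]
  omega

/-- degree at most `D` -/
def BD (D : ℕ) (g : List ℕ → ℚ) : Prop := ∀ e : List ℕ, D < e.sum → g e = 0

theorem step (b D K : ℕ) (hK : D + 2 * b < K) : ∀ (ys : List ℚ) (g : List ℕ → ℚ), BD D g →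
    ys ≠ [] → act b (P K g) ys = P K (A b g) ys
  | [], _, _, h => absurd rfl h
  | [y], g, _, _ => by
      unfold act P
      unfold P
      rw [sum_eq_single (2 * b)]
      · simp [A]
      · intro k _ hk
        simp [A, hk]
      · intro h
        rw [mem_range] at h
        omega
  | y :: z :: ys, g, hg, _ => by
      have hgk : ∀ k, BD D fun e => g (k :: e) := by
        intro k e he
        apply hg
        rw [List.sum_cons]
        omega
      set h : ℕ → ℚ := fun m => P K (fun e => g (m :: e)) ys with hh
      have hh0 : ∀ m, D < m → h m = 0 := by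
        intro m hm
        have h1 : (fun e => g (m :: e)) = fun _ => 0 := by
          funext e
          apply hg
          rw [List.sum_cons]
          omega
        simp only [hh]
        rw [h1, P_zero]
      -- the first part
      have e1 : act b (fun l => P K g (y :: l)) (z :: ys) =
          ∑ k ∈ range K, y ^ k * P K (A b fun e => g (k :: e)) (z :: ys) := by
        have h1 : (fun l => P K g (y :: l)) =
            fun l => ∑ k ∈ range K, y ^ k * P K (fun e => g (k :: e)) l := by
          funext l
          conv_lhs => unfold P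
        rw [h1, act_lin b (range K) (fun k => y ^ k) (z :: ys) (fun k => P K fun e => g (k :: e))]
        refine sum_congr rfl fun k _ => ?_
        rw [step b D K hK (z :: ys) (fun e => g (k :: e)) (hgk k) (by simp)]
      have e2 : ∀ w : ℚ, P K g (w :: ys) = ∑ m ∈ range K, w ^ m * h m := by
        intro w
        conv_lhs => unfold P
      have e3 : P K (A b g) (y :: z :: ys) = ∑ k ∈ range K, y ^ k *
          (P K (A b fun e => g (k :: e)) (z :: ys) + ∑ l ∈ range K, z ^ l *
            ((if 2 * b ≤ k + l then ((-1) ^ k * ((2 * b).choose k : ℚ) -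
              (-1) ^ l * ((2 * b).choose l : ℚ)) else 0) * h (k + l - 2 * b))) := by
        conv_lhs => unfold P
        refine sum_congr rfl fun k _ => ?_
        congr 1
        conv_lhs => unfold P
        conv_rhs => unfold P
        rw [← sum_add_distrib]
        refine sum_congr rfl fun l _ => ?_
        rw [← mul_add]
        congr 1
        have e4 : (fun e => A b g (k :: l :: e)) = fun e => A b (fun e' => g (k :: e')) (l :: e) +
            (if 2 * b ≤ k + l then ((-1) ^ k * ((2 * b).choose k : ℚ) -
              (-1) ^ l * ((2 * b).choose l : ℚ)) else 0) * g ((k + l - 2 * b) :: e) := by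
          funext e
          conv_lhs => unfold A
          congr 1
          split_ifs <;> ring
        rw [e4, P_add, P_smul]
      have e5 := bin b D K hK h hh0 y z
      have e6 := bin b D K hK h hh0 z y
      conv_lhs => unfold act
      rw [e1, e2, e2, e3]
      have e7 : ∑ k ∈ range K, y ^ k * (P K (A b fun e => g (k :: e)) (z :: ys) +
          ∑ l ∈ range K, z ^ l * ((if 2 * b ≤ k + l then ((-1) ^ k * ((2 * b).choose k : ℚ) -
              (-1) ^ l * ((2 * b).choose l : ℚ)) else 0) * h (k + l - 2 * b))) =
          ∑ k ∈ range K, y ^ k * P K (A b fun e => g (k :: e)) (z :: ys) +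
          (∑ k ∈ range K, ∑ l ∈ range K, (if 2 * b ≤ k + l then
            ((-1) ^ k * ((2 * b).choose k : ℚ)) * h (k + l - 2 * b) else 0) * (y ^ k * z ^ l) -
          ∑ l ∈ range K, ∑ k ∈ range K, (if 2 * b ≤ l + k then
            ((-1) ^ l * ((2 * b).choose l : ℚ)) * h (l + k - 2 * b) else 0) * (z ^ l * y ^ k)) := by
        rw [sum_comm (s := range K) (t := range K) (f := fun l k => (if 2 * b ≤ l + k then
            ((-1) ^ l * ((2 * b).choose l : ℚ)) * h (l + k - 2 * b) else 0) * (z ^ l * y ^ k)),
          ← sum_sub_distrib, ← sum_add_distrib]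
        refine sum_congr rfl fun k _ => ?_
        rw [mul_add, ← sum_sub_distrib]
        congr 1
        rw [mul_sum]
        refine sum_congr rfl fun l _ => ?_
        rw [add_comm l k]
        split_ifs <;> ring
      rw [e7, e5, e6]
      have e8 : (z - y) ^ (2 * b) = (y - z) ^ (2 * b) := by
        rw [pow_mul, pow_mul]
        congr 1
        ring
      rw [e8]
      ring

lemma A_deg (b D : ℕ) : ∀ (e : List ℕ) (g : List ℕ → ℚ), (∀ e', e'.sum ≠ D → g e' = 0) →
    e.sum ≠ D + 2 * b → A b g e = 0
  | [], _, _, _ => rfl
  | [k], g, hg, he => by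
      unfold A
      split_ifs with h
      · apply hg
        simp at he ⊢
        omega
      · rfl
  | k :: l :: e, g, hg, he => by
      unfold A
      rw [List.sum_cons, List.sum_cons] at he
      have h2 : (if 2 * b ≤ k + l then
        ((-1) ^ k * ((2 * b).choose k : ℚ) - (-1) ^ l * ((2 * b).choose l : ℚ)) *
          g ((k + l - 2 * b) :: e) else 0) = 0 := by
        split_ifs with h
        · rw [hg _ (by rw [List.sum_cons]; omega), mul_zero]
        · rfl
      rw [h2, add_zero]
      by_cases hk : k ≤ D
      · refine A_deg b (D - k) (l :: e) _ ?_ (by rw [List.sum_cons]; omega)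
        intro e' he'
        exact hg _ (by rw [List.sum_cons]; omega)
      · have h3 : (fun e' => g (k :: e')) = fun _ => 0 := by
          funext e'
          exact hg _ (by rw [List.sum_cons]; omega)
        rw [h3, A_zero]

/-- homogeneity -/
theorem c_deg : ∀ (b e : List ℕ), e.sum ≠ 2 * b.sum → c b e = 0
  | [], e, h => by
      unfold c
      rw [if_neg]
      rintro rfl
      simp at h
  | b :: u, e, h => by
      unfold c
      refine A_deg b (2 * u.sum) e _ (fun e' he' => c_deg u e' he') ?_
      rw [List.sum_cons] at h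
      omega

theorem word_eq : ∀ (b : List ℕ) (ys : List ℚ) (K : ℕ), ys.length = b.length → 2 * b.sum < K →
    word b ys = P K (c b) ys
  | [], ys, K, h, _ => by
      have : ys = [] := by simpa using h
      subst this
      simp [word, P, c]
  | b :: u, ys, K, h, hK => by
      rw [List.sum_cons] at hK
      have h1 : word (b :: u) ys = act b (P K (c u)) ys := by
        conv_lhs => unfold word
        apply act_congr
        intro l hl
        exact word_eq u l K (by rw [List.length_cons] at h; omega) (by omega)
      rw [h1, step b (2 * u.sum) K (by omega) ys (c u) (fun e he => c_deg u e (by omega)) (by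
        rintro rfl
        simp at h)]
      rfl

end Pool.Agent.N568.BK
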