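import Mathlib

/-!
# The coefficients of the words in the depth one generators (helper568)

`A b g` is the array of the coefficients of `f ∘ g`, `f = x ^ (2 b)`, where `g` is given by the array
of its coefficients. The variables are numbered from the right.
-/

set_option autoImplicit false

namespace Pool.Agent.N568.BK

open Finset

/-- one step -/
def A (b : ℕ) : (List ℕ → ℚ) → List ℕ → ℚ
  | _, [] => 0
  | g, [k] => if k = 2 * b then g [] else 0
  | g, k :: l :: e => A b (fun e' => g (k :: e')) (l :: e) +
      if 2 * b ≤ k + l then
        ((-1) ^ k * ((2 * b).choose k : ℚ) - (-1) ^ l * ((2 * b).choose l : ℚ)) *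
          g ((k + l - 2 * b) :: e)
      else 0

/-- the coefficients of the words -/
def c : List ℕ → List ℕ → ℚ
  | [], e => if e = [] then 1 else 0
  | b :: u, e => A b (c u) e

/-- one step, the first variable is kept -/
def Q (b : ℕ) (g : List ℕ → ℚ) : List ℕ → ℚ
  | [] => 0
  | [_] => 0
  | k :: l :: e => A b (fun e' => g (k :: e')) (l :: e) -
      if 2 * b ≤ k + l then ((-1) ^ l * ((2 * b).choose l : ℚ)) * g ((k + l - 2 * b) :: e) else 0

/-- the coefficients of the multiplier of the innermost letter at the first variable -/
def q : List ℕ → List ℕ → ℚ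
  | [], e => if e = [0] then 1 else 0
  | b :: u, e => Q b (q u) e

lemma A_congr (b : ℕ) : ∀ (e : List ℕ) (g g' : List ℕ → ℚ),
    (∀ e' : List ℕ, e'.length + 1 = e.length → g e' = g' e') → A b g e = A b g' e
  | [], _, _, _ => rfl
  | [k], g, g', h => by
      unfold A
      rw [h [] rfl]
  | k :: l :: e, g, g', h => by
      unfold A
      rw [A_congr b (l :: e) (fun e' => g (k :: e')) (fun e' => g' (k :: e')) (fun e' he' =>
        h (k :: e') (by simpa using he')), h ((k + l - 2 * b) :: e) (by simp)]

lemma A_smul (b : ℕ) (s : ℚ) : ∀ (e : List ℕ) (g : List ℕ → ℚ),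
    A b (fun e' => s * g e') e = s * A b g e
  | [], _ => by simp [A]
  | [k], g => by
      unfold A
      split_ifs <;> simp
  | k :: l :: e, g => by
      unfold A
      rw [A_smul b s (l :: e) (fun e' => g (k :: e'))]
      split_ifs <;> ring

lemma A_zero (b : ℕ) (e : List ℕ) : A b (fun _ => 0) e = 0 := by
  have := A_smul b 0 e (fun _ => 0)
  simpa using this

/-- the dominant part -/
theorem dom (V : List ℕ → List ℕ → ℚ) (s : ℚ) (m : ℕ)
    (h0 : ∀ k : ℕ, V [] [k] = if k = m then s else 0)
    (hs : ∀ (b : ℕ) (u : List ℕ) (k l : ℕ) (e : List ℕ), e.length = u.length → 2 * b < k →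
      V (b :: u) (k :: l :: e) = A b (fun e' => V u (k :: e')) (l :: e) -
        if 2 * b ≤ k + l then ((-1) ^ l * ((2 * b).choose l : ℚ)) * V u ((k + l - 2 * b) :: e)
        else 0) :
    ∀ (u e : List ℕ) (k : ℕ), e.length = u.length → 2 * u.sum < k →
      V u (k :: e) = if m ≤ k then s * q u ((k - m) :: e) else 0 := by
  intro u
  induction u with
  | nil =>
    intro e k he hk
    have he' : e = [] := by simpa using he
    subst he'
    rw [h0]
    unfold q
    by_cases h1 : k = m
    · subst h1
      simp
    · rw [if_neg h1]
      by_cases h2 : m ≤ k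
      · rw [if_pos h2, if_neg (by simp; omega), mul_zero]
      · rw [if_neg h2]
  | cons b u ih =>
    intro e k he hk
    rcases e with _ | ⟨l, e⟩
    · simp at he
    have he' : e.length = u.length := by simpa using he
    rw [List.sum_cons] at hk
    rw [hs b u k l e he' (by omega)]
    have hA : A b (fun e' => V u (k :: e')) (l :: e) =
        A b (fun e' => if m ≤ k then s * q u ((k - m) :: e') else 0) (l :: e) := by
      apply A_congr
      intro e'' he''
      exact ih e'' k (by simp at he''; omega) (by omega)
    rw [hA]
    have hq : q (b :: u) ((k - m) :: l :: e) = A b (fun e' => q u ((k - m) :: e')) (l :: e) -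
      if 2 * b ≤ (k - m) + l then ((-1) ^ l * ((2 * b).choose l : ℚ)) *
        q u (((k - m) + l - 2 * b) :: e) else 0 := by
      conv_lhs => unfold q
      rfl
    rw [hq]
    have hterm : (if 2 * b ≤ k + l then ((-1) ^ l * ((2 * b).choose l : ℚ)) *
        V u ((k + l - 2 * b) :: e) else 0) =
        if m ≤ k then s * (if 2 * b ≤ (k - m) + l then ((-1) ^ l * ((2 * b).choose l : ℚ)) *
        q u (((k - m) + l - 2 * b) :: e) else 0) else 0 := by
      by_cases hl : l ≤ 2 * b
      · by_cases h1 : 2 * b ≤ k + l
        · rw [if_pos h1, ih e (k + l - 2 * b) he' (by omega)]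
          by_cases h2 : m ≤ k
          · rw [if_pos h2]
            by_cases h3 : 2 * b ≤ (k - m) + l
            · rw [if_pos h3, if_pos (by omega)]
              have h4 : k + l - 2 * b - m = k - m + l - 2 * b := by omega
              rw [h4]
              ring
            · rw [if_neg h3, if_neg (by omega)]
              ring
          · rw [if_neg h2, if_neg (by omega), mul_zero]
        · exfalso
          omega
      · have h5 : (2 * b).choose l = 0 := Nat.choose_eq_zero_of_lt (by omega)
        rw [h5]
        simp
    rw [hterm]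
    by_cases h2 : m ≤ k
    · simp only [if_pos h2]
      rw [A_smul]
      ring
    · simp only [if_neg h2]
      rw [A_zero, sub_zero]

/-- no constant term -/
theorem zero_term : ∀ (u e : List ℕ), u ≠ [] → e.length = u.length → q u (0 :: e) = 0
  | [], _, h, _ => absurd rfl h
  | b :: u, [], _, h => by simp at h
  | b :: u, l :: e, _, h => by
      have he' : e.length = u.length := by simpa using h
      have hq : q (b :: u) (0 :: l :: e) = A b (fun e' => q u (0 :: e')) (l :: e) -
        if 2 * b ≤ 0 + l then ((-1) ^ l * ((2 * b).choose l : ℚ)) *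
          q u ((0 + l - 2 * b) :: e) else 0 := by
        conv_lhs => unfold q
        rfl
      rw [hq]
      rcases u with _ | ⟨b', u⟩
      · have : e = [] := by simpa using he'
        subst this
        unfold A q
        by_cases h1 : l = 2 * b
        · subst h1
          simp
        · rw [if_neg h1]
          by_cases h2 : 2 * b ≤ 0 + l
          · rw [if_pos h2, if_neg (by simp; omega)]
            simp
          · rw [if_neg h2]
            simp
      · have hA : A b (fun e' => q (b' :: u) (0 :: e')) (l :: e) = A b (fun _ => 0) (l :: e) := by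
          apply A_congr
          intro e' he''
          exact zero_term (b' :: u) e' (by simp) (by simp at he'' he' ⊢; omega)
        rw [hA, A_zero]
        by_cases h1 : l = 2 * b
        · subst h1
          have h2 : 0 + 2 * b - 2 * b = 0 := by omega
          rw [h2, zero_term (b' :: u) e (by simp) he']
          simp
        · by_cases h2 : 2 * b ≤ 0 + l
          · have h5 : (2 * b).choose l = 0 := Nat.choose_eq_zero_of_lt (by omega)
            rw [h5]
            simp
          · rw [if_neg h2]
            simp

/-- the dominant part of the words -/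
theorem dom_c (β : ℕ) (u e : List ℕ) (k : ℕ) (he : e.length = u.length) (hk : 2 * u.sum < k) :
    c (u ++ [β]) (k :: e) = if 2 * β ≤ k then 1 * q u ((k - 2 * β) :: e) else 0 := by
  refine dom (fun u => c (u ++ [β])) 1 (2 * β) ?_ ?_ u e k he hk
  · intro k
    simp [c, A]
  · intro b u k l e he hk
    have h1 : c (b :: u ++ [β]) (k :: l :: e) = A b (c (u ++ [β])) (k :: l :: e) := by
      rw [List.cons_append]
      rfl
    rw [h1]
    conv_lhs => unfold A
    have h5 : (2 * b).choose k = 0 := Nat.choose_eq_zero_of_lt (by omega)
    rw [h5, sub_eq_add_neg]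
    congr 1
    split_ifs
    · push_cast
      ring
    · simp

/-- the dominant part of the second coefficient -/
theorem dom_q (β : ℕ) (hβ : 1 ≤ β) (u e : List ℕ) (k : ℕ) (he : e.length = u.length)
    (hk : 2 * u.sum < k) :
    q (u ++ [β]) (2 :: k :: e) =
      if 2 * β - 2 ≤ k then -((2 * β).choose 2 : ℚ) * q u ((k - (2 * β - 2)) :: e) else 0 := by
  refine dom (fun u e => q (u ++ [β]) (2 :: e)) (-((2 * β).choose 2 : ℚ)) (2 * β - 2) ?_ ?_ u e k he hk
  · intro k
    simp only [List.nil_append]
    have hq : q [β] [2, k] = A β (fun e' => q [] (2 :: e')) [k] -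
        if 2 * β ≤ 2 + k then ((-1) ^ k * ((2 * β).choose k : ℚ)) *
          q [] [2 + k - 2 * β] else 0 := by
      conv_lhs => unfold q
      rfl
    rw [hq]
    unfold A q
    by_cases h1 : k = 2 * β - 2
    · subst h1
      have h2 : 2 + (2 * β - 2) - 2 * β = 0 := by omega
      have h3 : Even (2 * β - 2) := ⟨β - 1, by omega⟩
      have h4 : (2 * β).choose (2 * β - 2) = (2 * β).choose 2 := Nat.choose_symm (by omega)
      rw [h2, h3.neg_one_pow, h4, if_pos (by omega : 2 * β ≤ 2 + (2 * β - 2))]
      simp
    · rw [if_neg h1]
      by_cases h2 : 2 * β ≤ 2 + k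
      · rw [if_pos h2, if_neg (by simp; omega : ¬ ([2 + k - 2 * β] = [0]))]
        simp
      · rw [if_neg h2]
        simp
  · intro b u k l e he hk
    have h1 : q (b :: u ++ [β]) (2 :: k :: l :: e) =
        A b (fun e' => q (u ++ [β]) (2 :: e')) (k :: l :: e) -
        if 2 * b ≤ 2 + k then ((-1) ^ k * ((2 * b).choose k : ℚ)) *
          q (u ++ [β]) ((2 + k - 2 * b) :: l :: e) else 0 := by
      rw [List.cons_append]
      conv_lhs => unfold q
      rfl
    rw [h1]
    have h5 : (2 * b).choose k = 0 := Nat.choose_eq_zero_of_lt (by omega)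
    rw [h5]
    conv_lhs => unfold A
    rw [h5]
    simp only [Nat.cast_zero, mul_zero, zero_mul, ite_self, sub_zero, zero_sub, neg_mul]
    rw [sub_eq_add_neg]
    congr 1
    split_ifs <;> simp

end Pool.Agent.N568.BK
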