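import Pool.Agent.N568.BK.Main

/-!
# Triangularity for superincreasing words (helper568)
-/

set_option autoImplicit false

namespace Pool.Agent.N568.BK

open Finset

/-- every entry is larger than the sum of the entries before it -/
def SI (b : List ℕ) : Prop := ∀ (u : List ℕ) (β : ℕ) (v : List ℕ), b = u ++ β :: v → u.sum < β

/-- even entries, at least two -/
def Ev (d : ℕ) (e : List ℕ) : Prop := e.length = d ∧ ∀ x ∈ e, Even x ∧ 2 ≤ x

/-- a finite family of superincreasing lists of length `d` and sum `n` -/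
def Fam (d n : ℕ) (F : Finset (List ℕ)) : Prop :=
  ∀ b ∈ F, b.length = d ∧ b.sum = n ∧ SI b ∧ ∀ x ∈ b, 2 ≤ x

/-- the rows of such families are linearly independent on the totally even exponents -/
def Ind (d : ℕ) (R : List ℕ → List ℕ → ℚ) : Prop :=
  ∀ (n : ℕ) (F : Finset (List ℕ)) (lam : List ℕ → ℚ), Fam d n F →
    (∀ e, Ev d e → ∑ b ∈ F, lam b * (R b e : ℚ) = 0) → ∀ b ∈ F, lam b = 0

/-- the last entry -/
def la (b : List ℕ) : ℕ := b.sum - b.dropLast.sum

lemma la_concat (u : List ℕ) (β : ℕ) : la (u ++ [β]) = β := by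
  unfold la
  rw [List.dropLast_concat, List.sum_append]
  simp

lemma split {b : List ℕ} (h : b ≠ []) : b = b.dropLast ++ [la b] := by
  obtain ⟨u, β, hb⟩ := (List.eq_nil_or_concat b).resolve_left h
  have hb' : b = u ++ [β] := by simpa using hb
  rw [hb', la_concat, List.dropLast_concat]

lemma SI_left {u : List ℕ} {β : ℕ} (h : SI (u ++ [β])) : SI u := by
  intro u1 β1 v1 hu
  apply h u1 β1 (v1 ++ [β])
  rw [hu]
  simp

lemma SI_last {u : List ℕ} {β : ℕ} (h : SI (u ++ [β])) : u.sum < β := h u β [] rfl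

/-- one letter less -/
theorem tri (d : ℕ) (R : List ℕ → List ℕ → ℚ) (τ : ℕ) (hτ : τ ≤ 2) (hτe : Even τ) (κ : ℕ → ℚ)
    (hκ : ∀ β, 2 ≤ β → κ β ≠ 0)
    (hR : ∀ (β : ℕ) (u e : List ℕ) (k : ℕ), 2 ≤ β → e.length = u.length → 2 * u.sum < k →
      R (u ++ [β]) (k :: e) = if 2 * β - τ ≤ k then κ β * q u ((k - (2 * β - τ)) :: e) else 0)
    (hT : Ind (d + 1) fun b e => q b (2 :: e)) : Ind (d + 2) R := by
  classical
  intro n F lam hF hsum
  by_contra hcon
  push Not at hcon
  obtain ⟨b0, hb0, hb0'⟩ := hcon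
  set F' := F.filter fun b => lam b ≠ 0 with hF'
  have hne : F'.Nonempty := ⟨b0, by rw [hF', mem_filter]; exact ⟨hb0, hb0'⟩⟩
  obtain ⟨bs, hbs, hmin⟩ := exists_min_image F' la hne
  rw [hF', mem_filter] at hbs
  set B := la bs with hB
  have hform : ∀ b ∈ F, b = b.dropLast ++ [la b] ∧ b.dropLast.length = d + 1 ∧
      b.dropLast.sum + la b = n ∧ b.dropLast.sum < la b ∧ SI b.dropLast ∧
      (∀ x ∈ b.dropLast, 2 ≤ x) ∧ 2 ≤ la b := by
    intro b hb
    obtain ⟨h1, h2, h3, h4⟩ := hF b hb
    have hb1 : b ≠ [] := by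
      rintro rfl
      simp at h1
    have h5 := split hb1
    refine ⟨h5, ?_, ?_, ?_, ?_, ?_, ?_⟩
    · rw [List.length_dropLast, h1]
      omega
    · rw [← h2]
      conv_rhs => rw [h5]
      rw [List.sum_append]
      simp
    · apply SI_last
      rw [← h5]
      exact h3
    · apply SI_left (β := la b)
      rw [← h5]
      exact h3
    · intro x hx
      exact h4 x (List.mem_of_mem_dropLast hx)
    · apply h4
      rw [h5]
      simp [la_concat]
  obtain ⟨hs1, hs2, hs3, hs4, hs5, hs6, hs7⟩ := hform bs hbs.1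
  rw [← hB] at hs3 hs4 hs7
  set F2 := F.filter fun b => lam b ≠ 0 ∧ la b = B with hF2
  set G := F2.image List.dropLast with hG
  have hinj : ∀ b ∈ F2, ∀ b' ∈ F2, b.dropLast = b'.dropLast → b = b' := by
    intro b hb b' hb' h
    rw [hF2, mem_filter] at hb hb'
    rw [(hform b hb.1).1, (hform b' hb'.1).1, h, hb.2.2, hb'.2.2]
  have hG0 : ∀ u ∈ G, lam (u ++ [B]) = 0 := by
    refine hT (n - B) G (fun u => lam (u ++ [B])) ?_ ?_
    · intro u hu
      rw [hG, mem_image] at hu
      obtain ⟨b, hb, rfl⟩ := hu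
      rw [hF2, mem_filter] at hb
      obtain ⟨h1, h2, h3, h4, h5, h6, h7⟩ := hform b hb.1
      rw [hb.2.2] at h3
      exact ⟨h2, by omega, h5, h6⟩
    · intro e he
      have h0 := hsum ((2 * B - τ + 2) :: e) ⟨by rw [List.length_cons, he.1], by
        intro x hx
        rw [List.mem_cons] at hx
        rcases hx with rfl | hx
        · obtain ⟨t, ht⟩ := hτe
          exact ⟨⟨B - t + 1, by omega⟩, by omega⟩
        · exact he.2 x hx⟩
      have h1 : ∑ b ∈ F, lam b * (R b ((2 * B - τ + 2) :: e) : ℚ) =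
          ∑ b ∈ F2, (κ B : ℚ) * (lam (b.dropLast ++ [B]) * (q b.dropLast (2 :: e) : ℚ)) := by
        rw [hF2, sum_filter]
        refine sum_congr rfl fun b hb => ?_
        obtain ⟨h1, h2, h3, h4, h5, h6, h7⟩ := hform b hb
        by_cases hl : lam b = 0
        · rw [hl, if_neg (by simp), zero_mul]
        have hle : B ≤ la b := hmin b (by rw [hF', mem_filter]; exact ⟨hb, hl⟩)
        have hlen : e.length = b.dropLast.length := by rw [h2, he.1]
        have hval := hR (la b) b.dropLast e (2 * B - τ + 2) h7 hlen (by omega)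
        rw [← h1] at hval
        by_cases hB1 : la b = B
        · rw [if_pos (show lam b ≠ 0 ∧ la b = B from ⟨hl, hB1⟩), hval, hB1, if_pos (by omega)]
          have h8 : 2 * B - τ + 2 - (2 * B - τ) = 2 := by omega
          have h9 : b.dropLast ++ [B] = b := by
            rw [← hB1]
            exact h1.symm
          rw [h8, h9]
          push_cast
          ring
        · rw [if_neg (show ¬ (lam b ≠ 0 ∧ la b = B) from fun h => hB1 h.2), hval]
          by_cases hB2 : la b = B + 1
          · rw [hB2, if_pos (by omega)]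
            have h8 : 2 * B - τ + 2 - (2 * (B + 1) - τ) = 0 := by omega
            rw [h8, zero_term b.dropLast e (by
              intro h
              rw [h] at h2
              simp at h2) hlen]
            simp
          · rw [if_neg (by omega)]
            simp
      rw [h1, ← mul_sum] at h0
      have h2 : (κ B : ℚ) ≠ 0 := by exact_mod_cast hκ B hs7
      have h3 := (mul_eq_zero.1 h0).resolve_left h2
      rw [hG, sum_image hinj]
      exact h3
  apply hbs.2
  rw [hs1, ← hB]
  apply hG0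
  rw [hG, mem_image]
  refine ⟨bs, ?_, rfl⟩
  rw [hF2, mem_filter]
  exact ⟨hbs.1, hbs.2, rfl⟩

lemma one_el {n : ℕ} {F : Finset (List ℕ)} (hF : Fam 1 n F) {b : List ℕ} (hb : b ∈ F) :
    b = [n] ∧ 2 ≤ n ∧ F = {[n]} := by
  have h1 : ∀ b ∈ F, b = [n] := by
    intro b hb
    obtain ⟨h1, h2, -, -⟩ := hF b hb
    obtain ⟨x, rfl⟩ := List.length_eq_one_iff.1 h1
    simp at h2
    rw [h2]
  refine ⟨h1 b hb, ?_, ?_⟩
  · have := (hF b hb).2.2.2 n (by rw [h1 b hb]; simp)
    exact this
  · apply eq_singleton_iff_unique_mem.2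
    exact ⟨by rw [← h1 b hb]; exact hb, fun x hx => h1 x hx⟩

theorem indT : ∀ d : ℕ, Ind (d + 1) fun b e => q b (2 :: e)
  | 0 => by
    intro n F lam hF hsum b hb
    obtain ⟨h1, h2, h3⟩ := one_el hF hb
    have h4 := hsum [2 * n - 2] ⟨rfl, by
      intro x hx
      rw [List.mem_singleton] at hx
      subst hx
      exact ⟨⟨n - 1, by omega⟩, by omega⟩⟩
    rw [h3, sum_singleton] at h4
    have h5 := dom_q n (by omega) [] [] (2 * n - 2) rfl (by simp; omega)
    rw [List.nil_append, if_pos le_rfl] at h5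
    simp only at h4
    rw [h5] at h4
    have h6 : q [] ((2 * n - 2 - (2 * n - 2)) :: []) = 1 := by
      rw [Nat.sub_self]
      rfl
    rw [h6, mul_one] at h4
    have h7 : ((2 * n).choose 2 : ℚ) ≠ 0 := by
      exact_mod_cast (Nat.choose_pos (by omega : 2 ≤ 2 * n)).ne'
    rw [h1]
    have h8 : ((-((2 * n).choose 2 : ℚ) : ℚ) : ℚ) ≠ 0 := by
      exact_mod_cast neg_ne_zero.2 h7
    exact (mul_eq_zero.1 h4).resolve_right h8
  | d + 1 => by
    refine tri d _ 2 le_rfl ⟨1, rfl⟩ (fun β => -((2 * β).choose 2 : ℚ)) ?_ ?_ (indT d)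
    · intro β hβ
      apply neg_ne_zero.2
      exact_mod_cast (Nat.choose_pos (by omega : 2 ≤ 2 * β)).ne'
    · intro β u e k hβ he hk
      exact dom_q β (by omega) u e k he hk

theorem indC : ∀ d : ℕ, Ind (d + 1) c
  | 0 => by
    intro n F lam hF hsum b hb
    obtain ⟨h1, h2, h3⟩ := one_el hF hb
    have h4 := hsum [2 * n] ⟨rfl, by
      intro x hx
      rw [List.mem_singleton] at hx
      subst hx
      exact ⟨⟨n, by omega⟩, by omega⟩⟩
    rw [h3, sum_singleton] at h4
    have h5 : c [n] [2 * n] = 1 := by simp [c, A]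
    rw [h5] at h4
    rw [h1]
    simpa using h4
  | d + 1 => by
    refine tri d _ 0 (by omega) ⟨0, rfl⟩ (fun _ => 1) (fun _ _ => one_ne_zero) ?_ (indT d)
    intro β u e k hβ he hk
    exact dom_c β u e k he hk

end Pool.Agent.N568.BK
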